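import Pool.Agent.MTA.Stmts0

/-!
Montesinos knots, analysis part: reciprocals of the integers of a residue class (CLS).
-/

open scoped BigOperators Real Topology
open Filter

namespace Pool.Agent.MTA

namespace CLS

theorem pos_part (n H : ℕ) (r : ℤ) (L : ℝ) (hH : 0 < H) (hn : 1 ≤ n) (hL : 0 < L) (F : Finset ℤ)
    (hF : ∀ b ∈ F, (H : ℤ) ∣ b - r ∧ L < (b : ℝ) ∧ 0 < b ∧ b ≤ n) :
    ∑ b ∈ F, 1 / (b : ℝ) ≤ 1 / L + 1 / H * (1 + Real.log n) := by
  have hHr : (0 : ℝ) < H := by exact_mod_cast hH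
  have hlog : 0 ≤ Real.log n := Real.log_nonneg (by exact_mod_cast hn)
  rcases F.eq_empty_or_nonempty with hE | hne
  · rw [hE, Finset.sum_empty]; positivity
  set b0 := F.min' hne with hb0
  have hb0F : b0 ∈ F := F.min'_mem hne
  obtain ⟨h1, h2, h3, h4⟩ := hF b0 hb0F
  rw [← Finset.add_sum_erase F _ hb0F]
  have hfirst : 1 / (b0 : ℝ) ≤ 1 / L := one_div_le_one_div_of_le hL h2.le
  have key : ∀ b ∈ F.erase b0, ∃ i : ℕ, b = b0 + H * i ∧ 1 ≤ i ∧ i ≤ n := by
    intro b hb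
    obtain ⟨hne', hbF⟩ := Finset.mem_erase.1 hb
    obtain ⟨g1, g2, g3, g4⟩ := hF b hbF
    have hlt : b0 < b := lt_of_le_of_ne (F.min'_le b hbF) (Ne.symm hne')
    have hdvd : (H : ℤ) ∣ b - b0 := by
      have := dvd_sub g1 h1
      have e : b - r - (b0 - r) = b - b0 := by ring
      rwa [e] at this
    obtain ⟨k, hk⟩ := hdvd
    have hHz : (0 : ℤ) < H := by exact_mod_cast hH
    have hk0 : 0 < k := by
      have : 0 < (H : ℤ) * k := by rw [← hk]; linarith
      exact (mul_pos_iff_of_pos_left hHz).1 this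
    refine ⟨k.toNat, ?_, ?_, ?_⟩
    · rw [Int.toNat_of_nonneg hk0.le]; linarith
    · omega
    · have h5 : k ≤ n := by
        have h6 : k ≤ (H : ℤ) * k := by nlinarith
        have h7 : (H : ℤ) * k ≤ n := by rw [← hk]; linarith
        linarith
      omega
  choose! i hi using key
  have hsum : ∑ b ∈ F.erase b0, 1 / (b : ℝ) ≤ ∑ b ∈ F.erase b0, 1 / (H : ℝ) * ((i b : ℝ))⁻¹ := by
    refine Finset.sum_le_sum (fun b hb => ?_)
    obtain ⟨e1, e2, e3⟩ := hi b hb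
    have hi0 : (0 : ℝ) < i b := by exact_mod_cast e2
    have e4 : (b : ℝ) = b0 + H * i b := by exact_mod_cast congrArg (fun z : ℤ => (z : ℝ)) e1
    have e5 : 1 / (H : ℝ) * ((i b : ℝ))⁻¹ = 1 / ((H : ℝ) * i b) := by
      rw [one_div, one_div, mul_inv]
    rw [e5, e4]
    have hb0r : (0 : ℝ) < b0 := by exact_mod_cast h3
    exact one_div_le_one_div_of_le (by positivity) (by linarith)
  have hinj : Set.InjOn i (F.erase b0 : Set ℤ) := by
    intro b hb c hc hbc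
    rw [(hi b hb).1, (hi c hc).1, hbc]
  have hsum2 : ∑ b ∈ F.erase b0, 1 / (H : ℝ) * ((i b : ℝ))⁻¹
      = ∑ k ∈ (F.erase b0).image i, 1 / (H : ℝ) * ((k : ℝ))⁻¹ :=
    (Finset.sum_image (f := fun k : ℕ => 1 / (H : ℝ) * ((k : ℝ))⁻¹) hinj).symm
  have hsub : (F.erase b0).image i ⊆ Finset.Icc 1 n := by
    intro k hk
    obtain ⟨b, hb, rfl⟩ := Finset.mem_image.1 hk
    exact Finset.mem_Icc.2 ⟨(hi b hb).2.1, (hi b hb).2.2⟩
  have hsum3 : ∑ k ∈ (F.erase b0).image i, 1 / (H : ℝ) * ((k : ℝ))⁻¹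
      ≤ ∑ k ∈ Finset.Icc 1 n, 1 / (H : ℝ) * ((k : ℝ))⁻¹ :=
    Finset.sum_le_sum_of_subset_of_nonneg hsub (fun k _ _ => by positivity)
  have hharm : ∑ k ∈ Finset.Icc 1 n, 1 / (H : ℝ) * ((k : ℝ))⁻¹
      ≤ 1 / H * (1 + Real.log n) := by
    rw [← Finset.mul_sum]
    refine mul_le_mul_of_nonneg_left ?_ (by positivity)
    have h5 := harmonic_le_one_add_log n
    rw [harmonic_eq_sum_Icc] at h5
    push_cast at h5
    exact h5
  linarith

end CLS

open CLS

theorem cls : CLS_Stmt := by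
  intro n H r L hH hn hL F hF
  classical
  have h1 := pos_part n H r L hH hn hL (F.filter (fun b => 0 < b)) (by
    intro b hb
    obtain ⟨hb1, hb2⟩ := Finset.mem_filter.1 hb
    obtain ⟨g1, g2, g3⟩ := hF b hb1
    have hbr : (0 : ℝ) < b := by exact_mod_cast hb2
    rw [abs_of_pos hbr] at g2
    rw [abs_of_pos hb2] at g3
    exact ⟨g1, g2, hb2, by linarith⟩)
  have h2 := pos_part n H (-r) L hH hn hL ((F.filter (fun b => ¬ 0 < b)).image (fun b => -b)) (by
    intro b hb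
    obtain ⟨c, hc, rfl⟩ := Finset.mem_image.1 hb
    obtain ⟨hb1, hb2⟩ := Finset.mem_filter.1 hc
    obtain ⟨g1, g2, g3⟩ := hF c hb1
    have hc0 : c ≠ 0 := by
      intro h; rw [h] at g2; simp at g2; linarith
    have hneg : c < 0 := by omega
    have hcr : (c : ℝ) < 0 := by exact_mod_cast hneg
    rw [abs_of_neg hcr] at g2
    rw [abs_of_neg hneg] at g3
    refine ⟨?_, ?_, by omega, by linarith⟩
    · obtain ⟨k, hk⟩ := g1
      exact ⟨-k, by linarith⟩
    · push_cast; exact g2)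
  rw [Finset.sum_image (fun a _ b _ h => neg_injective h)] at h2
  have h3 : ∑ b ∈ F.filter (fun b => 0 < b), 1 / |(b : ℝ)|
      = ∑ b ∈ F.filter (fun b => 0 < b), 1 / (b : ℝ) := by
    refine Finset.sum_congr rfl (fun b hb => ?_)
    have hbr : (0 : ℝ) < b := by exact_mod_cast (Finset.mem_filter.1 hb).2
    rw [abs_of_pos hbr]
  have h4 : ∑ b ∈ F.filter (fun b => ¬ 0 < b), 1 / |(b : ℝ)|
      = ∑ b ∈ F.filter (fun b => ¬ 0 < b), 1 / ((-b : ℤ) : ℝ) := by
    refine Finset.sum_congr rfl (fun b hb => ?_)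
    have hb2 := (Finset.mem_filter.1 hb).2
    have hbr : (b : ℝ) ≤ 0 := by exact_mod_cast not_lt.1 hb2
    rw [abs_of_nonpos hbr]; push_cast; rfl
  rw [← Finset.sum_filter_add_sum_filter_not F (fun b => 0 < b), h3, h4]
  have e : 2 / L + 2 / H * (1 + Real.log n)
      = (1 / L + 1 / H * (1 + Real.log n)) + (1 / L + 1 / H * (1 + Real.log n)) := by ring
  rw [e]
  exact add_le_add h1 h2

end Pool.Agent.MTA
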