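import Pool.Agent.MTA.Stmts0

/-!
Montesinos knots, analysis part: the limit of the cosecant sums (module CSCL).
-/

open Filter Topology
open scoped BigOperators Real

namespace Pool.Agent.MTA

open Pool.Agent.TB Pool.Agent.MTR

namespace CSCL

lemma norm_chi_le (s : ℕ) (M : ℤ) (v : ZMod (2 ^ s)) : ‖chi s M v‖ ≤ 1 := by
  unfold chi
  split_ifs <;> simp

lemma chi_ne (s : ℕ) (M : ℤ) (v : ZMod (2 ^ s)) (h : chi s M v ≠ 0) :
    v = (M : ZMod (2 ^ s)) ∨ v = (M : ZMod (2 ^ s)) + 2 ^ (s - 1) := by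
  by_contra hc
  push Not at hc
  apply h
  unfold chi
  rw [if_neg hc.1, if_neg hc.2, sub_zero]

lemma key (s : ℕ) (N c M : ℤ) (hne : ∀ ρ : ℤ, c * (ρ ^ 2 * N) ≠ M) (r : ℕ) (hr : 1 ≤ r)
    (h : chi s M ((c : ZMod (2 ^ s)) * ((r : ZMod (2 ^ s)) ^ 2 * N)) ≠ 0) :
    2 ^ s ≤ 2 * ((c * N).natAbs + M.natAbs) * r ^ 2 := by
  set X : ℤ := c * ((r : ℤ) ^ 2 * N) - M with hX
  have hX0 : X ≠ 0 := sub_ne_zero.mpr (hne r)
  have hdvd : ((2 ^ (s - 1) : ℕ) : ℤ) ∣ X := by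
    have hs : ((2 ^ (s - 1) : ℕ) : ℤ) ∣ ((2 ^ s : ℕ) : ℤ) :=
      Int.natCast_dvd_natCast.mpr (pow_dvd_pow 2 (Nat.sub_le s 1))
    rcases chi_ne s M _ h with h1 | h1
    · have h2 : ((X : ℤ) : ZMod (2 ^ s)) = 0 := by
        rw [hX]; push_cast; rw [h1, sub_self]
      exact hs.trans ((ZMod.intCast_zmod_eq_zero_iff_dvd X (2 ^ s)).mp h2)
    · have h2 : ((X - (2 ^ (s - 1) : ℕ) : ℤ) : ZMod (2 ^ s)) = 0 := by
        rw [hX]; push_cast; rw [h1]; ring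
      have h3 := hs.trans ((ZMod.intCast_zmod_eq_zero_iff_dvd _ (2 ^ s)).mp h2)
      exact (dvd_sub_self_right).mp h3
  have h4 : 2 ^ (s - 1) ≤ X.natAbs :=
    Nat.le_of_dvd (Int.natAbs_pos.mpr hX0) (Int.natCast_dvd.mp hdvd)
  have h5 : X.natAbs ≤ (c * N).natAbs * r ^ 2 + M.natAbs := by
    have e : X = c * N * (r : ℤ) ^ 2 - M := by rw [hX]; ring
    rw [e]
    refine (Int.natAbs_sub_le _ _).trans ?_
    rw [Int.natAbs_mul (c * N), Int.natAbs_pow, Int.natAbs_natCast]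
  have h6 : 2 ^ s ≤ 2 * 2 ^ (s - 1) := by
    rcases Nat.eq_zero_or_pos s with h0 | h0
    · subst h0; norm_num
    · rw [← pow_succ', Nat.sub_add_cancel h0]
  have h7 : M.natAbs ≤ M.natAbs * r ^ 2 := Nat.le_mul_of_pos_right _ (by positivity)
  calc 2 ^ s ≤ 2 * 2 ^ (s - 1) := h6
    _ ≤ 2 * ((c * N).natAbs * r ^ 2 + M.natAbs) := Nat.mul_le_mul_left 2 (h4.trans h5)
    _ ≤ 2 * ((c * N).natAbs * r ^ 2 + M.natAbs * r ^ 2) := by omega
    _ = 2 * ((c * N).natAbs + M.natAbs) * r ^ 2 := by ring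

/-- The elementary bound for one term. -/
lemma sin_bound (n r : ℕ) (hr : 1 ≤ r) (h : 2 * r ≤ n) :
    (π / n) ^ 2 * (1 / Real.sin (π * r / n) ^ 2) ≤ π ^ 2 / 4 * ((r : ℝ) ^ 2)⁻¹ := by
  have hr' : (0 : ℝ) < r := by exact_mod_cast hr
  have hn : (0 : ℝ) < n := by
    have : 0 < n := by omega
    exact_mod_cast this
  have h2 : (2 : ℝ) * r ≤ n := by exact_mod_cast h
  have h3 : 2 / π * (π * r / n) ≤ Real.sin (π * r / n) := by
    apply Real.mul_le_sin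
    · positivity
    · rw [div_le_div_iff₀ hn two_pos]
      nlinarith [Real.pi_pos]
  have h4 : 2 / π * (π * r / n) = 2 * r / n := by
    field_simp
  rw [h4] at h3
  have h5 : 0 < 2 * (r : ℝ) / n := by positivity
  have h6 : 1 / Real.sin (π * r / n) ^ 2 ≤ 1 / (2 * r / n) ^ 2 :=
    one_div_le_one_div_of_le (by positivity) (pow_le_pow_left₀ h5.le h3 2)
  calc (π / n) ^ 2 * (1 / Real.sin (π * r / n) ^ 2)
      ≤ (π / n) ^ 2 * (1 / (2 * r / n) ^ 2) := mul_le_mul_of_nonneg_left h6 (by positivity)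
    _ = π ^ 2 / 4 * ((r : ℝ) ^ 2)⁻¹ := by field_simp; ring

lemma sum_bound (n K : ℕ) (hn : 1 ≤ n) (hK : 1 ≤ K) :
    ∑ r ∈ Finset.Ico 1 n, (if n ≤ K * r ^ 2 then π ^ 2 / 4 * ((r : ℝ) ^ 2)⁻¹ else 0) ≤
      π ^ 2 / 2 * (√K / √n) := by
  set m := (n - 1) / K with hm
  set k := Nat.sqrt m with hk
  have h1 : n ≤ K * (k + 1) ^ 2 := by
    have e1 : m + 1 ≤ (k + 1) ^ 2 := by
      have := Nat.lt_succ_sqrt m
      rw [← hk] at this
      rw [pow_two]
      exact this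
    have e2 : n - 1 < K * (m + 1) := by
      rw [mul_comm]
      exact Nat.lt_mul_of_div_lt (by omega) (by omega)
    have e3 : K * (m + 1) ≤ K * (k + 1) ^ 2 := Nat.mul_le_mul_left K e1
    omega
  have h2 : ∀ r : ℕ, n ≤ K * r ^ 2 → k < r := by
    intro r hr
    by_contra hc
    push Not at hc
    have e1 : k * k ≤ m := Nat.sqrt_le m
    have e2 : K * m ≤ n - 1 := Nat.mul_div_le (n - 1) K
    have e3 : K * r ^ 2 ≤ K * (k * k) := by
      rw [← pow_two]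
      exact Nat.mul_le_mul_left K (Nat.pow_le_pow_left hc 2)
    have e4 : K * (k * k) ≤ K * m := Nat.mul_le_mul_left K e1
    omega
  have h3 : ∑ r ∈ Finset.Ico 1 n, (if n ≤ K * r ^ 2 then π ^ 2 / 4 * ((r : ℝ) ^ 2)⁻¹ else 0) ≤
      ∑ r ∈ Finset.Ioo k n, π ^ 2 / 4 * ((r : ℝ) ^ 2)⁻¹ := by
    rw [← Finset.sum_filter]
    apply Finset.sum_le_sum_of_subset_of_nonneg
    · intro r hr
      rw [Finset.mem_filter, Finset.mem_Ico] at hr
      rw [Finset.mem_Ioo]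
      exact ⟨h2 r hr.2, hr.1.2⟩
    · intros
      positivity
  refine h3.trans ?_
  rw [← Finset.mul_sum]
  have h4 : ∑ i ∈ Finset.Ioo k n, ((i : ℝ) ^ 2)⁻¹ ≤ 2 / ((k : ℝ) + 1) := sum_Ioo_inv_sq_le k n
  have h5 : √n ≤ √K * ((k : ℝ) + 1) := by
    rw [Real.sqrt_le_left (by positivity), mul_pow, Real.sq_sqrt (by positivity)]
    exact_mod_cast h1
  have hn' : (0 : ℝ) < √n := Real.sqrt_pos.mpr (by exact_mod_cast hn)
  have h6 : 2 / ((k : ℝ) + 1) ≤ 2 * (√K / √n) := by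
    rw [mul_div_assoc', div_le_div_iff₀ (by positivity) hn']
    nlinarith
  calc π ^ 2 / 4 * ∑ i ∈ Finset.Ioo k n, ((i : ℝ) ^ 2)⁻¹
      ≤ π ^ 2 / 4 * (2 * (√K / √n)) :=
        mul_le_mul_of_nonneg_left (h4.trans h6) (by positivity)
    _ = π ^ 2 / 2 * (√K / √n) := by ring

end CSCL

open CSCL in
theorem cscl : CSCL_Stmt := by
  intro N c M _ hM hne
  set K : ℕ := 2 * ((c * N).natAbs + M.natAbs) with hK
  have hK1 : 1 ≤ K := by
    have : M.natAbs ≠ 0 := by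
      rw [Int.natAbs_ne_zero]
      rintro rfl
      exact absurd hM (by decide)
    omega
  have hlim : Tendsto (fun s : ℕ => π ^ 2 * √K * (1 / √2) ^ s) atTop (𝓝 0) := by
    rw [show (0 : ℝ) = π ^ 2 * √K * 0 by simp]
    apply Tendsto.const_mul
    apply tendsto_pow_atTop_nhds_zero_of_lt_one (by positivity)
    rw [div_lt_one (by positivity)]
    rw [Real.lt_sqrt (by norm_num)]
    norm_num
  apply squeeze_zero_norm _ hlim
  intro s
  set n : ℕ := 2 ^ s with hn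
  have hn1 : 1 ≤ n := Nat.one_le_two_pow
  set g : ℕ → ℝ := fun r => if n ≤ K * r ^ 2 then π ^ 2 / 4 * ((r : ℝ) ^ 2)⁻¹ else 0 with hg
  have hg0 : ∀ r, 0 ≤ g r := by
    intro r
    simp only [hg]
    split_ifs
    · positivity
    · exact le_rfl
  have hterm : ∀ ρ ∈ Finset.Ico 1 n, ‖((π : ℂ) / 2 ^ s) ^ 2 *
      (((1 / Real.sin (π * ρ / n) ^ 2 : ℝ) : ℂ) *
        chi s M (c * ((ρ : ZMod n) ^ 2 * N)))‖ ≤ g ρ + g (n - ρ) := by
    intro ρ hρ
    rw [Finset.mem_Ico] at hρ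
    by_cases hchi : chi s M ((c : ZMod n) * ((ρ : ZMod n) ^ 2 * N)) = 0
    · rw [hchi]
      simp only [mul_zero, norm_zero]
      exact add_nonneg (hg0 _) (hg0 _)
    have e1 : ‖((π : ℂ) / 2 ^ s) ^ 2 * (((1 / Real.sin (π * ρ / n) ^ 2 : ℝ) : ℂ) *
        chi s M (c * ((ρ : ZMod n) ^ 2 * N)))‖ ≤
        (π / n) ^ 2 * (1 / Real.sin (π * ρ / n) ^ 2) := by
      rw [norm_mul, norm_mul, norm_pow, norm_div, norm_pow, Complex.norm_real, Complex.norm_real,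
        Real.norm_of_nonneg Real.pi_pos.le, Real.norm_of_nonneg (by positivity)]
      have e2 : (‖(2 : ℂ)‖ ^ s : ℝ) = (n : ℝ) := by
        rw [hn]; push_cast; norm_num
      rw [e2]
      have e3 := norm_chi_le s M (c * ((ρ : ZMod n) ^ 2 * N))
      calc (π / n) ^ 2 * (1 / Real.sin (π * ρ / n) ^ 2 *
            ‖chi s M (c * ((ρ : ZMod n) ^ 2 * N))‖)
          ≤ (π / n) ^ 2 * (1 / Real.sin (π * ρ / n) ^ 2 * 1) := by gcongr
        _ = _ := by rw [mul_one]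
    refine e1.trans ?_
    rcases le_total (2 * ρ) n with h2 | h2
    · have e2 := sin_bound n ρ hρ.1 h2
      have e3 : g ρ = π ^ 2 / 4 * ((ρ : ℝ) ^ 2)⁻¹ := by
        simp only [hg]
        rw [if_pos (key s N c M hne ρ hρ.1 hchi)]
      linarith [hg0 (n - ρ)]
    · set r := n - ρ with hr
      have hr1 : 1 ≤ r := by omega
      have hρr : (ρ : ℝ) = n - r := by
        rw [hr, Nat.cast_sub hρ.2.le]; ring
      have hsin : Real.sin (π * ρ / n) = Real.sin (π * r / n) := by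
        have hn0 : (n : ℝ) ≠ 0 := by exact_mod_cast (by omega : n ≠ 0)
        rw [hρr, ← Real.sin_pi_sub]
        congr 1
        field_simp
        ring
      have hcast : (ρ : ZMod n) ^ 2 = (r : ZMod n) ^ 2 := by
        rw [hr, Nat.cast_sub hρ.2.le, ZMod.natCast_self]
        ring
      rw [hsin]
      have e2 := sin_bound n r hr1 (by omega)
      have e3 : g r = π ^ 2 / 4 * ((r : ℝ) ^ 2)⁻¹ := by
        simp only [hg]
        rw [if_pos]
        apply key s N c M hne r hr1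
        rw [← hcast]
        exact hchi
      linarith [hg0 ρ]
  have hsum : ‖((π : ℂ) / 2 ^ s) ^ 2 * CS n N (fun v => chi s M (c * v))‖ ≤
      ∑ ρ ∈ Finset.Ico 1 n, (g ρ + g (n - ρ)) := by
    unfold CS
    rw [Finset.mul_sum]
    exact (norm_sum_le _ _).trans (Finset.sum_le_sum hterm)
  refine hsum.trans ?_
  rw [Finset.sum_add_distrib]
  have hrefl : ∑ ρ ∈ Finset.Ico 1 n, g (n - ρ) = ∑ ρ ∈ Finset.Ico 1 n, g ρ := by
    refine Finset.sum_nbij' (fun ρ => n - ρ) (fun ρ => n - ρ) ?_ ?_ ?_ ?_ ?_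
    · intro a ha; rw [Finset.mem_Ico] at ha ⊢; omega
    · intro a ha; rw [Finset.mem_Ico] at ha ⊢; omega
    · intro a ha; rw [Finset.mem_Ico] at ha; omega
    · intro a ha; rw [Finset.mem_Ico] at ha; omega
    · intro a _; rfl
  rw [hrefl]
  have hb := sum_bound n K hn1 hK1
  have hfin : √(n : ℝ) = √2 ^ s := by
    rw [hn]; push_cast
    rw [Real.sqrt_eq_iff_mul_self_eq (by positivity) (by positivity), ← mul_pow,
      Real.mul_self_sqrt (by norm_num)]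
  have : π ^ 2 / 2 * (√K / √n) + π ^ 2 / 2 * (√K / √n) = π ^ 2 * √K * (1 / √2) ^ s := by
    rw [hfin, one_div, inv_pow]
    ring
  calc ∑ ρ ∈ Finset.Ico 1 n, g ρ + ∑ ρ ∈ Finset.Ico 1 n, g ρ
      ≤ π ^ 2 / 2 * (√K / √n) + π ^ 2 / 2 * (√K / √n) := add_le_add hb hb
    _ = _ := this

end Pool.Agent.MTA
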