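import Pool.Agent.MTR.Defs
import Pool.Agent.TB.Stmts2

/-!
Montesinos knots, analysis part (from the torus model to the limit function): definitions.
See PAPER.md in this folder.
-/

open scoped BigOperators Real

namespace Pool.Agent.MTA

open Pool.Agent.TB Pool.Agent.MTR

/-- `N(R) = ⟨ℓ,R⟩ ⟨R,V⟩` -/
def Nl (l V R : ℤ × ℤ) : ℤ := det2 l R * det2 R V

section Mod

variable (n : ℕ) [NeZero n]

/-- `N(R)` modulo `n` -/
def Nlm (l V : ℤ × ℤ) (R : ZMod n × ZMod n) : ZMod n := -(detm n R l) * detm n R V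

/-- The `csc²` sum of the vector value `N`, for a function `χ` on `ℤ/n`. -/
noncomputable def CS (N : ℤ) (χ : ZMod n → ℂ) : ℂ :=
  ∑ ρ ∈ Finset.Ico 1 n, ((1 / Real.sin (π * ρ / n) ^ 2 : ℝ) : ℂ) * χ ((ρ : ZMod n) ^ 2 * N)

/-- The `cot cot` sum of two vectors `g, h`. -/
noncomputable def CC (l V g h : ℤ × ℤ) (χ : ZMod n → ℂ) : ℂ :=
  ∑ R : ZMod n × ZMod n, ct n (detm n R g) * ct n (detm n R h) * χ (Nlm n l V R)

/-- The sums of a site: the word `x` and the vector `ℓ`. -/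
noncomputable def SG (l : ℤ × ℤ) (x : List ℤ) (χ : ZMod n → ℂ) : ℂ :=
  (1 / 2) * ∑ i ∈ Finset.range x.length, ((x.getD i 0 : ℤ) : ℂ) *
      CS n (Nl l (lastv x) (chain x (i + 1))) χ +
  (1 / 4) * ∑ j ∈ Finset.range (x.length + 1), (-1 : ℂ) ^ j *
      CC n l (lastv x) (chain x j) (chain x (j + 1)) χ

/-- The sums of the Montesinos knot. -/
noncomputable def TG (e : ℤ) (ws : List (List ℤ)) (χ : ZMod n → ℂ) : ℂ :=
  (ws.map fun x => SG n (lv e (ws.erase x)) x χ).sum -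
    ((ws.length : ℂ) - 2) * SG n (lv e ws) [] χ +
    ((e : ℂ) / 4) * CS n (-(totv e ws).2) χ

/-- The logarithmic derivative. -/
noncomputable def LG (e : ℤ) (ws : List (List ℤ)) (κ : ZMod n) : ℂ :=
  -((n : ℂ) ^ 2 - 1) / 6 * ((e : ℂ) / 2 + (ws.map fun x => ((x.sum : ℤ) : ℂ)).sum) +
    TG n e ws (fun v => ZMod.stdAddChar (κ * v))

end Mod

/-- `[v = M] - [v = M + 2^(s-1)]` on `ℤ/2^s` -/
noncomputable def chi (s : ℕ) (M : ℤ) (v : ZMod (2 ^ s)) : ℂ :=
  (if v = (M : ZMod (2 ^ s)) then 1 else 0) -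
    (if v = (M : ZMod (2 ^ s)) + 2 ^ (s - 1) then 1 else 0)

section Torus

variable (n : ℕ) [NeZero n] (ι : ℤ)

/-- the pairing of two functions: the sum over the even elements of `ℤ/2n` -/
noncomputable def pr (f g : Fn n) : ℂ :=
  ∑ w ∈ Finset.range n, f (2 * w) * g (2 * w)

/-- the function is fixed by all `T_(b v)` -/
def Stab (v : ℤ × ℤ) (f : Fn n) : Prop := ∀ b : ℤ, Tt n ι (b * v.1) (b * v.2) f = f

end Torus

end Pool.Agent.MTA
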