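import Pool.Agent.MTA.Defs
import Pool.Agent.MT.Defs

/-!
Montesinos knots, analysis part: definitions for the model at a root of unity.
See PAPER.md in this folder.
-/

open scoped BigOperators Real

namespace Pool.Agent.MTA

open Pool.Agent.TB Pool.Agent.MTR Pool.Agent.MT

/-- the words, outermost letter first -/
def wrds (ts : List (Bool × List ℤ)) : List (List ℤ) := ts.map fun t => t.2.reverse

/-- Normal form: nonempty words with nonzero letters and the parity condition. -/
def NFT (ts : List (Bool × List ℤ)) (e : ℤ) : Prop :=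
  PF ts e ∧ ∀ t ∈ ts, t.2 ≠ [] ∧ ∀ a ∈ t.2, a ≠ 0

section Torus

variable (n : ℕ) [NeZero n] (ι : ℤ)

/-- the half twists on the even elements of `ℤ/2n`, zero on the odd elements -/
noncomputable def fe (e : ℤ) : Fn n := fun u =>
  if Even u.val then zt n ι ((2 * e * ((u.val / 2 : ℕ) : ℤ) ^ 2 : ℤ) : ZMod (2 * n)) else 0

/-- the product of the half twists and of the tangles -/
noncomputable def Pp (e : ℤ) (ts : List (Bool × List ℤ)) : Fn n := fun u =>
  fe n ι e u * (ts.map fun t => (vt n ι t).1 u).prod

/-- the vector `W_{≤ j} O W_{> j} f` -/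
noncomputable def insg (f : Fn n) (O : Module.End ℂ (Fn n)) : Bool → List ℤ → ℕ → Fn n
  | b, l, 0 => O (vecg n ι (f, 0) b l).1
  | _, [], _ + 1 => 0
  | false, a :: l, j + 1 => Dc n ι a (insg f O true l j)
  | true, a :: l, j + 1 => Cc n ι a (insg f O false l j)

end Torus

end Pool.Agent.MTA
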