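import Pool.Agent.MTA.Stmts

/-!
Montesinos knots, analysis part: module DERG (the derivative as a sum of insertions).
-/

open scoped BigOperators Real

namespace Pool.Agent.MTA

open Pool.Agent.LibH11.Sliced Pool.Agent.TB Pool.Agent.MTR Pool.Agent.MT

namespace DERG

variable (n : ℕ) [NeZero n] (ι : ℤ) (B : Fn n × Fn n)

theorem vecg_false (a : ℤ) (l : List ℤ) : (vecg n ι B false (a :: l)).2 =
    Dc n ι a ((vecg n ι B true l).2 + Th n ι (vecg n ι B true l).1) +
      (a : ℂ) • cono n ι (bq n) (vecg n ι B false (a :: l)).1 -
      Th n ι (vecg n ι B false (a :: l)).1 := rfl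

theorem vecg_true (a : ℤ) (l : List ℤ) : (vecg n ι B true (a :: l)).2 =
    Cc n ι a (vecg n ι B false l).2 +
      (a : ℂ) • mulo n (bq n) (vecg n ι B true (a :: l)).1 := rfl

/-- the first component depends only on the first component of the base -/
theorem vecg_fst (l : List ℤ) : ∀ b : Bool, (vecg n ι B b l).1 = (vecg n ι (B.1, 0) b l).1 := by
  induction l with
  | nil => intro b; cases b <;> rfl
  | cons a l ih =>
    intro b
    cases b with
    | false =>
      change Dc n ι a (vecg n ι B true l).1 = Dc n ι a (vecg n ι (B.1, 0) true l).1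
      rw [ih true]
    | true =>
      change Cc n ι a (vecg n ι B false l).1 = Cc n ι a (vecg n ι (B.1, 0) false l).1
      rw [ih false]

theorem insg_zero (f : Fn n) (O : Module.End ℂ (Fn n)) (b : Bool) (l : List ℤ) :
    insg n ι f O b l 0 = O (vecg n ι (f, 0) b l).1 := by
  cases b <;> cases l <;> rfl

theorem insg_false (f : Fn n) (O : Module.End ℂ (Fn n)) (a : ℤ) (l : List ℤ) (j : ℕ) :
    insg n ι f O false (a :: l) (j + 1) = Dc n ι a (insg n ι f O true l j) := rfl

theorem insg_true (f : Fn n) (O : Module.End ℂ (Fn n)) (a : ℤ) (l : List ℤ) (j : ℕ) :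
    insg n ι f O true (a :: l) (j + 1) = Cc n ι a (insg n ι f O false l j) := rfl

theorem ite_succ {α : Sort*} (i : ℕ) (u v : α) :
    (if Even (i + 1) then u else v) = if Even i then v else u := by
  by_cases h : Even i
  · rw [if_pos h, if_neg (by rw [Nat.even_add_one]; exact fun h' => h' h)]
  · rw [if_neg h, if_pos (by rw [Nat.even_add_one]; exact h)]

/-- the formula in the state `false` -/
def PFl (l : List ℤ) : Prop := (vecg n ι B false l).2 =
  -(∑ j ∈ Finset.range (l.length + 1), (-1 : ℂ) ^ j • insg n ι B.1 (Th n ι) false l j) +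
    ∑ i ∈ Finset.range l.length, ((l.getD i 0 : ℤ) : ℂ) •
      insg n ι B.1 (if Even i then cono n ι (bq n) else mulo n (bq n)) false l i

/-- the formula in the state `true` -/
def PTr (l : List ℤ) : Prop := (vecg n ι B true l).2 + Th n ι (vecg n ι B true l).1 =
  ∑ j ∈ Finset.range (l.length + 1), (-1 : ℂ) ^ j • insg n ι B.1 (Th n ι) true l j +
    ∑ i ∈ Finset.range l.length, ((l.getD i 0 : ℤ) : ℂ) •
      insg n ι B.1 (if Even i then mulo n (bq n) else cono n ι (bq n)) true l i

variable {B}

theorem step_false {l : List ℤ} (a : ℤ) (h : PTr n ι B l) : PFl n ι B (a :: l) := by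
  unfold PTr at h
  unfold PFl
  rw [vecg_false, h, List.length_cons, Finset.sum_range_succ' _ (l.length + 1),
    Finset.sum_range_succ' (fun i => (((a :: l).getD i 0 : ℤ) : ℂ) •
      insg n ι B.1 (if Even i then cono n ι (bq n) else mulo n (bq n)) false (a :: l) i) l.length,
    map_add, map_sum, map_sum, vecg_fst n ι B (a :: l) false]
  simp only [map_smul, insg_false, insg_zero, pow_zero, one_smul, List.getD_cons_succ,
    List.getD_cons_zero, ite_succ, pow_succ, mul_neg, mul_one, neg_smul,
    Finset.sum_neg_distrib, Even.zero, if_true]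
  abel

theorem step_true {l : List ℤ} (a : ℤ) (h : PFl n ι B l) : PTr n ι B (a :: l) := by
  unfold PFl at h
  unfold PTr
  rw [vecg_true, h, List.length_cons, Finset.sum_range_succ' _ (l.length + 1),
    Finset.sum_range_succ' (fun i => (((a :: l).getD i 0 : ℤ) : ℂ) •
      insg n ι B.1 (if Even i then mulo n (bq n) else cono n ι (bq n)) true (a :: l) i) l.length,
    map_add, map_neg, map_sum, map_sum, vecg_fst n ι B (a :: l) true]
  simp only [map_smul, insg_true, insg_zero, pow_zero, one_smul, List.getD_cons_succ,
    List.getD_cons_zero, ite_succ, pow_succ, mul_neg, mul_one, neg_smul,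
    Finset.sum_neg_distrib, Even.zero, if_true]
  abel

theorem nil_false (h : B.2 = -(Th n ι B.1)) : PFl n ι B [] := by
  unfold PFl
  simp only [List.length_nil, zero_add, Finset.range_one, Finset.sum_singleton, pow_zero,
    one_smul, Finset.range_zero, Finset.sum_empty, add_zero, insg_zero]
  exact h

theorem nil_true (h : B.2 = 0) : PTr n ι B [] := by
  unfold PTr
  simp only [List.length_nil, zero_add, Finset.range_one, Finset.sum_singleton, pow_zero,
    one_smul, Finset.range_zero, Finset.sum_empty, add_zero, insg_zero]
  change B.2 + Th n ι B.1 = Th n ι B.1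
  rw [h, zero_add]

theorem main1 (h : B.2 = -(Th n ι B.1)) (l : List ℤ) :
    (Even l.length → PFl n ι B l) ∧ (Odd l.length → PTr n ι B l) := by
  induction l with
  | nil => exact ⟨fun _ => nil_false n ι h, fun h => by simp at h⟩
  | cons a l ih =>
    constructor
    · intro h
      rw [List.length_cons, Nat.even_add_one] at h
      exact step_false n ι a (ih.2 (Nat.not_even_iff_odd.1 h))
    · intro h
      rw [List.length_cons, Nat.odd_add_one] at h
      exact step_true n ι a (ih.1 (Nat.not_odd_iff_even.1 h))

theorem main2 (h : B.2 = 0) (l : List ℤ) :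
    (Odd l.length → PFl n ι B l) ∧ (Even l.length → PTr n ι B l) := by
  induction l with
  | nil => exact ⟨fun h => by simp at h, fun _ => nil_true n ι h⟩
  | cons a l ih =>
    constructor
    · intro h
      rw [List.length_cons, Nat.odd_add_one] at h
      exact step_false n ι a (ih.2 (Nat.not_odd_iff_even.1 h))
    · intro h
      rw [List.length_cons, Nat.even_add_one] at h
      exact step_true n ι a (ih.1 (Nat.not_even_iff_odd.1 h))

end DERG

/-- **Module DERG.** -/
theorem derg : DERG_Stmt := by
  intro n _ ι t ht
  have key : DERG.PFl n ι (bs n ι t.1) t.2.reverse := by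
    cases hb : t.1 with
    | false =>
      refine (DERG.main1 n ι (B := bs n ι false) rfl _).1 ?_
      rw [List.length_reverse]
      rw [hb] at ht
      exact Nat.not_odd_iff_even.1 fun h => by simpa using ht.2 h
    | true =>
      refine (DERG.main2 n ι (B := bs n ι true) rfl _).1 ?_
      rw [List.length_reverse]
      exact ht.1 hb
  unfold DERG.PFl at key
  rw [List.length_reverse] at key
  exact key

end Pool.Agent.MTA
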