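import Pool.Agent.MTA.Stmts0

/-!
Montesinos knots, analysis part: FOUT, the sum of the characters over the odd residues.
-/

open Filter Topology
open scoped BigOperators Real

namespace Pool.Agent.MTA

open Pool.Agent.TB Pool.Agent.MTR

namespace FOUT

theorem half_ne {s : ℕ} (hs : 1 ≤ s) : (2 ^ (s - 1) : ZMod (2 ^ s)) ≠ 0 := by
  intro h
  have h1 : ((2 ^ (s - 1) : ℕ) : ZMod (2 ^ s)) = 0 := by
    rw [Nat.cast_pow, Nat.cast_ofNat]
    exact h
  rw [ZMod.natCast_eq_zero_iff] at h1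
  have h2 := Nat.le_of_dvd (by positivity) h1
  have h3 : 2 ^ (s - 1) < 2 ^ s := Nat.pow_lt_pow_right (by norm_num) (by omega)
  omega

theorem half_add {s : ℕ} (hs : 1 ≤ s) :
    (2 ^ (s - 1) : ZMod (2 ^ s)) + 2 ^ (s - 1) = 0 := by
  have h1 : (2 ^ (s - 1) : ZMod (2 ^ s)) + 2 ^ (s - 1) = ((2 ^ s : ℕ) : ZMod (2 ^ s)) := by
    obtain ⟨t, rfl⟩ : ∃ t, s = t + 1 := ⟨s - 1, by omega⟩
    rw [Nat.add_sub_cancel]
    push_cast
    ring
  rw [h1, ZMod.natCast_self]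

theorem char_half {s : ℕ} (hs : 1 ≤ s) :
    (ZMod.stdAddChar (2 ^ (s - 1) : ZMod (2 ^ s)) : ℂ) = -1 := by
  have h1 : (ZMod.stdAddChar (2 ^ (s - 1) : ZMod (2 ^ s)) : ℂ) ^ 2 = 1 := by
    rw [pow_two, ← AddChar.map_add_eq_mul, half_add hs, AddChar.map_zero_eq_one]
  have h2 : (ZMod.stdAddChar (2 ^ (s - 1) : ZMod (2 ^ s)) : ℂ) ≠ 1 := by
    intro h
    apply half_ne hs
    apply ZMod.injective_stdAddChar
    rw [h, AddChar.map_zero_eq_one]
  have h3 : ((ZMod.stdAddChar (2 ^ (s - 1) : ZMod (2 ^ s)) : ℂ) - 1) *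
      ((ZMod.stdAddChar (2 ^ (s - 1) : ZMod (2 ^ s)) : ℂ) + 1) = 0 := by
    linear_combination h1
  rcases mul_eq_zero.1 h3 with h | h
  · exact (h2 (sub_eq_zero.1 h)).elim
  · exact eq_neg_of_add_eq_zero_left h

theorem char_mul {s : ℕ} (hs : 1 ≤ s) (τ : ZMod (2 ^ s)) :
    (ZMod.stdAddChar (τ * 2 ^ (s - 1)) : ℂ) = (-1) ^ τ.val := by
  have h1 : τ * 2 ^ (s - 1) = τ.val • (2 ^ (s - 1) : ZMod (2 ^ s)) := by
    rw [nsmul_eq_mul, ZMod.natCast_zmod_val]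
  rw [h1, AddChar.map_nsmul_eq_pow, char_half hs]

theorem isUnit_iff {s : ℕ} (hs : 1 ≤ s) (τ : ZMod (2 ^ s)) : IsUnit τ ↔ Odd τ.val := by
  have h1 : IsUnit ((τ.val : ℕ) : ZMod (2 ^ s)) ↔ τ.val.Coprime (2 ^ s) :=
    ZMod.isUnit_iff_coprime τ.val (2 ^ s)
  rw [ZMod.natCast_zmod_val] at h1
  rw [h1, Nat.coprime_pow_right_iff (by omega), Nat.coprime_two_right]

theorem sum_all (n : ℕ) [NeZero n] (w : ZMod n) :
    ∑ τ : ZMod n, (ZMod.stdAddChar (τ * w) : ℂ) = if w = 0 then (n : ℂ) else 0 := by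
  have h := AddChar.sum_mulShift w (ZMod.isPrimitive_stdAddChar n)
  rw [ZMod.card] at h
  rw [h]
  split_ifs <;> simp

theorem sum_units {s : ℕ} (hs : 1 ≤ s) (w : ZMod (2 ^ s)) :
    ∑ τ ∈ Finset.univ.filter (fun τ : ZMod (2 ^ s) => IsUnit τ),
      (ZMod.stdAddChar (τ * w) : ℂ) = (2 ^ s / 2 : ℂ) * ((if w = 0 then 1 else 0) -
        if w + 2 ^ (s - 1) = 0 then 1 else 0) := by
  have h1 : ∀ τ : ZMod (2 ^ s), (if IsUnit τ then (ZMod.stdAddChar (τ * w) : ℂ) else 0) =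
      (1 / 2 : ℂ) * (ZMod.stdAddChar (τ * w) - ZMod.stdAddChar (τ * (w + 2 ^ (s - 1)))) := by
    intro τ
    rw [mul_add, AddChar.map_add_eq_mul, char_mul hs]
    by_cases h : Odd τ.val
    · rw [if_pos ((isUnit_iff hs τ).2 h), h.neg_one_pow]
      ring
    · rw [if_neg (fun hh => h ((isUnit_iff hs τ).1 hh)), (Nat.not_odd_iff_even.1 h).neg_one_pow]
      ring
  rw [Finset.sum_filter, Finset.sum_congr rfl fun τ _ => h1 τ, ← Finset.mul_sum,
    Finset.sum_sub_distrib, sum_all, sum_all]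
  push_cast
  split_ifs <;> ring

end FOUT

/-- FOUT. -/
theorem fout : FOUT_Stmt := by
  intro s hs M hM
  have hs1 : 1 ≤ s := by omega
  have key : ∀ v : ZMod (2 ^ s), ∑ τ ∈ Finset.univ.filter (fun τ : ZMod (2 ^ s) => IsUnit τ),
      (ZMod.stdAddChar (τ * (v - (M : ZMod (2 ^ s)))) : ℂ) = (2 ^ s / 2 : ℂ) * chi s M v := by
    intro v
    rw [FOUT.sum_units hs1, chi]
    have h1 : v - (M : ZMod (2 ^ s)) = 0 ↔ v = (M : ZMod (2 ^ s)) := sub_eq_zero
    have h2 : v - (M : ZMod (2 ^ s)) + 2 ^ (s - 1) = 0 ↔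
        v = (M : ZMod (2 ^ s)) + 2 ^ (s - 1) := by
      have h3 := FOUT.half_add hs1
      constructor
      · intro h
        linear_combination h - h3
      · intro h
        linear_combination h + h3
    simp only [h1, h2]
  refine ⟨key, ?_⟩
  have h1 := key 0
  have h2 : chi s M 0 = 0 := by
    have h3 : ∀ k : ℤ, Even k → ((M + k : ℤ) : ZMod (2 ^ s)) ≠ 0 := by
      intro k hk h
      rw [ZMod.intCast_zmod_eq_zero_iff_dvd] at h
      have h4 : (2 : ℤ) ∣ M + k := by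
        refine dvd_trans ?_ h
        push_cast
        exact dvd_pow_self 2 (by omega)
      have h5 : Odd (M + k) := hM.add_even hk
      exact (Int.not_even_iff_odd.2 h5) (even_iff_two_dvd.2 h4)
    have h4 : (0 : ZMod (2 ^ s)) ≠ (M : ZMod (2 ^ s)) := by
      have := h3 0 Even.zero
      rw [add_zero] at this
      exact this.symm
    have h5 : (0 : ZMod (2 ^ s)) ≠ (M : ZMod (2 ^ s)) + 2 ^ (s - 1) := by
      have := h3 (2 ^ (s - 1)) ((even_two).pow_of_ne_zero (by omega))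
      push_cast at this
      exact this.symm
    rw [chi, if_neg h4, if_neg h5, sub_zero]
  rw [h2, mul_zero] at h1
  rw [← h1]
  refine Finset.sum_congr rfl fun τ _ => ?_
  congr 1
  ring

end Pool.Agent.MTA
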