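import Pool.Agent.MTA.Stmts0
import Pool.Agent.MTR.Stmts

/-!
FTO: from the logarithmic derivatives to the limit functions.
-/

open Filter Topology
open scoped BigOperators Real

namespace Pool.Agent.MTA

open Pool.Agent.TB Pool.Agent.MTR

namespace FTO

section

variable {n : ℕ}

/-- linear functionals of functions on `ℤ/n` -/
def Lin (T : (ZMod n → ℂ) → ℂ) : Prop :=
  ∀ (S : Finset (ZMod n)) (a : ZMod n → ℂ) (χ : ZMod n → ZMod n → ℂ),
    T (fun v => ∑ i ∈ S, a i * χ i v) = ∑ i ∈ S, a i * T (χ i)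

theorem Lin.eval (v0 : ZMod n) : Lin (fun χ : ZMod n → ℂ => χ v0) := fun _ _ _ => rfl

theorem Lin.cmul {T : (ZMod n → ℂ) → ℂ} (h : Lin T) (c : ℂ) : Lin (fun χ => c * T χ) := by
  intro S a χ
  show c * T _ = ∑ i ∈ S, a i * (c * T (χ i))
  rw [h S a χ, Finset.mul_sum]
  exact Finset.sum_congr rfl fun i _ => by ring

theorem Lin.add {T T' : (ZMod n → ℂ) → ℂ} (h : Lin T) (h' : Lin T') :
    Lin (fun χ => T χ + T' χ) := by
  intro S a χ
  show T _ + T' _ = ∑ i ∈ S, a i * (T (χ i) + T' (χ i))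
  rw [h S a χ, h' S a χ, ← Finset.sum_add_distrib]
  exact Finset.sum_congr rfl fun i _ => by ring

theorem Lin.sub {T T' : (ZMod n → ℂ) → ℂ} (h : Lin T) (h' : Lin T') :
    Lin (fun χ => T χ - T' χ) := by
  intro S a χ
  show T _ - T' _ = ∑ i ∈ S, a i * (T (χ i) - T' (χ i))
  rw [h S a χ, h' S a χ, ← Finset.sum_sub_distrib]
  exact Finset.sum_congr rfl fun i _ => by ring

theorem Lin.zero : Lin (fun _ : ZMod n → ℂ => (0 : ℂ)) := by
  intro S a χ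
  simp

theorem Lin.sum {J : Type} (K : Finset J) {T : J → (ZMod n → ℂ) → ℂ} (h : ∀ j, Lin (T j)) :
    Lin (fun χ => ∑ j ∈ K, T j χ) := by
  intro S a χ
  show ∑ j ∈ K, T j _ = ∑ i ∈ S, a i * ∑ j ∈ K, T j (χ i)
  simp only [fun j => h j S a χ, Finset.mul_sum]
  exact Finset.sum_comm

theorem Lin.list {J : Type} (l : List J) {T : J → (ZMod n → ℂ) → ℂ} (h : ∀ j, Lin (T j)) :
    Lin (fun χ => (l.map fun j => T j χ).sum) := by
  induction l with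
  | nil => exact Lin.zero
  | cons j l ih =>
    simp only [List.map_cons, List.sum_cons]
    exact (h j).add ih

theorem lin_CS [NeZero n] (N : ℤ) : Lin (fun χ : ZMod n → ℂ => CS n N χ) :=
  Lin.sum _ fun _ => (Lin.eval _).cmul _

theorem lin_CC [NeZero n] (l V g h : ℤ × ℤ) : Lin (fun χ : ZMod n → ℂ => CC n l V g h χ) :=
  Lin.sum _ fun _ => (Lin.eval _).cmul _

theorem lin_SG [NeZero n] (l : ℤ × ℤ) (x : List ℤ) : Lin (fun χ : ZMod n → ℂ => SG n l x χ) :=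
  ((Lin.sum _ fun _ => (lin_CS _).cmul _).cmul _).add
    ((Lin.sum _ fun _ => (lin_CC _ _ _ _).cmul _).cmul _)

theorem lin_TG [NeZero n] (e : ℤ) (ws : List (List ℤ)) : Lin (fun χ : ZMod n → ℂ => TG n e ws χ) :=
  ((Lin.list ws fun x => lin_SG (lv e (ws.erase x)) x).sub ((lin_SG _ _).cmul _)).add
    ((lin_CS _).cmul _)

theorem Lin.const_mul {T : (ZMod n → ℂ) → ℂ} (h : Lin T) (c : ℂ) (χ : ZMod n → ℂ) :
    T (fun v => c * χ v) = c * T χ := by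
  have h1 := h {0} (fun _ => c) (fun _ => χ)
  simpa using h1

end

theorem unit_of_odd {D : ℤ} (hD : Odd D) (s : ℕ) : IsUnit (D : ZMod (2 ^ s)) := by
  have h1 : IsCoprime D ((2 ^ s : ℕ) : ℤ) := by
    push_cast
    exact (Int.isCoprime_iff_gcd_eq_one.mpr (by
      obtain ⟨k, rfl⟩ := hD
      have h2 : IsCoprime (2 * k + 1) (2 : ℤ) := ⟨1, -k, by ring⟩
      exact Int.isCoprime_iff_gcd_eq_one.mp h2)).pow_right
  obtain ⟨a, b, hab⟩ := h1
  have h2 : (a : ZMod (2 ^ s)) * (D : ZMod (2 ^ s)) = 1 := by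
    have h3 := congrArg (fun z : ℤ => (z : ZMod (2 ^ s))) hab
    rw [Int.cast_add, Int.cast_mul, Int.cast_mul, Int.cast_natCast, ZMod.natCast_self, mul_zero,
      add_zero, Int.cast_one] at h3
    exact h3
  exact IsUnit.of_mul_eq_one_right _ h2

/-- the weighted sum of the functionals -/
theorem transform (hf : FOUT_Stmt) {s : ℕ} (hs : 2 ≤ s) {M : ℤ} (hM : Odd M) (c : ℤ)
    {T : (ZMod (2 ^ s) → ℂ) → ℂ} (hT : Lin T) :
    ∑ τ ∈ Finset.univ.filter (fun τ : ZMod (2 ^ s) => IsUnit τ),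
      (ZMod.stdAddChar (-(τ * (M : ZMod (2 ^ s)))) : ℂ) *
        T (fun v => ZMod.stdAddChar (τ * (c : ZMod (2 ^ s)) * v)) =
      (2 ^ s / 2 : ℂ) * T (fun v => chi s M ((c : ZMod (2 ^ s)) * v)) := by
  rw [← hT.const_mul, ← hT]
  congr 1
  funext v
  rw [← (hf s hs M hM).1 ((c : ZMod (2 ^ s)) * v)]
  refine Finset.sum_congr rfl fun τ _ => ?_
  rw [← AddChar.map_add_eq_mul]
  congr 1
  ring

theorem main_eq (hf : FOUT_Stmt) {s : ℕ} (hs : 2 ≤ s) {M : ℤ} (hM : Odd M) (e : ℤ)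
    (ws : List (List ℤ)) (e' : ℤ) (ws' : List (List ℤ)) (hD' : Odd (DD e' ws'))
    {C : ℂ} (hC : ∀ κ κ' : ZMod (2 ^ s), IsUnit κ →
      κ * DD e ws = κ' * DD e' ws' → LG (2 ^ s) e ws κ - LG (2 ^ s) e' ws' κ' = C) :
    TG (2 ^ s) e ws (fun v => chi s M ((DD e' ws' : ZMod (2 ^ s)) * v)) =
      TG (2 ^ s) e' ws' (fun v => chi s M ((DD e ws : ZMod (2 ^ s)) * v)) := by
  have h1 := transform hf hs hM (DD e' ws') (lin_TG e ws)
  have h2 := transform hf hs hM (DD e ws) (lin_TG e' ws')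
  have h0 := (hf s hs M hM).2
  have hne : (2 ^ s / 2 : ℂ) ≠ 0 := by
    simp
  refine mul_left_cancel₀ hne ?_
  rw [← h1, ← h2, ← sub_eq_zero, ← Finset.sum_sub_distrib]
  set K : ℂ := C - (-(((2 ^ s : ℕ) : ℂ) ^ 2 - 1) / 6 *
      ((e : ℂ) / 2 + (ws.map fun x => ((x.sum : ℤ) : ℂ)).sum)) +
    (-(((2 ^ s : ℕ) : ℂ) ^ 2 - 1) / 6 *
      ((e' : ℂ) / 2 + (ws'.map fun x => ((x.sum : ℤ) : ℂ)).sum)) with hK
  have h3 : ∀ τ ∈ Finset.univ.filter (fun τ : ZMod (2 ^ s) => IsUnit τ),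
      (ZMod.stdAddChar (-(τ * (M : ZMod (2 ^ s)))) : ℂ) *
          TG (2 ^ s) e ws (fun v => ZMod.stdAddChar (τ * (DD e' ws' : ZMod (2 ^ s)) * v)) -
        (ZMod.stdAddChar (-(τ * (M : ZMod (2 ^ s)))) : ℂ) *
          TG (2 ^ s) e' ws' (fun v => ZMod.stdAddChar (τ * (DD e ws : ZMod (2 ^ s)) * v)) =
      (ZMod.stdAddChar (-(τ * (M : ZMod (2 ^ s)))) : ℂ) * K := by
    intro τ hτ
    rw [Finset.mem_filter] at hτ
    have h4 := hC (τ * (DD e' ws' : ZMod (2 ^ s))) (τ * (DD e ws : ZMod (2 ^ s)))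
      (hτ.2.mul (unit_of_odd hD' s)) (by ring)
    unfold LG at h4
    rw [hK, ← h4]
    ring
  rw [Finset.sum_congr rfl h3, ← Finset.sum_mul, h0, zero_mul]

end FTO

open FTO in
/-- FTO: from the logarithmic derivatives to the limit functions. -/
theorem fto (had : ADV_Stmt) (hf : FOUT_Stmt) (hl : LIMT_Stmt) : FTO_Stmt := by
  intro e ws e' ws' hw hw' hE
  obtain ⟨s0, hE⟩ := hE
  have hD : Odd (DD e ws) := (had.2.2.2.2 e ws hw).1
  have hD' : Odd (DD e' ws') := (had.2.2.2.2 e' ws' hw').1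
  obtain ⟨L1, hL1⟩ := hl e ws hw (DD e' ws') hD'
  obtain ⟨L2, hL2⟩ := hl e' ws' hw' (DD e ws) hD
  refine ⟨max L1 L2, ?_⟩
  rintro M hM ⟨q, hq, hqL, hqM, hqM2⟩
  have t1 := hL1 M hM ⟨q, hq, lt_of_le_of_lt (le_max_left _ _) hqL, hqM, hqM2⟩
  have t2 := hL2 M hM ⟨q, hq, lt_of_le_of_lt (le_max_right _ _) hqL, hqM, hqM2⟩
  have t3 : Tendsto (fun s : ℕ => 4 * ((π : ℂ) / 2 ^ s) ^ 2 *
      TG (2 ^ s) e ws (fun v => chi s M ((DD e' ws' : ZMod (2 ^ s)) * v))) atTop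
      (𝓝 ((Phi e' ws' (DD e ws) M : ℚ) : ℂ)) := by
    refine t2.congr' ?_
    filter_upwards [Filter.eventually_ge_atTop (max s0 2)] with s hs
    obtain ⟨C, hC⟩ := hE s ((le_max_left _ _).trans hs)
    rw [main_eq hf ((le_max_right _ _).trans hs) hM e ws e' ws' hD' hC]
  have t4 := tendsto_nhds_unique t1 t3
  exact_mod_cast t4

end Pool.Agent.MTA
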