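import Pool.Agent.MTA.Stmts
import Pool.Agent.TB.Expt

/-!
Montesinos knots, analysis part: Weyl operators move to the left (module INSG).
See PAPER.md in this folder, section 2.
-/

open scoped BigOperators Real

namespace Pool.Agent.MTA

open Pool.Agent.TB Pool.Agent.MTR Pool.Agent.MT

namespace INSG

section

variable (n : ℕ) [NeZero n] (ι : ℤ)

theorem insg_eq (he : EGO_Stmt) (hι : IsCoprime ι (2 * n : ℤ)) (f : Fn n) (j : ℕ) :
    ∀ (β : Bool) (l : List ℤ), j ≤ l.length → ∀ p : ℤ × ℤ,
      insg n ι f (Tt n ι p.1 p.2) β l j =
        Tt n ι (EXPT.mv β l j p).1 (EXPT.mv β l j p).2 (vecg n ι (f, 0) β l).1 := by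
  obtain ⟨-, hC, hD, -, -, -, -⟩ := he n ι hι
  induction j with
  | zero =>
      intro β l _ p
      rw [EXPT.mv_zero]
      cases β <;> cases l <;> rfl
  | succ j ih =>
      intro β l hl p
      cases l with
      | nil => simp at hl
      | cons x l =>
          have hl' : j ≤ l.length := by simpa using hl
          cases β with
          | false =>
              have h1 : insg n ι f (Tt n ι p.1 p.2) false (x :: l) (j + 1) =
                Dc n ι x (insg n ι f (Tt n ι p.1 p.2) true l j) := rfl
              have h2 : (vecg n ι (f, 0) false (x :: l)).1 =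
                Dc n ι x (vecg n ι (f, 0) true l).1 := rfl
              have h3 : EXPT.mv false (x :: l) (j + 1) p =
                EXPT.letter false x (EXPT.mv true l j p) := rfl
              rw [h1, h2, h3, ih true l hl' p]
              have h4 := congrArg (fun T : Module.End ℂ (Fn n) => T (vecg n ι (f, 0) true l).1)
                (hD x (EXPT.mv true l j p).1 (EXPT.mv true l j p).2)
              simpa [EXPT.letter, Module.End.mul_apply] using h4
          | true =>
              have h1 : insg n ι f (Tt n ι p.1 p.2) true (x :: l) (j + 1) =
                Cc n ι x (insg n ι f (Tt n ι p.1 p.2) false l j) := rfl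
              have h2 : (vecg n ι (f, 0) true (x :: l)).1 =
                Cc n ι x (vecg n ι (f, 0) false l).1 := rfl
              have h3 : EXPT.mv true (x :: l) (j + 1) p =
                EXPT.letter true x (EXPT.mv false l j p) := rfl
              rw [h1, h2, h3, ih false l hl' p]
              have h4 := congrArg (fun T : Module.End ℂ (Fn n) => T (vecg n ι (f, 0) false l).1)
                (hC x (EXPT.mv false l j p).1 (EXPT.mv false l j p).2)
              simpa [EXPT.letter, Module.End.mul_apply] using h4

end

end INSG

/-- INSG: Weyl operators move to the left. -/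
theorem insg_thm (he : EGO_Stmt) : INSG_Stmt := by
  intro n _ ι hι f x j hj a b
  have h1 := INSG.insg_eq n ι he hι f j false x hj (a, b)
  rw [h1, EXPT.mv_false]

end Pool.Agent.MTA
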