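import Pool.Agent.MTA.Stmts
import Pool.Agent.TB.Lam

/-!
Montesinos knots, analysis part: module LAMB (the logarithmic derivative of the half twists).
See PAPER.md in this folder, section 3.
-/

open scoped BigOperators Real

namespace Pool.Agent.MTA

open Pool.Agent.LibH11.Sliced Pool.Agent.TB Pool.Agent.MTR Pool.Agent.MT

namespace LAMB

section

variable (n : ℕ) [NeZero n]

/-- the pairing as a linear functional of the second argument -/
noncomputable def prL (f : Fn n) : Fn n →ₗ[ℂ] ℂ where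
  toFun g := pr n f g
  map_add' g h := by
    rw [pr, pr, pr, ← Finset.sum_add_distrib]
    refine Finset.sum_congr rfl fun w _ => ?_
    rw [Pi.add_apply, mul_add]
  map_smul' c g := by
    rw [pr, pr, RingHom.id_apply, smul_eq_mul, Finset.mul_sum]
    refine Finset.sum_congr rfl fun w _ => ?_
    rw [Pi.smul_apply, smul_eq_mul]
    ring

theorem prL_apply (f g : Fn n) : prL n f g = pr n f g := rfl

end

end LAMB

open LAMB TB.LAM in
/-- LAMB: the logarithmic derivative of the half twists. -/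
theorem lamb (hz : ZT_Stmt) (hf : FOU_Stmt) (he : EGO_Stmt) (hp : PRS_Stmt) : LAMB_Stmt := by
  intro n _ ι hn hι l Φ hΦ κ hκ
  obtain ⟨hz0, hza, -, -, hzs, -, hz2, -⟩ := hz n ι hι
  obtain ⟨-, hf2, -⟩ := hf n hn
  obtain ⟨-, -, -, -, -, -, h01⟩ := he n ι hι
  obtain ⟨-, hp2⟩ := hp n ι hι
  obtain ⟨ι', m, hm⟩ := hι
  have hι1 : (ι : ZMod n) * (ι' : ZMod n) = 1 := by
    have := congrArg (fun z : ℤ => (z : ZMod n)) hm
    push_cast at this
    rw [ZMod.natCast_self, mul_zero, mul_zero, add_zero] at this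
    rw [mul_comm]
    exact this
  obtain ⟨δ, hδ⟩ : ∃ δ : ℤ, (δ : ZMod n) = κ * ι := ⟨((κ * ι : ZMod n)).val, by
    rw [Int.cast_natCast, ZMod.natCast_zmod_val]⟩
  have hdet : det2 l (0, 1) = l.1 := by simp [det2]
  have hδd : ((δ : ZMod n) * ((det2 l (0, 1) : ℤ) : ZMod n)) = 1 := by
    rw [hdet, hδ]
    exact hκ
  have hS : Stab n ι (0, 1) 1 := by
    intro b
    have h1 : b * ((0 : ℤ), (1 : ℤ)).1 = 0 := by simp
    have h2 : b * ((0 : ℤ), (1 : ℤ)).2 = b := by simp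
    rw [h1, h2]
    exact h01 b
  have hE := hp2 l (0, 1) Φ 1 hΦ hS δ hδd
  -- the characters
  have h4 : ∀ ρ : ℤ, prL n Φ (gr n ρ) =
      pr n Φ 1 * ZMod.stdAddChar (κ * ((ρ : ZMod n) ^ 2 * ((-l.2 : ℤ) : ZMod n))) := by
    intro ρ
    have h5 : gr n ρ = Tt n ι (ι' * ρ) 0 1 := by
      rw [← mulo_gr hz2 hι1]
      funext u
      show gr n ρ u = gr n ρ u * 1
      rw [mul_one]
    rw [h5, prL_apply, hE (ι' * ρ, 0)]
    congr 1
    have h6 : ((2 * δ * Nl l (0, 1) (ι' * ρ, 0) : ℤ) : ZMod (2 * n)) =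
        2 * ((δ * (-l.2 * (ι' * ρ) ^ 2) : ℤ) : ZMod (2 * n)) := by
      have : (2 * δ * Nl l (0, 1) (ι' * ρ, 0) : ℤ) = 2 * (δ * (-l.2 * (ι' * ρ) ^ 2)) := by
        simp only [Nl, det2]; ring
      rw [this]; push_cast; ring
    rw [h6, hz2]
    congr 1
    push_cast
    rw [hδ]
    linear_combination (-κ * l.2 * ρ ^ 2 * ((ι : ZMod n) * ι' + 1)) * hι1
  have hg : bq n = (-((n : ℂ) ^ 2 - 1) / 6) • gr n 0 + (1 / 2 : ℂ) •
      ∑ ρ ∈ Finset.Ico 1 n, ((1 / Real.sin (π * ρ / n) ^ 2 : ℝ) : ℂ) • gr n (ρ : ℤ) := by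
    funext u
    rw [hf2 u]
    simp only [Pi.add_apply, Pi.smul_apply, Finset.sum_apply, smul_eq_mul, gr]
    rw [Int.cast_zero, zero_mul, AddChar.map_zero_eq_one, mul_one]
    simp only [Int.cast_natCast]
  rw [← prL_apply, hg]
  simp only [map_add, map_smul, map_sum, h4, smul_eq_mul]
  rw [Int.cast_zero, zero_pow two_ne_zero, zero_mul, mul_zero, AddChar.map_zero_eq_one]
  simp only [Int.cast_natCast, CS]
  rw [mul_add, Finset.mul_sum, Finset.mul_sum, Finset.mul_sum]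
  congr 1
  · ring
  · refine Finset.sum_congr rfl fun ρ _ => ?_
    ring

end Pool.Agent.MTA
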