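import Pool.Agent.MTA.Stmts
import Pool.Agent.TB.Lam

/-!
LAMG: the logarithmic derivative of one tangle (see PAPER.md, section 3).
-/

open Polynomial
open scoped BigOperators Real

namespace Pool.Agent.MTA.LAMG

open Pool.Agent.TB Pool.Agent.MTR Pool.Agent.MT Pool.Agent.MTA Pool.Agent.TB.LAM

section Ins

variable (n : ℕ) [NeZero n] (ι : ℤ)

theorem insg_add (f : Fn n) (O P : Module.End ℂ (Fn n)) (l : List ℤ) : ∀ (b : Bool) (j : ℕ),
    insg n ι f (O + P) b l j = insg n ι f O b l j + insg n ι f P b l j := by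
  induction l with
  | nil =>
    intro b j
    cases j with
    | zero => simp [insg]
    | succ j => simp [insg]
  | cons a l ih =>
    intro b j
    cases j with
    | zero => simp [insg]
    | succ j => cases b <;> simp [insg, ih]

theorem insg_smul (f : Fn n) (c : ℂ) (O : Module.End ℂ (Fn n)) (l : List ℤ) :
    ∀ (b : Bool) (j : ℕ), insg n ι f (c • O) b l j = c • insg n ι f O b l j := by
  induction l with
  | nil =>
    intro b j
    cases j with
    | zero => simp [insg]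
    | succ j => simp [insg]
  | cons a l ih =>
    intro b j
    cases j with
    | zero => simp [insg]
    | succ j => cases b <;> simp [insg, ih]

/-- the pairing with a fixed function -/
noncomputable def prL (Φ : Fn n) : Fn n →ₗ[ℂ] ℂ where
  toFun g := pr n Φ g
  map_add' g h := by
    simp only [pr, Pi.add_apply, mul_add, Finset.sum_add_distrib]
  map_smul' c g := by
    simp only [pr, Pi.smul_apply, smul_eq_mul, RingHom.id_apply, Finset.mul_sum]
    refine Finset.sum_congr rfl fun w _ => ?_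
    ring

theorem prL_apply (Φ g : Fn n) : prL n Φ g = pr n Φ g := rfl

/-- the pairing with the insertion as a linear functional of the operator -/
noncomputable def insP (Φ f : Fn n) (b : Bool) (l : List ℤ) (j : ℕ) :
    Module.End ℂ (Fn n) →ₗ[ℂ] ℂ where
  toFun O := pr n Φ (insg n ι f O b l j)
  map_add' O P := by rw [insg_add, ← prL_apply, map_add]; rfl
  map_smul' c O := by rw [insg_smul, ← prL_apply, map_smul]; rfl

theorem insP_apply (Φ f : Fn n) (b : Bool) (l : List ℤ) (j : ℕ) (O : Module.End ℂ (Fn n)) :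
    insP n ι Φ f b l j O = pr n Φ (insg n ι f O b l j) := rfl

theorem vecg_fst (B : Fn n × Fn n) (l : List ℤ) : ∀ b : Bool,
    (vecg n ι B b l).1 = (vecg n ι (B.1, 0) b l).1 := by
  induction l with
  | nil => intro b; cases b <;> rfl
  | cons a l ih =>
    intro b
    cases b
    · show Dc n ι a (vecg n ι B true l).1 = Dc n ι a (vecg n ι (B.1, 0) true l).1
      rw [ih]
    · show Cc n ι a (vecg n ι B false l).1 = Cc n ι a (vecg n ι (B.1, 0) false l).1
      rw [ih]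

end Ins

section Sums

variable {n : ℕ} [NeZero n]

/-- the change of variables which diagonalises `N` -/
noncomputable def diaG (l V : ZMod n × ZMod n) (d : ZMod n)
    (h : d * (l.1 * V.2 - l.2 * V.1) = 1) :
    ZMod n × ZMod n ≃ ZMod n × ZMod n where
  toFun p := (p.1 * l.1 + p.2 * V.1, p.1 * l.2 + p.2 * V.2)
  invFun W := (d * (W.1 * V.2 - W.2 * V.1), d * (W.2 * l.1 - W.1 * l.2))
  left_inv p := by
    ext
    · simp only
      linear_combination p.1 * h
    · simp only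
      linear_combination p.2 * h
  right_inv W := by
    ext
    · simp only
      linear_combination W.1 * h
    · simp only
      linear_combination W.2 * h

theorem gaussG (hf3 : ∀ (u : ZMod n) (a b : ZMod n), IsUnit u → ∀ u' : ZMod n, u * u' = 1 →
      ∑ α : ZMod n, ∑ β : ZMod n, (ZMod.stdAddChar (u * α * β + a * α + b * β) : ℂ) =
        n * ZMod.stdAddChar (-(u' * a * b))) (l V : ℤ × ℤ) (κ ι : ZMod n)
    (hκ : κ * ι * ((det2 l V : ℤ) : ZMod n) = 1) (R : ZMod n × ZMod n) :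
    ∑ W : ZMod n × ZMod n, (ZMod.stdAddChar (R.1 * W.2 - R.2 * W.1 +
      ι * (κ * ι) * Nlm n l V W) : ℂ) = n * ZMod.stdAddChar (κ * Nlm n l V R) := by
  have hD : ((det2 l V : ℤ) : ZMod n) = (l.1 : ZMod n) * V.2 - (l.2 : ZMod n) * V.1 := by
    simp [det2]
  rw [hD] at hκ
  have hu : (ι * ((l.1 : ZMod n) * V.2 - (l.2 : ZMod n) * V.1)) * κ = 1 := by
    linear_combination hκ
  rw [← (diaG ((l.1 : ZMod n), (l.2 : ZMod n)) ((V.1 : ZMod n), (V.2 : ZMod n)) (κ * ι)
    hκ).sum_comp, Fintype.sum_prod_type]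
  have h1 := hf3 (ι * ((l.1 : ZMod n) * V.2 - (l.2 : ZMod n) * V.1))
    (R.1 * (l.2 : ZMod n) - R.2 * (l.1 : ZMod n)) (R.1 * (V.2 : ZMod n) - R.2 * (V.1 : ZMod n))
    (IsUnit.of_mul_eq_one _ hu) κ hu
  have h2 : ∀ α β : ZMod n, (ZMod.stdAddChar (R.1 * ((diaG ((l.1 : ZMod n), (l.2 : ZMod n))
        ((V.1 : ZMod n), (V.2 : ZMod n)) (κ * ι) hκ) (α, β)).2 -
      R.2 * ((diaG ((l.1 : ZMod n), (l.2 : ZMod n)) ((V.1 : ZMod n), (V.2 : ZMod n))
        (κ * ι) hκ) (α, β)).1 + ι * (κ * ι) *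
        Nlm n l V ((diaG ((l.1 : ZMod n), (l.2 : ZMod n)) ((V.1 : ZMod n), (V.2 : ZMod n))
        (κ * ι) hκ) (α, β))) : ℂ) =
      ZMod.stdAddChar (ι * ((l.1 : ZMod n) * (V.2 : ZMod n) -
          (l.2 : ZMod n) * (V.1 : ZMod n)) * α * β +
        (R.1 * (l.2 : ZMod n) - R.2 * (l.1 : ZMod n)) * α +
        (R.1 * (V.2 : ZMod n) - R.2 * (V.1 : ZMod n)) * β) := by
    intro α β
    congr 1
    simp only [diaG, Equiv.coe_fn_mk, Nlm, detm]
    linear_combination (ι * α * β * ((l.1 : ZMod n) * V.2 - (l.2 : ZMod n) * V.1)) * hκ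
  simp only [h2]
  rw [h1]
  congr 2
  simp only [Nlm, detm]
  ring

end Sums

section Main

variable {n : ℕ} [NeZero n] {ι : ℤ}

theorem Nl_smul (l V : ℤ × ℤ) (m : ℤ) (v : ℤ × ℤ) : Nl l V (m • v) = m ^ 2 * Nl l V v := by
  simp only [Nl, det2, Prod.smul_fst, Prod.smul_snd, smul_eq_mul]
  ring

/-- the terms of `Θ` -/
theorem thTermG (hz2 : ∀ a : ℤ, zt n ι (2 * a) = ZMod.stdAddChar ((ι * a : ℤ) : ZMod n))
    (hf1 : ∀ a : ℤ, saw n a = (Complex.I / (2 * n)) * ∑ ρ : ZMod n, ct n ρ *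
      ZMod.stdAddChar (ρ * (a : ZMod n)))
    (hf3 : ∀ (u : ZMod n) (a b : ZMod n), IsUnit u → ∀ u' : ZMod n, u * u' = 1 →
      ∑ α : ZMod n, ∑ β : ZMod n, (ZMod.stdAddChar (u * α * β + a * α + b * β) : ℂ) =
        n * ZMod.stdAddChar (-(u' * a * b)))
    (l V : ℤ × ℤ) (κ : ZMod n) (hκ : κ * ι * det2 l V = 1) (δ : ℤ)
    (hδ : (δ : ZMod n) = κ * ι) (g g' : ℤ × ℤ) (j : ℕ)
    (hdet : det2 g g' = (-1) ^ j) :
    (n : ℂ) * ∑ a ∈ Finset.range n, ∑ b ∈ Finset.range n, (saw n a * saw n b) *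
        zt n ι (2 * δ * Nl l V ((a : ℤ) • g + (b : ℤ) • g') : ℤ) =
      -(1 / 4) * CC n l V g g' (fun v => ZMod.stdAddChar (κ * v)) := by
  have hn : (n : ℂ) ≠ 0 := by exact_mod_cast NeZero.ne n
  have hε : ((-1 : ZMod n) ^ j) * (-1) ^ j = 1 := by
    rw [← mul_pow]; simp
  have hd : ((g.1 : ZMod n) * g'.2 - g.2 * g'.1) = (-1) ^ j := by
    have := congrArg (fun z : ℤ => (z : ZMod n)) hdet
    simpa [det2] using this
  -- the summand as a function on `ZMod n`
  let F : ZMod n → ZMod n → ℂ := fun a b =>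
    ((Complex.I / (2 * n)) * ∑ ρ : ZMod n, ct n ρ * ZMod.stdAddChar (ρ * a)) *
      ((Complex.I / (2 * n)) * ∑ σ : ZMod n, ct n σ * ZMod.stdAddChar (σ * b)) *
      ZMod.stdAddChar ((ι : ZMod n) * (κ * (ι : ZMod n)) * Nlm n l V (a * (g.1 : ZMod n) + b * (g'.1 : ZMod n), a * (g.2 : ZMod n) + b * (g'.2 : ZMod n)))
  have h1 : ∀ a b : ℕ, (saw n a * saw n b) *
      zt n ι (2 * δ * Nl l V ((a : ℤ) • g + (b : ℤ) • g') : ℤ) = F a b := by
    intro a b
    have h2 : (((2 * δ * Nl l V ((a : ℤ) • g + (b : ℤ) • g') : ℤ)) : ZMod (2 * n)) =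
        2 * ((δ * Nl l V ((a : ℤ) • g + (b : ℤ) • g') : ℤ) : ZMod (2 * n)) := by
      push_cast; ring
    rw [h2, hz2, hf1, hf1]
    simp only [F]
    have h3 : (((ι * (δ * Nl l V ((a : ℤ) • g + (b : ℤ) • g')) : ℤ)) : ZMod n) =
        (ι : ZMod n) * (κ * (ι : ZMod n)) * Nlm n l V ((a : ZMod n) * (g.1 : ZMod n) + (b : ZMod n) * (g'.1 : ZMod n), (a : ZMod n) * (g.2 : ZMod n) + (b : ZMod n) * (g'.2 : ZMod n)) := by
      simp only [Nl, det2, Nlm, detm, Prod.fst_add, Prod.snd_add, Prod.smul_fst, Prod.smul_snd,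
        smul_eq_mul]
      push_cast
      rw [hδ]
      ring
    rw [h3]
    push_cast
    rfl
  have h4 : ∑ a ∈ Finset.range n, ∑ b ∈ Finset.range n, (saw n a * saw n b) *
      zt n ι (2 * δ * Nl l V ((a : ℤ) • g + (b : ℤ) • g') : ℤ) = ∑ a : ZMod n, ∑ b : ZMod n, F a b := by
    rw [← sum_range_zmod]
    refine Finset.sum_congr rfl fun a _ => ?_
    rw [← sum_range_zmod]
    exact Finset.sum_congr rfl fun b _ => h1 a b
  rw [h4]
  -- exchange the sums
  have h5 : ∀ a b : ZMod n, F a b = -(1 / (4 * (n : ℂ) ^ 2)) * ∑ p : ZMod n × ZMod n,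
      ct n p.1 * ct n p.2 * ZMod.stdAddChar (p.1 * a + p.2 * b +
        (ι : ZMod n) * (κ * (ι : ZMod n)) * Nlm n l V (a * (g.1 : ZMod n) + b * (g'.1 : ZMod n), a * (g.2 : ZMod n) + b * (g'.2 : ZMod n))) := by
    intro a b
    simp only [F]
    rw [Fintype.sum_prod_type]
    have h6 : (Complex.I / (2 * n) : ℂ) * (Complex.I / (2 * n)) = -(1 / (4 * (n : ℂ) ^ 2)) := by
      have := Complex.I_mul_I
      field_simp
      rw [Complex.I_sq]
      norm_num
    rw [mul_mul_mul_comm, h6, Finset.sum_mul_sum, mul_assoc, Finset.sum_mul]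
    congr 1
    refine Finset.sum_congr rfl fun ρ _ => ?_
    rw [Finset.sum_mul]
    refine Finset.sum_congr rfl fun σ _ => ?_
    rw [AddChar.map_add_eq_mul, AddChar.map_add_eq_mul]
    ring
  simp only [h5]
  rw [← Fintype.sum_prod_type' (f := fun a b : ZMod n => -(1 / (4 * (n : ℂ) ^ 2)) *
    ∑ p : ZMod n × ZMod n, ct n p.1 * ct n p.2 * ZMod.stdAddChar (p.1 * a + p.2 * b +
        (ι : ZMod n) * (κ * (ι : ZMod n)) * Nlm n l V (a * (g.1 : ZMod n) + b * (g'.1 : ZMod n), a * (g.2 : ZMod n) + b * (g'.2 : ZMod n))))]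
  rw [← Finset.mul_sum, Finset.sum_comm]
  rw [← (dual g g' ((-1) ^ j) hd hε).sum_comp]
  have h7 : ∀ R : ZMod n × ZMod n, ∑ q : ZMod n × ZMod n,
      ct n ((dual g g' ((-1) ^ j) hd hε) R).1 * ct n ((dual g g' ((-1) ^ j) hd hε) R).2 *
        ZMod.stdAddChar (((dual g g' ((-1) ^ j) hd hε) R).1 * q.1 +
          ((dual g g' ((-1) ^ j) hd hε) R).2 * q.2 +
          (ι : ZMod n) * (κ * (ι : ZMod n)) * Nlm n l V (q.1 * (g.1 : ZMod n) + q.2 * (g'.1 : ZMod n), q.1 * (g.2 : ZMod n) + q.2 * (g'.2 : ZMod n))) =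
      ct n (detm n R g) * ct n (detm n R g') * (n * ZMod.stdAddChar (κ * Nlm n l V R)) := by
    intro R
    have h9 := (lin g g' ((-1) ^ j) hd hε).sum_comp (fun V' : ZMod n × ZMod n =>
      (ZMod.stdAddChar (R.1 * V'.2 - R.2 * V'.1 +
        (ι : ZMod n) * (κ * (ι : ZMod n)) * Nlm n l V V') : ℂ))
    rw [← gaussG hf3 l V κ ι hκ R, ← h9, Finset.mul_sum]
    refine Finset.sum_congr rfl fun q _ => ?_
    simp only [dual, lin, Equiv.coe_fn_mk, detm]
    congr 2
    ring
  simp only [h7]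
  have h8 : ∀ R : ZMod n × ZMod n, ct n (detm n R g) * ct n (detm n R g') *
      ((n : ℂ) * ZMod.stdAddChar (κ * Nlm n l V R)) = n * (ct n (detm n R g) * ct n (detm n R g') *
      ZMod.stdAddChar (κ * Nlm n l V R)) := by
    intro R; ring
  simp only [h8]
  rw [← Finset.mul_sum, CC]
  field_simp

/-- the terms of the letters -/
theorem bqTermG (hz2 : ∀ a : ℤ, zt n ι (2 * a) = ZMod.stdAddChar ((ι * a : ℤ) : ZMod n))
    (l V : ℤ × ℤ) (κ : ZMod n) (δ : ℤ) (hδ : (δ : ZMod n) = κ * ι) {ι' : ℤ}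
    (hι : (ι : ZMod n) * ι' = 1) (v : ℤ × ℤ) (ρ : ℤ) :
    zt n ι (2 * δ * Nl l V ((ι' * ρ) • v) : ℤ) =
      ZMod.stdAddChar (κ * ((ρ : ZMod n) ^ 2 * (Nl l V v : ZMod n))) := by
  have h2 : (((2 * δ * Nl l V ((ι' * ρ) • v) : ℤ)) : ZMod (2 * n)) =
      2 * ((δ * Nl l V ((ι' * ρ) • v) : ℤ) : ZMod (2 * n)) := by
    push_cast; ring
  rw [h2, hz2, Nl_smul]
  congr 1
  push_cast
  rw [hδ]
  linear_combination (κ * ρ ^ 2 * (Nl l V v : ZMod n) * ((ι : ZMod n) * ι' + 1)) * hι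

end Main

end Pool.Agent.MTA.LAMG

namespace Pool.Agent.MTA

open Pool.Agent.TB Pool.Agent.MTR Pool.Agent.MT Pool.Agent.TB.LAM LAMG

theorem lamg (hz : ZT_Stmt) (hf : FOU_Stmt) (_he : EGO_Stmt) (hs : STB_Stmt) (hp : PRS_Stmt)
    (hd : DERG_Stmt) (hi : INSG_Stmt) : LAMG_Stmt := by
  intro n _ ι hn hι l Φ hΦ t ht κ hκ
  obtain ⟨hz0, hza, -, -, hzs, -, hz2, -⟩ := hz n ι hι
  obtain ⟨hf1, hf2, hf3⟩ := hf n hn
  obtain ⟨-, -, hst, -⟩ := hs n ι hι
  obtain ⟨-, hpr⟩ := hp n ι hι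
  have hins := hi n ι hι (bs n ι t.1).1 t.2.reverse
  have hder := hd n ι t ht
  obtain ⟨ι', m, hm⟩ := hι
  have hι1 : (ι : ZMod n) * (ι' : ZMod n) = 1 := by
    have := congrArg (fun z : ℤ => (z : ZMod n)) hm
    push_cast at this
    rw [ZMod.natCast_self, mul_zero, mul_zero, add_zero] at this
    rw [mul_comm]
    exact this
  obtain ⟨δ, hδ⟩ : ∃ δ : ℤ, (δ : ZMod n) = κ * ι := ⟨((κ * ι : ZMod n)).val, by
    rw [Int.cast_natCast, ZMod.natCast_zmod_val]⟩
  set x := t.2.reverse with hx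
  have hlen : t.2.length = x.length := by rw [hx, List.length_reverse]
  set V := lastv x with hV
  have hδd : ((δ : ZMod n) * (det2 l V : ℤ)) = 1 := by
    rw [hδ]
    exact hκ
  have hvt : (vecg n ι ((bs n ι t.1).1, 0) false x).1 = (vt n ι t).1 := by
    rw [← vecg_fst]; rfl
  have hdet : ∀ j, det2 (chain x j) (chain x (j + 1)) = (-1) ^ j := by
    intro j
    induction j with
    | zero => simp [chain, det2]
    | succ j ih =>
      have e : chain x (j + 1 + 1) =
        chain x j + ((-1) ^ j * 2 * x.getD j 0) • chain x (j + 1) := rfl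
      rw [e, pow_succ, ← ih]
      simp only [det2, Prod.fst_add, Prod.snd_add, Prod.smul_fst, Prod.smul_snd, smul_eq_mul]
      ring
  have hE : ∀ j ≤ x.length, ∀ a b : ℤ, pr n Φ (insg n ι (bs n ι t.1).1 (Tt n ι a b) false x j) =
      pr n Φ (vt n ι t).1 * zt n ι (2 * δ * Nl l V (if Even j then
        a • chain x j + b • chain x (j + 1)
          else a • chain x (j + 1) + b • chain x j) : ℤ) := by
    intro j hj a b
    rw [hins j hj a b, hvt]
    exact hpr l V Φ _ hΦ (hst t ht) δ hδd _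
  set J0 := pr n Φ (vt n ι t).1 with hJ0
  have hsum : pr n Φ (vt n ι t).2 =
      -(∑ j ∈ Finset.range (x.length + 1), (-1 : ℂ) ^ j *
        pr n Φ (insg n ι (bs n ι t.1).1 (Th n ι) false x j)) +
      ∑ i ∈ Finset.range x.length, ((x.getD i 0 : ℤ) : ℂ) *
        pr n Φ (insg n ι (bs n ι t.1).1 (if Even i then cono n ι (bq n) else mulo n (bq n))
          false x i) := by
    rw [hder, hlen, ← prL_apply]
    simp only [map_add, map_neg, map_sum, map_smul, smul_eq_mul, prL_apply]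
  rw [hsum]
  -- first sum
  have h1 : ∀ j ∈ Finset.range (x.length + 1),
      pr n Φ (insg n ι (bs n ι t.1).1 (Th n ι) false x j) =
      J0 * (-(1 / 4) * CC n l V (chain x j) (chain x (j + 1))
        (fun v => ZMod.stdAddChar (κ * v))) := by
    intro j hj
    have hj' : j ≤ x.length := Nat.lt_succ_iff.1 (Finset.mem_range.1 hj)
    rw [← thTermG hz2 hf1 hf3 l V κ hκ δ hδ (chain x j) (chain x (j + 1)) j (hdet j),
      ← insP_apply, Th, map_smul, map_sum]
    simp only [map_sum, map_smul, insP_apply, smul_eq_mul]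
    have h2 : ∀ a b : ℕ, pr n Φ (insg n ι (bs n ι t.1).1 (Tt n ι a b) false x j) = J0 *
        zt n ι (2 * δ * Nl l V (if Even j then (a : ℤ) • chain x j + (b : ℤ) • chain x (j + 1)
          else (a : ℤ) • chain x (j + 1) + (b : ℤ) • chain x j) : ℤ) := fun a b => hE j hj' a b
    simp only [h2]
    by_cases hev : Even j
    · simp only [if_pos hev]
      simp only [Finset.mul_sum]
      refine Finset.sum_congr rfl fun a _ => Finset.sum_congr rfl fun b _ => ?_
      ring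
    · simp only [if_neg hev]
      rw [Finset.sum_comm]
      simp only [Finset.mul_sum]
      refine Finset.sum_congr rfl fun a _ => Finset.sum_congr rfl fun b _ => ?_
      rw [add_comm ((b : ℤ) • chain x (j + 1)) ((a : ℤ) • chain x j)]
      ring
  -- second sum
  have hg : bq n = (-((n : ℂ) ^ 2 - 1) / 6) • gr n 0 + (1 / 2 : ℂ) •
      ∑ ρ ∈ Finset.Ico 1 n, ((1 / Real.sin (π * ρ / n) ^ 2 : ℝ) : ℂ) • gr n (ρ : ℤ) := by
    funext u
    rw [hf2 u]
    simp only [Pi.add_apply, Pi.smul_apply, Finset.sum_apply, smul_eq_mul, gr]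
    rw [Int.cast_zero, zero_mul, AddChar.map_zero_eq_one, mul_one]
    simp only [Int.cast_natCast]
  have h3 : ∀ i ∈ Finset.range x.length,
      pr n Φ (insg n ι (bs n ι t.1).1 (if Even i then cono n ι (bq n) else mulo n (bq n))
        false x i) =
      J0 * (-((n : ℂ) ^ 2 - 1) / 6 + (1 / 2) * CS n (Nl l V (chain x (i + 1)))
        (fun v => ZMod.stdAddChar (κ * v))) := by
    intro i hi'
    have hi' : i ≤ x.length := (Finset.mem_range.1 hi').le
    have h4 : ∀ ρ : ℤ, insP n ι Φ (bs n ι t.1).1 false x i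
        (if Even i then conoL n ι (gr n ρ) else muloL n (gr n ρ)) =
        J0 * ZMod.stdAddChar (κ * ((ρ : ZMod n) ^ 2 * (Nl l V (chain x (i + 1)) : ZMod n))) := by
      intro ρ
      rw [← bqTermG hz2 l V κ δ hδ hι1, insP_apply]
      by_cases hev : Even i
      · rw [if_pos hev, cono_gr hz0 hza hzs hz2 hι1, hE i hi', if_pos hev, zero_smul, zero_add]
      · rw [if_neg hev, mulo_gr hz2 hι1, hE i hi', if_neg hev, zero_smul, add_zero]
    have h5 : (if Even i then cono n ι (bq n) else mulo n (bq n)) =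
        (-((n : ℂ) ^ 2 - 1) / 6) • (if Even i then conoL n ι (gr n 0) else muloL n (gr n 0)) +
        (1 / 2 : ℂ) • ∑ ρ ∈ Finset.Ico 1 n, ((1 / Real.sin (π * ρ / n) ^ 2 : ℝ) : ℂ) •
          (if Even i then conoL n ι (gr n (ρ : ℤ)) else muloL n (gr n (ρ : ℤ))) := by
      by_cases hev : Even i
      · simp only [if_pos hev]
        simp only [← map_smul, ← map_sum, ← map_add]
        rw [← hg]
        rfl
      · simp only [if_neg hev]
        simp only [← map_smul, ← map_sum, ← map_add]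
        rw [← hg]
        rfl
    rw [← insP_apply, h5]
    simp only [map_add, map_smul, map_sum, h4, smul_eq_mul]
    rw [Int.cast_zero, zero_pow two_ne_zero, zero_mul, mul_zero, AddChar.map_zero_eq_one, CS]
    simp only [Int.cast_natCast]
    rw [mul_add, Finset.mul_sum, Finset.mul_sum, Finset.mul_sum]
    congr 1
    · ring
    · refine Finset.sum_congr rfl fun ρ _ => ?_
      ring
  have e3 : ∀ RR : ℕ → ℂ, ∑ j ∈ Finset.range (x.length + 1),
      (-1 : ℂ) ^ j * (J0 * (-(1 / 4) * RR j)) =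
      -(J0 * ((1 / 4) * ∑ j ∈ Finset.range (x.length + 1), (-1 : ℂ) ^ j * RR j)) := by
    intro RR
    simp only [Finset.mul_sum, ← Finset.sum_neg_distrib]
    refine Finset.sum_congr rfl fun j _ => ?_
    ring
  have e4 : ∀ (c : ℂ) (S : ℕ → ℂ), ∑ i ∈ Finset.range x.length,
      ((x.getD i 0 : ℤ) : ℂ) * (J0 * (c + (1 / 2) * S i)) =
      J0 * (c * (∑ i ∈ Finset.range x.length, ((x.getD i 0 : ℤ) : ℂ)) +
        (1 / 2) * ∑ i ∈ Finset.range x.length, ((x.getD i 0 : ℤ) : ℂ) * S i) := by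
    intro c S
    simp only [Finset.mul_sum, mul_add, ← Finset.sum_add_distrib]
    refine Finset.sum_congr rfl fun i _ => ?_
    ring
  have e1 : ∑ j ∈ Finset.range (x.length + 1), (-1 : ℂ) ^ j *
      pr n Φ (insg n ι (bs n ι t.1).1 (Th n ι) false x j) =
      ∑ j ∈ Finset.range (x.length + 1), (-1 : ℂ) ^ j *
      (J0 * (-(1 / 4) * CC n l V (chain x j) (chain x (j + 1))
        (fun v => ZMod.stdAddChar (κ * v)))) :=
    Finset.sum_congr rfl fun j hj => by rw [h1 j hj]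
  have e2 : ∑ i ∈ Finset.range x.length, ((x.getD i 0 : ℤ) : ℂ) *
      pr n Φ (insg n ι (bs n ι t.1).1 (if Even i then cono n ι (bq n) else mulo n (bq n))
          false x i) =
      ∑ i ∈ Finset.range x.length, ((x.getD i 0 : ℤ) : ℂ) *
      (J0 * (-((n : ℂ) ^ 2 - 1) / 6 + (1 / 2) * CS n (Nl l V (chain x (i + 1)))
        (fun v => ZMod.stdAddChar (κ * v)))) :=
    Finset.sum_congr rfl fun i hi => by rw [h3 i hi]
  rw [e1, e2, e3, e4, SG, ← hV, ← sum_getD]
  ring

end Pool.Agent.MTA
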