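import Pool.Agent.MTA.Stmts
import Pool.Agent.MTR.Stmts

/-!
Montesinos knots, analysis part: module LAMM (the logarithmic derivative of a Montesinos knot).
See PAPER.md in this folder, section 3.
-/

open scoped BigOperators Real

namespace Pool.Agent.MTA

open Pool.Agent.LibH11.Sliced Pool.Agent.TB Pool.Agent.MTR Pool.Agent.MT

namespace LAMM

variable (n : ℕ) [NeZero n] (ι : ℤ)

/-- moving one factor from the left to the right -/
theorem pr_move (e : ℤ) (ts : List (Bool × List ℤ)) (t : Bool × List ℤ)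
    (hp : ts.Perm (t :: ts.erase t)) :
    pr n (Pp n ι e (ts.erase t)) (vt n ι t).1 = pr n (Pp n ι e ts) 1 := by
  unfold pr
  refine Finset.sum_congr rfl fun w _ => ?_
  have h1 : ∀ u : ZMod (2 * n), Pp n ι e ts u = Pp n ι e (ts.erase t) u * (vt n ι t).1 u := by
    intro u
    unfold Pp
    rw [(hp.map fun t => (vt n ι t).1 u).prod_eq, List.map_cons, List.prod_cons]
    ring
  rw [h1, Pi.one_apply, mul_one]

omit [NeZero n] in
theorem pr_neg (f g : Fn n) : pr n f (-g) = -pr n f g := by
  unfold pr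
  rw [← Finset.sum_neg_distrib]
  exact Finset.sum_congr rfl fun w _ => by rw [Pi.neg_apply, mul_neg]

theorem sum_map_mul (l : List (Bool × List ℤ)) (c : ℂ) (f : Bool × List ℤ → ℂ) :
    (l.map fun t => c * f t).sum = c * (l.map f).sum := by
  induction l with
  | nil => simp
  | cons a l ih => rw [List.map_cons, List.map_cons, List.sum_cons, List.sum_cons, ih, mul_add]

theorem sum_map_add (l : List (Bool × List ℤ)) (f g : Bool × List ℤ → ℂ) :
    (l.map fun t => f t + g t).sum = (l.map f).sum + (l.map g).sum := by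
  induction l with
  | nil => simp
  | cons a l ih =>
    rw [List.map_cons, List.map_cons, List.map_cons, List.sum_cons, List.sum_cons, List.sum_cons,
      ih]
    ring

end LAMM

open LAMM in
theorem lamm (had : ADV_Stmt) (hn : NFE_Stmt) (hm : MTD_Stmt) (hs : STB_Stmt) (hg : LAMG_Stmt)
    (hb : LAMB_Stmt) : LAMM_Stmt := by
  intro n _ ι hn1 hcop ts e hnf κ hκ
  obtain ⟨n1, n2, n3, -⟩ := hn ts e hnf
  obtain ⟨-, -, -, -, a5⟩ := had
  obtain ⟨-, -, a5c⟩ := a5 e (wrds ts) n1
  obtain ⟨-, -, -, s4⟩ := hs n ι hcop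
  obtain ⟨m1, m2⟩ := hm n ι ts e
  set χ : ZMod n → ℂ := fun v => ZMod.stdAddChar (κ * v) with hχ
  set P0 : ℂ := pr n (Pp n ι e ts) 1 with hP0
  -- the stabiliser of the whole product
  have hst : Stab n ι (-(lv e (wrds ts)).1, (lv e (wrds ts)).2) (Pp n ι e ts) := by
    have h := s4 e ts n2
    unfold lv
    simp only [neg_neg]
    exact h
  -- the half twists
  have hbq : pr n (Pp n ι e ts) (bq n) = P0 * (-((n : ℂ) ^ 2 - 1) / 6 +
      (1 / 2) * CS n (-(totv e (wrds ts)).2) χ) :=
    hb n ι hn1 hcop (lv e (wrds ts)) _ hst κ hκ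
  -- the empty site
  have hth : pr n (Pp n ι e ts) (Th n ι 1) = -(P0 * SG n (lv e (wrds ts)) [] χ) := by
    have h1 := hg n ι hn1 hcop (lv e (wrds ts)) _ hst (false, []) (by simp) κ (by
      have h2 : det2 (lv e (wrds ts)) (lastv ((false, ([] : List ℤ)).2.reverse)) =
          DD e (wrds ts) := by
        have h3 : lastv ((false, ([] : List ℤ)).2.reverse) = (0, 1) := rfl
        rw [h3]
        unfold det2 lv DD
        ring
      rw [h2]
      exact hκ)
    have h4 : vt n ι (false, []) = (1, -(Th n ι 1)) := rfl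
    rw [h4] at h1
    simp only at h1
    rw [pr_neg] at h1
    have h5 : (((false, ([] : List ℤ)).2.reverse.sum : ℤ) : ℂ) = 0 := by simp
    rw [h5, mul_zero, zero_add] at h1
    have h6 : ((false, ([] : List ℤ)).2.reverse) = [] := rfl
    rw [h6] at h1
    linear_combination -h1
  -- the tangles
  have htan : ∀ t ∈ ts, pr n (Pp n ι e (ts.erase t)) (vt n ι t).2 = P0 *
      (-((n : ℂ) ^ 2 - 1) / 6 * ((t.2.reverse.sum : ℤ) : ℂ) +
        SG n (lv e ((wrds ts).erase t.2.reverse)) t.2.reverse χ) := by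
    intro t ht
    obtain ⟨e1, e2⟩ := n3 t ht
    have hmem : t.2.reverse ∈ wrds ts := List.mem_map_of_mem (f := fun t => t.2.reverse) ht
    obtain ⟨-, a6, -⟩ := a5c _ hmem
    have h1 := s4 e (ts.erase t) (fun t' ht' => n2 t' (List.mem_of_mem_erase ht'))
    rw [e1] at h1
    have h2 := hg n ι hn1 hcop (lv e ((wrds ts).erase t.2.reverse)) (Pp n ι e (ts.erase t)) (by
      unfold lv
      simp only [neg_neg]
      exact h1) t (n2 t ht) κ (by rw [a6]; exact hκ)
    rw [h2, pr_move n ι e ts t e2]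
  rw [m2, m1, hbq, hth, List.map_congr_left htan, sum_map_mul, sum_map_add, sum_map_mul]
  unfold LG TG
  have h7 : ((wrds ts).length : ℂ) = (ts.length : ℂ) := by
    unfold wrds
    rw [List.length_map]
  have h8 : ((wrds ts).map fun x => ((x.sum : ℤ) : ℂ)) =
      ts.map fun t => ((t.2.reverse.sum : ℤ) : ℂ) := by
    unfold wrds
    rw [List.map_map]
    rfl
  have h9 : ((wrds ts).map fun x => SG n (lv e ((wrds ts).erase x)) x χ) =
      ts.map fun t => SG n (lv e ((wrds ts).erase t.2.reverse)) t.2.reverse χ := by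
    conv_lhs => rw [show wrds ts = ts.map fun t => t.2.reverse from rfl]
    rw [List.map_map]
    rfl
  rw [h7, h8, h9]
  ring

end Pool.Agent.MTA
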