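import Pool.Agent.MTA.Stmts0
import Pool.Agent.TB.Lim

open Filter Topology
open scoped Real BigOperators

namespace Pool.Agent.MTA.LIMQ

open Pool.Agent.TB Pool.Agent.TB.LIM Pool.Agent.MTA

lemma w_zero (s : ℕ) : w s 0 = 0 := by
  unfold w
  simp [Real.cot_eq_cos_div_sin]

lemma exists_inv (c : ℤ) (hc : Odd c) (s : ℕ) (M : ℤ) (hM : Odd M) (hs : 1 ≤ s) :
    ∃ m : ℤ, Odd m ∧ ∀ q : ZMod (2 ^ s), (c : ZMod (2 ^ s)) * q = (M : ZMod (2 ^ s)) ↔
      q = (m : ZMod (2 ^ s)) := by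
  obtain ⟨a, b, hab⟩ : IsCoprime c ((2 : ℤ) ^ s) :=
    IsCoprime.pow_right (Int.isCoprime_two_right.2 hc)
  have h0 : (((2 : ℤ) ^ s : ℤ) : ZMod (2 ^ s)) = 0 := by
    have := ZMod.natCast_self (2 ^ s)
    push_cast at this ⊢
    exact this
  have h1 : (a : ZMod (2 ^ s)) * (c : ZMod (2 ^ s)) = 1 := by
    have h2 := congrArg (Int.cast : ℤ → ZMod (2 ^ s)) hab
    rw [Int.cast_add, Int.cast_mul, Int.cast_mul, h0, mul_zero, add_zero, Int.cast_one] at h2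
    exact h2
  have ha : Odd a := by
    have h3 : Odd (a * c) := by
      have : a * c = 1 - b * 2 ^ s := by linarith
      rw [this]
      apply Odd.sub_even odd_one
      apply Even.mul_left
      exact (Int.even_pow' (by omega)).2 even_two
    exact (Int.odd_mul.1 h3).1
  refine ⟨a * M, ha.mul hM, fun q => ⟨fun h => ?_, fun h => ?_⟩⟩
  · rw [Int.cast_mul, ← h, ← mul_assoc, h1, one_mul]
  · rw [h, Int.cast_mul, ← mul_assoc, mul_comm (c : ZMod (2 ^ s)), h1, one_mul]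

/-- `chi`, real valued -/
noncomputable def chr (s : ℕ) (M : ℤ) (v : ZMod (2 ^ s)) : ℝ :=
  (if v = (M : ZMod (2 ^ s)) then 1 else 0) -
    (if v = (M : ZMod (2 ^ s)) + 2 ^ (s - 1) then 1 else 0)

lemma chi_eq (s : ℕ) (M : ℤ) (v : ZMod (2 ^ s)) : chi s M v = ((chr s M v : ℝ) : ℂ) := by
  unfold chi chr
  split_ifs <;> simp

/-- the sum -/
noncomputable def g (A B C c M : ℤ) (s : ℕ) : ℝ :=
  ∑ p : ZMod (2 ^ s) × ZMod (2 ^ s), w s p.1.valMinAbs * w s p.2.valMinAbs *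
    chr s M (c * ((A : ZMod (2 ^ s)) * p.1 ^ 2 + B * p.1 * p.2 + C * p.2 ^ 2))

lemma g_eq (A B C c M : ℤ) (s : ℕ) :
    ((π : ℂ) / 2 ^ s) ^ 2 * ∑ a : ZMod (2 ^ s), ∑ b : ZMod (2 ^ s),
        ct (2 ^ s) a * ct (2 ^ s) b *
          chi s M (c * ((A : ZMod (2 ^ s)) * a ^ 2 + B * a * b + C * b ^ 2)) =
      ((g A B C c M s : ℝ) : ℂ) := by
  unfold g
  rw [Complex.ofReal_sum, Fintype.sum_prod_type, Finset.mul_sum]
  refine Finset.sum_congr rfl fun a _ => ?_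
  rw [Finset.mul_sum]
  refine Finset.sum_congr rfl fun b _ => ?_
  rw [Complex.ofReal_mul, Complex.ofReal_mul, ← ct_eq, ← ct_eq, ← chi_eq]
  ring

lemma cast_q (A B C c : ℤ) {s : ℕ} (p : ZMod (2 ^ s) × ZMod (2 ^ s)) :
    (((c * (A * p.1.valMinAbs ^ 2 + B * p.1.valMinAbs * p.2.valMinAbs +
      C * p.2.valMinAbs ^ 2) : ℤ)) : ZMod (2 ^ s)) =
      c * ((A : ZMod (2 ^ s)) * p.1 ^ 2 + B * p.1 * p.2 + C * p.2 ^ 2) := by
  push_cast
  rfl

lemma q_bound (A B C c : ℤ) (x y : ℤ) (T : ℝ) (hx : |(x : ℝ)| ≤ T) (hy : |(y : ℝ)| ≤ T) :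
    |((c * (A * x ^ 2 + B * x * y + C * y ^ 2) : ℤ) : ℝ)| ≤
      |(c : ℝ)| * (|(A : ℝ)| + |(B : ℝ)| + |(C : ℝ)|) * T ^ 2 := by
  have hT : 0 ≤ T := (abs_nonneg _).trans hx
  have b1 : (x : ℝ) ^ 2 ≤ T ^ 2 := by
    rw [← sq_abs]; exact pow_le_pow_left₀ (abs_nonneg _) hx 2
  have b2 : (y : ℝ) ^ 2 ≤ T ^ 2 := by
    rw [← sq_abs]; exact pow_le_pow_left₀ (abs_nonneg _) hy 2
  have b3 : |(x : ℝ)| * |(y : ℝ)| ≤ T ^ 2 := by
    rw [sq]; exact mul_le_mul hx hy (abs_nonneg _) hT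
  push_cast
  rw [abs_mul, mul_assoc |(c : ℝ)|]
  apply mul_le_mul_of_nonneg_left _ (abs_nonneg _)
  have c1 : |(A : ℝ) * x ^ 2| ≤ |(A : ℝ)| * T ^ 2 := by
    rw [abs_mul, abs_of_nonneg (sq_nonneg (x : ℝ))]
    exact mul_le_mul_of_nonneg_left b1 (abs_nonneg _)
  have c2 : |(B : ℝ) * x * y| ≤ |(B : ℝ)| * T ^ 2 := by
    rw [abs_mul, abs_mul, mul_assoc]
    exact mul_le_mul_of_nonneg_left b3 (abs_nonneg _)
  have c3 : |(C : ℝ) * y ^ 2| ≤ |(C : ℝ)| * T ^ 2 := by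
    rw [abs_mul, abs_of_nonneg (sq_nonneg (y : ℝ))]
    exact mul_le_mul_of_nonneg_left b2 (abs_nonneg _)
  have c5 := abs_add_le ((A : ℝ) * x ^ 2 + B * x * y) (C * y ^ 2)
  have c6 := abs_add_le ((A : ℝ) * x ^ 2) (B * x * y)
  nlinarith

/-- the bound of the far part -/
lemma far (A B C c M : ℤ) (hc : Odd c) (hM : Odd M) (s : ℕ) (hs : 2 ≤ s) (θ : ℝ)
    (ε : ℕ → ℝ) (hε : ∀ (s : ℕ) (m : ℤ), Odd m →
      ∑ p : ZMod (2 ^ s) × ZMod (2 ^ s),
        (if (A : ZMod (2 ^ s)) * p.1 ^ 2 + B * p.1 * p.2 + C * p.2 ^ 2 = (m : ZMod (2 ^ s)) ∧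
            (θ * √(2 ^ s) < |(p.1.valMinAbs : ℝ)| ∨ θ * √(2 ^ s) < |(p.2.valMinAbs : ℝ)|) ∧
            p.1 ≠ 0 ∧ p.2 ≠ 0 then
          1 / (|(p.1.valMinAbs : ℝ)| * |(p.2.valMinAbs : ℝ)|) else 0) ≤ ε s) :
    |∑ p ∈ Finset.univ.filter (fun p : ZMod (2 ^ s) × ZMod (2 ^ s) =>
      ¬ (|(p.1.valMinAbs : ℝ)| ≤ θ * √(2 ^ s) ∧ |(p.2.valMinAbs : ℝ)| ≤ θ * √(2 ^ s))),
        w s p.1.valMinAbs * w s p.2.valMinAbs *
          chr s M (c * ((A : ZMod (2 ^ s)) * p.1 ^ 2 + B * p.1 * p.2 + C * p.2 ^ 2))| ≤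
      2 * ε s := by
  obtain ⟨m1, hm1, h1⟩ := exists_inv c hc s M hM (by omega)
  have hM2 : Odd (M + 2 ^ (s - 1)) := by
    apply Odd.add_even hM
    exact (Int.even_pow' (by omega)).2 even_two
  obtain ⟨m2, hm2, h2⟩ := exists_inv c hc s (M + 2 ^ (s - 1)) hM2 (by omega)
  have e1 := hε s m1 hm1
  have e2 := hε s m2 hm2
  refine (Finset.abs_sum_le_sum_abs _ _).trans ?_
  have key : ∀ p : ZMod (2 ^ s) × ZMod (2 ^ s),
      ¬ (|(p.1.valMinAbs : ℝ)| ≤ θ * √(2 ^ s) ∧ |(p.2.valMinAbs : ℝ)| ≤ θ * √(2 ^ s)) →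
      |w s p.1.valMinAbs * w s p.2.valMinAbs *
          chr s M (c * ((A : ZMod (2 ^ s)) * p.1 ^ 2 + B * p.1 * p.2 + C * p.2 ^ 2))| ≤
        (if (A : ZMod (2 ^ s)) * p.1 ^ 2 + B * p.1 * p.2 + C * p.2 ^ 2 = (m1 : ZMod (2 ^ s)) ∧
            (θ * √(2 ^ s) < |(p.1.valMinAbs : ℝ)| ∨ θ * √(2 ^ s) < |(p.2.valMinAbs : ℝ)|) ∧
            p.1 ≠ 0 ∧ p.2 ≠ 0 then
          1 / (|(p.1.valMinAbs : ℝ)| * |(p.2.valMinAbs : ℝ)|) else 0) +
        (if (A : ZMod (2 ^ s)) * p.1 ^ 2 + B * p.1 * p.2 + C * p.2 ^ 2 = (m2 : ZMod (2 ^ s)) ∧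
            (θ * √(2 ^ s) < |(p.1.valMinAbs : ℝ)| ∨ θ * √(2 ^ s) < |(p.2.valMinAbs : ℝ)|) ∧
            p.1 ≠ 0 ∧ p.2 ≠ 0 then
          1 / (|(p.1.valMinAbs : ℝ)| * |(p.2.valMinAbs : ℝ)|) else 0) := by
    intro p hp
    have hp' : θ * √(2 ^ s) < |(p.1.valMinAbs : ℝ)| ∨ θ * √(2 ^ s) < |(p.2.valMinAbs : ℝ)| := by
      by_contra hcon
      rw [not_or, not_lt, not_lt] at hcon
      exact hp hcon
    by_cases hz : p.1 = 0 ∨ p.2 = 0
    · have hw : w s p.1.valMinAbs * w s p.2.valMinAbs = 0 := by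
        rcases hz with h | h
        · rw [h, ZMod.valMinAbs_zero, w_zero, zero_mul]
        · rw [h, ZMod.valMinAbs_zero, w_zero, mul_zero]
      rw [hw, zero_mul, abs_zero]
      positivity
    · rw [not_or] at hz
      have n1 : p.1.valMinAbs ≠ 0 := by
        intro h; exact hz.1 ((ZMod.valMinAbs_eq_zero _).1 h)
      have n2 : p.2.valMinAbs ≠ 0 := by
        intro h; exact hz.2 ((ZMod.valMinAbs_eq_zero _).1 h)
      have hw : |w s p.1.valMinAbs * w s p.2.valMinAbs| ≤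
          1 / (|(p.1.valMinAbs : ℝ)| * |(p.2.valMinAbs : ℝ)|) := by
        rw [abs_mul, ← one_div_mul_one_div]
        exact mul_le_mul (abs_w_le s _ n1 (abs_le_half _)) (abs_w_le s _ n2 (abs_le_half _))
          (abs_nonneg _) (by positivity)
      set W := w s p.1.valMinAbs * w s p.2.valMinAbs
      set q := (A : ZMod (2 ^ s)) * p.1 ^ 2 + B * p.1 * p.2 + C * p.2 ^ 2 with hq
      have g1 := h1 q
      have g2 := h2 q
      rw [Int.cast_add, Int.cast_pow, Int.cast_ofNat] at g2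
      unfold chr
      simp only [g1, g2, hp', hz.1, hz.2, ne_eq, not_false_eq_true, and_true]
      have hpos : 0 ≤ 1 / (|(p.1.valMinAbs : ℝ)| * |(p.2.valMinAbs : ℝ)|) := by positivity
      split_ifs
      · rw [sub_self, mul_zero, abs_zero]; positivity
      · rw [sub_zero, mul_one, add_zero]; exact hw
      · rw [zero_sub, mul_neg, abs_neg, mul_one, zero_add]; exact hw
      · rw [sub_self, mul_zero, abs_zero, add_zero]
  calc _ ≤ ∑ p ∈ Finset.univ.filter (fun p : ZMod (2 ^ s) × ZMod (2 ^ s) =>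
      ¬ (|(p.1.valMinAbs : ℝ)| ≤ θ * √(2 ^ s) ∧ |(p.2.valMinAbs : ℝ)| ≤ θ * √(2 ^ s))), _ :=
        Finset.sum_le_sum fun p hp => key p (Finset.mem_filter.1 hp).2
    _ ≤ ∑ p : ZMod (2 ^ s) × ZMod (2 ^ s), _ :=
        Finset.sum_le_sum_of_subset_of_nonneg (Finset.filter_subset _ _)
          fun p _ _ => by positivity
    _ ≤ 2 * ε s := by
        rw [Finset.sum_add_distrib]
        linarith

/-- the near part -/
lemma near (A B C c M : ℤ) (Z : Finset (ℤ × ℤ))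
    (hZ : ∀ p : ℤ × ℤ, p ∈ Z ↔ c * (A * p.1 ^ 2 + B * p.1 * p.2 + C * p.2 ^ 2) = M)
    (s : ℕ) (hs : 1 ≤ s) (θ : ℝ)
    (hθ : |(c : ℝ)| * (|(A : ℝ)| + |(B : ℝ)| + |(C : ℝ)|) * θ ^ 2 ≤ 1 / 8)
    (hMs : 8 * |(M : ℝ)| < 2 ^ s)
    (hZs : ∀ z ∈ Z, |(z.1 : ℝ)| ≤ θ * √(2 ^ s) ∧ |(z.2 : ℝ)| ≤ θ * √(2 ^ s) ∧
      2 * |z.1| < 2 ^ s ∧ 2 * |z.2| < 2 ^ s) :
    ∑ p ∈ Finset.univ.filter (fun p : ZMod (2 ^ s) × ZMod (2 ^ s) =>
      (|(p.1.valMinAbs : ℝ)| ≤ θ * √(2 ^ s) ∧ |(p.2.valMinAbs : ℝ)| ≤ θ * √(2 ^ s))),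
        w s p.1.valMinAbs * w s p.2.valMinAbs *
          chr s M (c * ((A : ZMod (2 ^ s)) * p.1 ^ 2 + B * p.1 * p.2 + C * p.2 ^ 2)) =
      ∑ z ∈ Z, w s z.1 * w s z.2 := by
  have hn : (0 : ℝ) < 2 ^ s := by positivity
  have hsq : √((2 : ℝ) ^ s) ^ 2 = 2 ^ s := Real.sq_sqrt hn.le
  set S := Finset.univ.filter (fun p : ZMod (2 ^ s) × ZMod (2 ^ s) =>
      (|(p.1.valMinAbs : ℝ)| ≤ θ * √(2 ^ s) ∧ |(p.2.valMinAbs : ℝ)| ≤ θ * √(2 ^ s))) with hS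
  have hval : ∀ p ∈ S, chr s M (c * ((A : ZMod (2 ^ s)) * p.1 ^ 2 + B * p.1 * p.2 + C * p.2 ^ 2)) =
      if c * (A * p.1.valMinAbs ^ 2 + B * p.1.valMinAbs * p.2.valMinAbs +
        C * p.2.valMinAbs ^ 2) = M then 1 else 0 := by
    intro p hp
    rw [hS, Finset.mem_filter] at hp
    have hb := q_bound A B C c p.1.valMinAbs p.2.valMinAbs _ hp.2.1 hp.2.2
    rw [mul_pow, hsq, ← mul_assoc] at hb
    have hb2 : 8 * |((c * (A * p.1.valMinAbs ^ 2 + B * p.1.valMinAbs * p.2.valMinAbs +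
        C * p.2.valMinAbs ^ 2) : ℤ) : ℝ)| ≤ 2 ^ s := by nlinarith
    rw [← cast_q]
    set Q := c * (A * p.1.valMinAbs ^ 2 + B * p.1.valMinAbs * p.2.valMinAbs +
        C * p.2.valMinAbs ^ 2) with hQ
    have hb3 : 8 * |Q| ≤ 2 ^ s := by exact_mod_cast hb2
    have hM3 : 8 * |M| < 2 ^ s := by exact_mod_cast hMs
    have i1 : ((Q : ZMod (2 ^ s)) = (M : ZMod (2 ^ s))) ↔ Q = M := by
      constructor
      · intro h
        rw [← sub_eq_zero, ← Int.cast_sub, ZMod.intCast_zmod_eq_zero_iff_dvd] at h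
        push_cast at h
        have h5 : |Q - M| < 2 ^ s := by
          have := abs_sub Q M
          have := abs_nonneg Q
          linarith
        have := Int.eq_zero_of_abs_lt_dvd h h5
        linarith
      · intro h; rw [h]
    have i2 : ¬ ((Q : ZMod (2 ^ s)) = (M : ZMod (2 ^ s)) + 2 ^ (s - 1)) := by
      intro h
      have h' : (Q : ZMod (2 ^ s)) = ((M + 2 ^ (s - 1) : ℤ) : ZMod (2 ^ s)) := by
        push_cast; exact h
      rw [← sub_eq_zero, ← Int.cast_sub, ZMod.intCast_zmod_eq_zero_iff_dvd] at h'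
      push_cast at h'
      have hpow : (2 : ℤ) ^ s = 2 * 2 ^ (s - 1) := by
        rw [← pow_succ']; congr 1; omega
      have hpp : (0 : ℤ) < 2 ^ (s - 1) := by positivity
      have h5 : |Q - (M + 2 ^ (s - 1))| < 2 ^ s := by
        rw [abs_lt]
        have a1 := abs_le.1 (le_refl |Q|)
        have a2 := abs_le.1 (le_refl |M|)
        constructor <;> linarith [a1.1, a1.2, a2.1, a2.2]
      have h6 := Int.eq_zero_of_abs_lt_dvd h' h5
      have a1 := abs_le.1 (le_refl |Q|)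
      have a2 := abs_le.1 (le_refl |M|)
      linarith [a1.1, a1.2, a2.1, a2.2]
    unfold chr
    rw [if_neg i2, sub_zero]
    by_cases h : Q = M
    · rw [if_pos h, if_pos (i1.2 h)]
    · rw [if_neg h, if_neg (fun h' => h (i1.1 h'))]
  rw [Finset.sum_congr rfl (fun p hp => by rw [hval p hp])]
  simp only [mul_ite, mul_one, mul_zero]
  rw [← Finset.sum_filter]
  have himg : Z = (S.filter fun p => c * (A * p.1.valMinAbs ^ 2 + B * p.1.valMinAbs *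
      p.2.valMinAbs + C * p.2.valMinAbs ^ 2) = M).image
        fun e => (e.1.valMinAbs, e.2.valMinAbs) := by
    ext z
    rw [Finset.mem_image]
    constructor
    · intro hz
      have h := hZs z hz
      have v1 : ((z.1 : ℤ) : ZMod (2 ^ s)).valMinAbs = z.1 := val_of_small h.2.2.1
      have v2 : ((z.2 : ℤ) : ZMod (2 ^ s)).valMinAbs = z.2 := val_of_small h.2.2.2
      refine ⟨((z.1 : ZMod (2 ^ s)), (z.2 : ZMod (2 ^ s))), ?_, ?_⟩
      · rw [Finset.mem_filter, hS, Finset.mem_filter]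
        simp only [v1, v2]
        exact ⟨⟨Finset.mem_univ _, h.1, h.2.1⟩, (hZ z).1 hz⟩
      · simp only [v1, v2]
    · rintro ⟨p, hp, rfl⟩
      rw [Finset.mem_filter] at hp
      exact (hZ _).2 hp.2
  conv_rhs => rw [himg]
  rw [Finset.sum_image]
  intro e _ e' _ h
  have h1 := (Prod.mk.inj h).1
  have h2 := (Prod.mk.inj h).2
  exact Prod.ext (ZMod.injective_valMinAbs h1) (ZMod.injective_valMinAbs h2)

lemma tendsto_pow_two : Tendsto (fun s : ℕ => (2 : ℝ) ^ s) atTop atTop :=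
  tendsto_pow_atTop_atTop_of_one_lt (by norm_num)

/-- the case `A` even -/
theorem main (ht : TAIL_Stmt) (A B C c M : ℤ) (hc : Odd c) (hM : Odd M) (hB : Odd B)
    (hA : Even A) (Z : Finset (ℤ × ℤ))
    (hZ : ∀ p : ℤ × ℤ, p ∈ Z ↔ c * (A * p.1 ^ 2 + B * p.1 * p.2 + C * p.2 ^ 2) = M) :
    Tendsto (g A B C c M) atTop (𝓝 (∑ p ∈ Z, 1 / ((p.1 : ℝ) * p.2))) := by
  set D := |(c : ℝ)| * (|(A : ℝ)| + |(B : ℝ)| + |(C : ℝ)|) with hD
  have hD0 : 0 ≤ D := by positivity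
  obtain ⟨θ, hθ0, hθ⟩ : ∃ θ : ℝ, 0 < θ ∧ D * θ ^ 2 ≤ 1 / 8 := by
    refine ⟨1 / (8 * (D + 1)), by positivity, ?_⟩
    rw [div_pow, one_pow, mul_one_div, div_le_div_iff₀ (by positivity) (by norm_num)]
    nlinarith
  obtain ⟨ε, hε0, hε⟩ := ht A B C hA hB θ hθ0
  have hlim : Tendsto (fun s : ℕ => ∑ p ∈ Z, w s p.1 * w s p.2) atTop
      (𝓝 (∑ p ∈ Z, 1 / ((p.1 : ℝ) * p.2))) := by
    refine tendsto_finsetSum _ fun p _ => ?_
    by_cases h1 : p.1 = 0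
    · simp [h1, w_zero]
    by_cases h2 : p.2 = 0
    · simp [h2, w_zero]
    have := (tendsto_w p.1 h1).mul (tendsto_w p.2 h2)
    rwa [one_div_mul_one_div] at this
  have hdiff : Tendsto (fun s : ℕ => g A B C c M s - ∑ p ∈ Z, w s p.1 * w s p.2) atTop
      (𝓝 0) := by
    have h2ε : Tendsto (fun s => 2 * ε s) atTop (𝓝 0) := by
      simpa using hε0.const_mul 2
    have hev1 : ∀ᶠ s : ℕ in atTop, 8 * |(M : ℝ)| < 2 ^ s :=
      tendsto_pow_two.eventually_gt_atTop _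
    have hsqrt : Tendsto (fun s : ℕ => θ * √((2 : ℝ) ^ s)) atTop atTop :=
      (Real.tendsto_sqrt_atTop.comp tendsto_pow_two).const_mul_atTop hθ0
    have hev2 : ∀ᶠ s : ℕ in atTop, ∀ z ∈ Z, |(z.1 : ℝ)| ≤ θ * √(2 ^ s) ∧
        |(z.2 : ℝ)| ≤ θ * √(2 ^ s) ∧ 2 * |z.1| < 2 ^ s ∧ 2 * |z.2| < 2 ^ s := by
      rw [Filter.eventually_all_finset]
      intro z _
      have e1 := hsqrt.eventually_ge_atTop |(z.1 : ℝ)|
      have e2 := hsqrt.eventually_ge_atTop |(z.2 : ℝ)|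
      have e3 := tendsto_pow_two.eventually_gt_atTop (2 * |(z.1 : ℝ)|)
      have e4 := tendsto_pow_two.eventually_gt_atTop (2 * |(z.2 : ℝ)|)
      filter_upwards [e1, e2, e3, e4] with s f1 f2 f3 f4
      exact ⟨f1, f2, by exact_mod_cast f3, by exact_mod_cast f4⟩
    refine squeeze_zero_norm' ?_ h2ε
    filter_upwards [hev1, hev2, eventually_ge_atTop 2] with s g1 g2 g3
    rw [Real.norm_eq_abs]
    have hsplit : g A B C c M s =
        ∑ p ∈ Finset.univ.filter (fun p : ZMod (2 ^ s) × ZMod (2 ^ s) =>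
          (|(p.1.valMinAbs : ℝ)| ≤ θ * √(2 ^ s) ∧ |(p.2.valMinAbs : ℝ)| ≤ θ * √(2 ^ s))),
            w s p.1.valMinAbs * w s p.2.valMinAbs *
              chr s M (c * ((A : ZMod (2 ^ s)) * p.1 ^ 2 + B * p.1 * p.2 + C * p.2 ^ 2)) +
        ∑ p ∈ Finset.univ.filter (fun p : ZMod (2 ^ s) × ZMod (2 ^ s) =>
          ¬ (|(p.1.valMinAbs : ℝ)| ≤ θ * √(2 ^ s) ∧ |(p.2.valMinAbs : ℝ)| ≤ θ * √(2 ^ s))),
            w s p.1.valMinAbs * w s p.2.valMinAbs *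
              chr s M (c * ((A : ZMod (2 ^ s)) * p.1 ^ 2 + B * p.1 * p.2 + C * p.2 ^ 2)) :=
      (Finset.sum_filter_add_sum_filter_not _ _ _).symm
    rw [hsplit, near A B C c M Z hZ s (by omega) θ hθ g1 g2, add_sub_cancel_left]
    exact far A B C c M hc hM s g3 θ ε hε
  have := hdiff.add hlim
  simpa using this

end Pool.Agent.MTA.LIMQ

namespace Pool.Agent.MTA

open LIMQ Pool.Agent.TB

theorem limq (ht : TAIL_Stmt) : LIMQ_Stmt := by
  intro A B C c M hc hM hB hAC Z hZ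
  have hreal : Tendsto (g A B C c M) atTop (𝓝 (∑ p ∈ Z, 1 / ((p.1 : ℝ) * p.2))) := by
    rcases Int.even_mul.1 hAC with hA | hC
    · exact main ht A B C c M hc hM hB hA Z hZ
    · have h := main ht C B A c M hc hM hB hC (Z.image Prod.swap) (by
        intro p
        rw [Finset.mem_image]
        constructor
        · rintro ⟨q, hq, rfl⟩
          have := (hZ q).1 hq
          simp only [Prod.fst_swap, Prod.snd_swap]
          rw [← this]; ring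
        · intro hp
          refine ⟨p.swap, (hZ _).2 ?_, Prod.swap_swap p⟩
          simp only [Prod.fst_swap, Prod.snd_swap]
          rw [← hp]; ring)
      rw [Finset.sum_image (Prod.swap_injective.injOn)] at h
      have e1 : ∑ p ∈ Z, 1 / ((p.swap.1 : ℝ) * (p.swap.2 : ℝ)) =
          ∑ p ∈ Z, 1 / ((p.1 : ℝ) * p.2) := by
        refine Finset.sum_congr rfl fun p _ => ?_
        rw [Prod.fst_swap, Prod.snd_swap, mul_comm]
      rw [e1] at h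
      refine h.congr fun s => ?_
      unfold g
      refine Fintype.sum_equiv (Equiv.prodComm _ _) _ _ fun p => ?_
      simp only [Equiv.prodComm_apply, Prod.fst_swap, Prod.snd_swap]
      rw [mul_comm (LIM.w s p.1.valMinAbs)]
      congr 2
      ring
  have hcc := (Complex.continuous_ofReal.tendsto _).comp hreal
  have hl : ((∑ p ∈ Z, 1 / ((p.1 : ℝ) * p.2) : ℝ) : ℂ) = ∑ p ∈ Z, 1 / ((p.1 : ℂ) * p.2) := by
    push_cast
    rfl
  rw [hl] at hcc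
  refine hcc.congr fun s => ?_
  rw [g_eq]
  rfl

end Pool.Agent.MTA
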