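import Pool.Agent.MTA.Stmts0

/-!
Montesinos knots, analysis part: the limit of the sums of a site (LIMS).
-/

open Filter Topology
open scoped BigOperators Real

namespace Pool.Agent.MTA

open Pool.Agent.TB Pool.Agent.MTR

namespace LIMS

/-- Change of variables modulo `n`. -/
lemma sum_change (n : ℕ) [NeZero n] (g h : ℤ × ℤ) (ε : ℤ) (hε : ε * ε = 1)
    (hdet : det2 g h = ε) (F : ZMod n → ZMod n → (ZMod n × ZMod n) → ℂ) :
    ∑ R : ZMod n × ZMod n, F (detm n R g) (detm n R h) R =
      ∑ a : ZMod n, ∑ b : ZMod n,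
        F a b (ε * (b * g.1 - a * h.1), ε * (b * g.2 - a * h.2)) := by
  have hdet' : (g.1 : ZMod n) * h.2 - g.2 * h.1 = ε := by
    rw [← hdet]
    simp [det2]
  have hε' : (ε : ZMod n) * ε = 1 := by
    have := congrArg (fun z : ℤ => (z : ZMod n)) hε
    simpa using this
  rw [← Fintype.sum_prod_type' (f := fun a b =>
    F a b (ε * (b * g.1 - a * h.1), ε * (b * g.2 - a * h.2)))]
  symm
  let e : ZMod n × ZMod n ≃ ZMod n × ZMod n :=
    { toFun := fun p => (ε * (p.2 * g.1 - p.1 * h.1), ε * (p.2 * g.2 - p.1 * h.2))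
      invFun := fun R => (detm n R g, detm n R h)
      left_inv := by
        rintro ⟨a, b⟩
        simp only [detm, Prod.mk.injEq]
        constructor
        · linear_combination (ε * a) * hdet' + a * hε'
        · linear_combination (ε * b) * hdet' + b * hε'
      right_inv := by
        rintro ⟨a, b⟩
        simp only [detm, Prod.mk.injEq]
        constructor
        · linear_combination (ε * a) * hdet' + a * hε'
        · linear_combination (ε * b) * hdet' + b * hε' }
  apply Fintype.sum_equiv e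
  intro p
  have h1 := e.left_inv p
  have h2 : detm n (e p) g = p.1 := congrArg Prod.fst h1
  have h3 : detm n (e p) h = p.2 := congrArg Prod.snd h1
  rw [h2, h3]
  rfl

/-- The set of solutions is finite. -/
lemma finite_sol (c : ℤ) (l V : ℤ × ℤ) (hD : det2 l V ≠ 0) (M : ℤ) (hM : M ≠ 0) :
    {R : ℤ × ℤ | c * (det2 l R * det2 R V) = M}.Finite := by
  refine Set.Finite.of_injOn (f := fun R : ℤ × ℤ => (det2 l R, det2 R V))
    (t := (Set.Icc (-|M|) |M|) ×ˢ (Set.Icc (-|M|) |M|)) ?_ ?_
    ((Set.finite_Icc _ _).prod (Set.finite_Icc _ _))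
  · intro R hR
    have hR' : c * (det2 l R * det2 R V) = M := hR
    have h1 : |det2 l R| ≤ |M| := Int.le_of_dvd (abs_pos.2 hM)
      ((abs_dvd_abs _ _).2 ⟨c * det2 R V, by rw [← hR']; ring⟩)
    have h2 : |det2 R V| ≤ |M| := Int.le_of_dvd (abs_pos.2 hM)
      ((abs_dvd_abs _ _).2 ⟨c * det2 l R, by rw [← hR']; ring⟩)
    exact ⟨⟨(abs_le.1 h1).1, (abs_le.1 h1).2⟩, ⟨(abs_le.1 h2).1, (abs_le.1 h2).2⟩⟩
  · rintro ⟨r1, r2⟩ - ⟨s1, s2⟩ - h
    obtain ⟨l1, l2⟩ := l
    obtain ⟨V1, V2⟩ := V
    simp only [det2, Prod.mk.injEq] at h hD ⊢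
    obtain ⟨h1, h2⟩ := h
    constructor
    · apply mul_left_cancel₀ hD
      linear_combination l1 * h2 + V1 * h1
    · apply mul_left_cancel₀ hD
      linear_combination l2 * h2 + V2 * h1

/-- Telescoping. -/
lemma tele (g : ℕ → ℤ × ℤ) (hg : ∀ j, det2 (g j) (g (j + 1)) = (-1) ^ j) (R : ℤ × ℤ) (m : ℕ)
    (hR : ∀ j ≤ m, det2 R (g j) ≠ 0) :
    ∑ j ∈ Finset.range m, (-1 : ℂ) ^ j *
      (1 / ((det2 R (g j) : ℂ) * (det2 R (g (j + 1)) : ℂ))) =
      (det2 (g 0) (g m) : ℂ) / ((det2 R (g 0) : ℂ) * (det2 R (g m) : ℂ)) := by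
  induction m with
  | zero => simp [det2, mul_comm]
  | succ m ih =>
    rw [Finset.sum_range_succ, ih (fun j hj => hR j (hj.trans (Nat.le_succ m)))]
    have h0 : (det2 R (g 0) : ℂ) ≠ 0 := by exact_mod_cast hR 0 (Nat.zero_le _)
    have h1 : (det2 R (g m) : ℂ) ≠ 0 := by exact_mod_cast hR m (Nat.le_succ m)
    have h2 : (det2 R (g (m + 1)) : ℂ) ≠ 0 := by exact_mod_cast hR (m + 1) le_rfl
    have h3 : ((-1 : ℂ)) ^ m = (det2 (g m) (g (m + 1)) : ℂ) := by
      rw [hg m]
      push_cast
      rfl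
    have h4 : (det2 (g 0) (g m) : ℂ) * det2 R (g (m + 1)) +
        (det2 (g m) (g (m + 1)) : ℂ) * det2 R (g 0) = det2 (g 0) (g (m + 1)) * det2 R (g m) := by
      have : det2 (g 0) (g m) * det2 R (g (m + 1)) + det2 (g m) (g (m + 1)) * det2 R (g 0) =
          det2 (g 0) (g (m + 1)) * det2 R (g m) := by
        simp only [det2]
        ring
      exact_mod_cast this
    rw [h3]
    field_simp
    linear_combination h4

/-- the value of `N` in the basis `g, h` -/
lemma Nl_form (l V g h : ℤ × ℤ) (a b : ℤ) : Nl l V (b • g - a • h) =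
    b ^ 2 * Nl l V g + a ^ 2 * Nl l V h -
      a * b * (det2 l g * det2 h V + det2 l h * det2 g V) := by
  simp only [Nl, det2, Prod.smul_fst, Prod.smul_snd, Prod.fst_sub, Prod.snd_sub, smul_eq_mul]
  ring

lemma Nl_smul (l V : ℤ × ℤ) (ε : ℤ) (R : ℤ × ℤ) : Nl l V (ε • R) = ε ^ 2 * Nl l V R := by
  simp only [Nl, det2, Prod.smul_fst, Prod.smul_snd, smul_eq_mul]
  ring

/-- recovery of `R` -/
lemma recov (g h : ℤ × ℤ) (ε : ℤ) (hε : ε * ε = 1) (hgh : det2 g h = ε) (R : ℤ × ℤ) :
    ε • ((det2 R h) • g - (det2 R g) • h) = R := by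
  obtain ⟨r1, r2⟩ := R
  have hgh' : g.1 * h.2 - g.2 * h.1 = ε := hgh
  ext
  · simp only [det2, Prod.smul_fst, Prod.fst_sub, smul_eq_mul]
    linear_combination (ε * r1) * hgh' + r1 * hε
  · simp only [det2, Prod.smul_snd, Prod.snd_sub, smul_eq_mul]
    linear_combination (ε * r2) * hgh' + r2 * hε

/-- parity of the middle coefficient and of the product of the outer coefficients -/
lemma parity (l V g h : ℤ × ℤ) (ε : ℤ) (hε : ε * ε = 1) (hgh : det2 g h = ε)
    (hD : Odd (det2 l V)) :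
    Odd (det2 l g * det2 h V + det2 l h * det2 g V) ∧ Even (Nl l V h * Nl l V g) := by
  have hεo : Odd ε := by
    have : Odd (ε * ε) := by rw [hε]; exact odd_one
    exact (Int.odd_mul.1 this).1
  have h1 : det2 l g * det2 h V = det2 l h * det2 g V - det2 l V * ε := by
    rw [← hgh]
    simp only [det2]
    ring
  have hDe : Odd (det2 l V * ε) := hD.mul hεo
  constructor
  · rw [h1]
    have : det2 l h * det2 g V - det2 l V * ε + det2 l h * det2 g V =
        2 * (det2 l h * det2 g V) - det2 l V * ε := by ring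
    rw [this]
    exact (even_two_mul _).sub_odd hDe
  · have h2 : Nl l V h * Nl l V g =
        (det2 l h * det2 g V) * (det2 l h * det2 g V - det2 l V * ε) := by
      rw [← h1]
      simp only [Nl]
      ring
    rw [h2]
    rcases Int.even_or_odd (det2 l h * det2 g V) with h3 | h3
    · exact h3.mul_right _
    · exact (h3.sub_odd hDe).mul_left _

end LIMS

open LIMS in
theorem lims (hc : CHN_Stmt) (hq : LIMQ_Stmt) (hs : CSCL_Stmt) : LIMS_Stmt := by
  intro l x c M hD hcodd hM hne
  obtain ⟨c1, -⟩ := hc x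
  set V := lastv x with hV
  have hM' : M ≠ 0 := by
    rintro rfl
    simp at hM
  have hD' : det2 l V ≠ 0 := by
    intro h
    rw [h] at hD
    simp at hD
  have hfin := finite_sol c l V hD' M hM'
  let Z : Finset (ℤ × ℤ) := hfin.toFinset
  have hZ : ∀ R, R ∈ Z ↔ c * Nl l V R = M := fun R => by simp [Z, Nl]
  have hεε : ∀ j : ℕ, ((-1 : ℤ) ^ j) * (-1) ^ j = 1 := fun j => by
    rw [← mul_pow]; simp
  -- the limit for each `j`
  have key : ∀ j : ℕ, Tendsto (fun s : ℕ => ((π : ℂ) / 2 ^ s) ^ 2 *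
      CC (2 ^ s) l V (chain x j) (chain x (j + 1)) (fun v => chi s M (c * v))) atTop
      (𝓝 (∑ R ∈ Z, 1 / ((det2 R (chain x j) : ℂ) * (det2 R (chain x (j + 1)) : ℂ)))) := by
    intro j
    set g := chain x j with hgdef
    set h := chain x (j + 1) with hhdef
    have hgh : det2 g h = (-1) ^ j := c1 j
    set ε : ℤ := (-1) ^ j with hεdef
    have hε : ε * ε = 1 := hεε j
    have hε2 : ε ^ 2 = 1 := by rw [pow_two, hε]
    set B : ℤ := det2 l g * det2 h V + det2 l h * det2 g V with hB
    obtain ⟨hBodd, hAC⟩ := parity l V g h ε hε hgh hD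
    let ψ : ℤ × ℤ → ℤ × ℤ := fun R => (det2 R g, det2 R h)
    have hψ : Function.Injective ψ := by
      intro R S hRS
      rw [← recov g h ε hε hgh R, ← recov g h ε hε hgh S]
      have h1 : det2 R g = det2 S g := congrArg Prod.fst hRS
      have h2 : det2 R h = det2 S h := congrArg Prod.snd hRS
      rw [h1, h2]
    have hlim := hq (Nl l V h) (-B) (Nl l V g) c M hcodd hM hBodd.neg hAC
      (Z.image ψ) (by
        rintro ⟨a, b⟩
        simp only [Finset.mem_image]
        constructor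
        · rintro ⟨R, hR, hRab⟩
          have ha : det2 R g = a := congrArg Prod.fst hRab
          have hb : det2 R h = b := congrArg Prod.snd hRab
          rw [hZ] at hR
          rw [← hR, ← recov g h ε hε hgh R, Nl_smul, hε2, ha, hb, Nl_form]
          ring
        · intro hab
          refine ⟨ε • (b • g - a • h), ?_, ?_⟩
          · rw [hZ, Nl_smul, hε2, Nl_form, ← hab]
            ring
          · have hgh' : g.1 * h.2 - g.2 * h.1 = ε := hgh
            change (det2 _ g, det2 _ h) = (a, b)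
            simp only [det2, Prod.smul_fst, Prod.smul_snd, Prod.fst_sub, Prod.snd_sub,
              smul_eq_mul, Prod.mk.injEq]
            constructor
            · linear_combination (ε * a) * hgh' + a * hε
            · linear_combination (ε * b) * hgh' + b * hε)
    rw [Finset.sum_image hψ.injOn] at hlim
    refine hlim.congr ?_
    intro s
    congr 1
    unfold CC
    rw [sum_change (2 ^ s) g h ε hε hgh (fun a b R =>
      ct (2 ^ s) a * ct (2 ^ s) b * chi s M (c * Nlm (2 ^ s) l V R))]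
    refine Finset.sum_congr rfl fun a _ => Finset.sum_congr rfl fun b _ => ?_
    congr 2
    have hε3 : (ε : ZMod (2 ^ s)) ^ 2 = 1 := by
      have := congrArg (fun z : ℤ => (z : ZMod (2 ^ s))) hε2
      simpa using this
    simp only [Nlm, detm, Nl, hB, det2]
    push_cast
    linear_combination (-(c : ZMod (2 ^ s)) * ((b * g.1 - a * h.1) * l.2 - (b * g.2 - a * h.2) * l.1) *
      ((b * g.1 - a * h.1) * V.2 - (b * g.2 - a * h.2) * V.1)) * (-hε3)
  -- the `csc` sums
  have keyS : ∀ i ∈ Finset.range x.length, Tendsto (fun s : ℕ => ((π : ℂ) / 2 ^ s) ^ 2 *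
      CS (2 ^ s) (Nl l V (chain x (i + 1))) (fun v => chi s M (c * v))) atTop (𝓝 0) := by
    intro i hi
    rw [Finset.mem_range] at hi
    exact hs _ c M hcodd hM (hne (i + 1) (by omega))
  have hsum : Tendsto (fun s : ℕ => ∑ i ∈ Finset.range x.length, (2 * ((x.getD i 0 : ℤ) : ℂ)) *
      (((π : ℂ) / 2 ^ s) ^ 2 *
        CS (2 ^ s) (Nl l V (chain x (i + 1))) (fun v => chi s M (c * v))) +
      ∑ j ∈ Finset.range (x.length + 1), (-1 : ℂ) ^ j * (((π : ℂ) / 2 ^ s) ^ 2 *
        CC (2 ^ s) l V (chain x j) (chain x (j + 1)) (fun v => chi s M (c * v)))) atTop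
      (𝓝 (∑ i ∈ Finset.range x.length, (2 * ((x.getD i 0 : ℤ) : ℂ)) * 0 +
        ∑ j ∈ Finset.range (x.length + 1), (-1 : ℂ) ^ j *
        (∑ R ∈ Z, 1 / ((det2 R (chain x j) : ℂ) * (det2 R (chain x (j + 1)) : ℂ))))) :=
    (tendsto_finsetSum _ fun i hi => (keyS i hi).const_mul _).add
      (tendsto_finsetSum _ fun j _ => (key j).const_mul _)
  have hlimit : ∑ i ∈ Finset.range x.length, (2 * ((x.getD i 0 : ℤ) : ℂ)) * 0 +
        ∑ j ∈ Finset.range (x.length + 1), (-1 : ℂ) ^ j *
        (∑ R ∈ Z, 1 / ((det2 R (chain x j) : ℂ) * (det2 R (chain x (j + 1)) : ℂ))) =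
      ((zsum c l V M : ℚ) : ℂ) := by
    have h1 : ∀ R ∈ Z, ∑ j ∈ Finset.range (x.length + 1), (-1 : ℂ) ^ j *
        (1 / ((det2 R (chain x j) : ℂ) * (det2 R (chain x (j + 1)) : ℂ))) =
        -(V.2 : ℂ) / (R.2 * det2 R V) := by
      intro R hR
      rw [hZ] at hR
      have hne' : ∀ j ≤ x.length + 1, det2 R (chain x j) ≠ 0 := by
        intro j hj h0
        have h2 := recov (chain x j) (chain x (j + 1)) ((-1) ^ j) (hεε j) (c1 j) R
        rw [h0, zero_smul, sub_zero, smul_smul] at h2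
        apply hne j hj ((-1) ^ j * det2 R (chain x (j + 1)))
        rw [← Nl_smul, h2]
        exact hR
      rw [tele (chain x) c1 R (x.length + 1) hne']
      have h3 : chain x (x.length + 1) = V := rfl
      have h4 : chain x 0 = (1, 0) := by simp [chain]
      rw [h3, h4]
      have h5 : (det2 R (1, 0) : ℂ) = -(R.2 : ℂ) := by
        simp only [det2]
        push_cast
        ring
      have h6 : (det2 (1, 0) V : ℂ) = (V.2 : ℂ) := by simp [det2]
      rw [h5, h6, neg_mul, div_neg, neg_div]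
    simp_rw [mul_zero, Finset.sum_const_zero, zero_add, Finset.mul_sum]
    rw [Finset.sum_comm, Finset.sum_congr rfl h1]
    unfold zsum
    rw [finsum_mem_eq_finite_toFinset_sum _ hfin]
    push_cast
    rfl
  rw [← hlimit]
  refine hsum.congr ?_
  intro s
  rw [SG, mul_add, Finset.mul_sum, Finset.mul_sum, Finset.mul_sum, Finset.mul_sum]
  congr 1
  · refine Finset.sum_congr rfl fun j _ => ?_
    ring
  · refine Finset.sum_congr rfl fun j _ => ?_
    ring

end Pool.Agent.MTA
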