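import Pool.Agent.MTA.Stmts0
import Pool.Agent.MTR.Stmts

/-!
Montesinos knots, analysis part: LIMT, the limit of the sums of a Montesinos knot.
-/

open Filter Topology
open scoped BigOperators Real

namespace Pool.Agent.MTA

open Pool.Agent.TB Pool.Agent.MTR

namespace LIMT

/-- A large prime which divides `M` exactly once excludes `c ρ² N = M`. -/
theorem key {c N M : ℤ} {L q : ℕ} (hL : (c * N).natAbs ≤ L) (hq : q.Prime) (hLq : L < q)
    (h1 : (q : ℤ) ∣ M) (h2 : ¬ (q : ℤ) ^ 2 ∣ M) (ρ : ℤ) : c * (ρ ^ 2 * N) ≠ M := by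
  intro h
  have hqp : Prime (q : ℤ) := Nat.prime_iff_prime_int.mp hq
  have hM : M ≠ 0 := fun h0 => h2 (h0 ▸ dvd_zero _)
  have hcN : c * N ≠ 0 := by
    intro h0
    apply hM
    rw [← h]
    linear_combination ρ ^ 2 * h0
  have hnd : ¬ (q : ℤ) ∣ c * N := by
    intro hd
    have h3 := Int.le_of_dvd (by positivity : (0 : ℤ) < |c * N|) ((dvd_abs _ _).mpr hd)
    have h4 : (|c * N| : ℤ) = ((c * N).natAbs : ℤ) := Int.abs_eq_natAbs _
    have h5 : ((c * N).natAbs : ℤ) ≤ L := by exact_mod_cast hL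
    have h6 : (L : ℤ) < q := by exact_mod_cast hLq
    omega
  have h3 : (q : ℤ) ∣ (c * N) * ρ ^ 2 := by
    have : (c * N) * ρ ^ 2 = M := by rw [← h]; ring
    rw [this]; exact h1
  have h4 : (q : ℤ) ∣ ρ := hqp.dvd_of_dvd_pow ((hqp.dvd_or_dvd h3).resolve_left hnd)
  apply h2
  rw [← h]
  obtain ⟨t, rfl⟩ := h4
  exact ⟨c * t ^ 2 * N, by ring⟩

/-- The bound of a site. -/
def bd (c : ℤ) (l : ℤ × ℤ) (x : List ℤ) : ℕ :=
  ∑ j ∈ Finset.range (x.length + 2), (c * Nl l (lastv x) (chain x j)).natAbs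

theorem le_bd (c : ℤ) (l : ℤ × ℤ) (x : List ℤ) {j : ℕ} (hj : j ≤ x.length + 1) :
    (c * Nl l (lastv x) (chain x j)).natAbs ≤ bd c l x :=
  Finset.single_le_sum (f := fun j => (c * Nl l (lastv x) (chain x j)).natAbs)
    (fun _ _ => Nat.zero_le _) (Finset.mem_range.mpr (by omega))

end LIMT

theorem limt (had : ADV_Stmt) (hl : LIMS_Stmt) (hs : CSCL_Stmt) : LIMT_Stmt := by
  intro e ws hNF c hc
  obtain ⟨-, hA2, -, -, hA5⟩ := had
  obtain ⟨hD, -, hA⟩ := hA5 e ws hNF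
  refine ⟨(ws.map fun x => LIMT.bd c (lv e (ws.erase x)) x).sum + LIMT.bd c (lv e ws) [] +
    (c * -(totv e ws).2).natAbs, ?_⟩
  intro M hM ⟨q, hq, hLq, h1, h2⟩
  -- the sites of the words
  have hS : ∀ x ∈ ws, Tendsto (fun s : ℕ => 4 * ((π : ℂ) / 2 ^ s) ^ 2 *
      SG (2 ^ s) (lv e (ws.erase x)) x (fun v => chi s M (c * v))) atTop
      (𝓝 ((zsum c (lv e (ws.erase x)) (lastv x) M : ℚ) : ℂ)) := by
    intro x hx
    refine hl _ x c M ?_ hc hM ?_
    · rw [(hA x hx).2.1]; exact hD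
    · intro j hj ρ
      refine LIMT.key (L := (ws.map fun x => LIMT.bd c (lv e (ws.erase x)) x).sum +
        LIMT.bd c (lv e ws) [] + (c * -(totv e ws).2).natAbs) ?_ hq hLq h1 h2 ρ
      have h3 := LIMT.le_bd c (lv e (ws.erase x)) x hj
      have h4 : LIMT.bd c (lv e (ws.erase x)) x ≤
          (ws.map fun x => LIMT.bd c (lv e (ws.erase x)) x).sum :=
        List.single_le_sum (fun _ _ => Nat.zero_le _) _ (List.mem_map_of_mem hx)
      omega
  -- the empty site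
  have hE : Tendsto (fun s : ℕ => 4 * ((π : ℂ) / 2 ^ s) ^ 2 *
      SG (2 ^ s) (lv e ws) [] (fun v => chi s M (c * v))) atTop
      (𝓝 ((zsum c (lv e ws) (0, 1) M : ℚ) : ℂ)) := by
    have h0 : lastv [] = (0, 1) := rfl
    have := hl (lv e ws) [] c M ?_ hc hM ?_
    · rw [h0] at this; exact this
    · rw [h0, (hA2 e [] ws).2.2]; exact hD
    · intro j hj ρ
      refine LIMT.key (L := (ws.map fun x => LIMT.bd c (lv e (ws.erase x)) x).sum +
        LIMT.bd c (lv e ws) [] + (c * -(totv e ws).2).natAbs) ?_ hq hLq h1 h2 ρ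
      have h3 := LIMT.le_bd c (lv e ws) [] hj
      omega
  -- the half twists
  have hC : Tendsto (fun s : ℕ => ((π : ℂ) / 2 ^ s) ^ 2 *
      CS (2 ^ s) (-(totv e ws).2) (fun v => chi s M (c * v))) atTop (𝓝 0) := by
    refine hs _ c M hc hM fun ρ => ?_
    exact LIMT.key (L := (ws.map fun x => LIMT.bd c (lv e (ws.erase x)) x).sum +
        LIMT.bd c (lv e ws) [] + (c * -(totv e ws).2).natAbs) (by omega) hq hLq h1 h2 ρ
  have hsum := tendsto_list_sum (l := ws) (f := fun x (s : ℕ) => 4 * ((π : ℂ) / 2 ^ s) ^ 2 *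
      SG (2 ^ s) (lv e (ws.erase x)) x (fun v => chi s M (c * v))) hS
  have hlim := (hsum.sub (hE.const_mul ((ws.length : ℂ) - 2))).add (hC.const_mul ((e : ℂ)))
  have hval : ((Phi e ws c M : ℚ) : ℂ) =
      (ws.map fun x => ((zsum c (lv e (ws.erase x)) (lastv x) M : ℚ) : ℂ)).sum -
        ((ws.length : ℂ) - 2) * ((zsum c (lv e ws) (0, 1) M : ℚ) : ℂ) + (e : ℂ) * 0 := by
    have h3 : (((ws.map fun x => zsum c (lv e (ws.erase x)) (lastv x) M).sum : ℚ) : ℂ) =
        (ws.map fun x => ((zsum c (lv e (ws.erase x)) (lastv x) M : ℚ) : ℂ)).sum := by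
      have := map_list_sum (Rat.castHom ℂ)
        (ws.map fun x => zsum c (lv e (ws.erase x)) (lastv x) M)
      simpa [List.map_map, Function.comp_def] using this
    rw [← h3, Phi]
    simp only [Rat.cast_sub, Rat.cast_mul, Rat.cast_natCast, Rat.cast_ofNat]
    ring
  rw [hval]
  refine hlim.congr fun s => ?_
  have h4 : (ws.map fun x => 4 * ((π : ℂ) / 2 ^ s) ^ 2 *
      SG (2 ^ s) (lv e (ws.erase x)) x (fun v => chi s M (c * v))).sum =
      4 * ((π : ℂ) / 2 ^ s) ^ 2 * (ws.map fun x =>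
        SG (2 ^ s) (lv e (ws.erase x)) x (fun v => chi s M (c * v))).sum :=
    List.sum_map_mul_left _ _ _
  rw [h4, TG]
  ring

end Pool.Agent.MTA
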