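import Pool.Agent.MTA.Stmts
import Pool.Agent.MTR.Stmts

/-!
Montesinos knots, analysis part: the value in the model does not vanish (MNZ).
-/

open scoped BigOperators Real

namespace Pool.Agent.MTA

open Pool.Agent.TB Pool.Agent.MTR Pool.Agent.MT

namespace MNZ

/-- If the pairing vanishes, the two vectors are related pointwise. -/
lemma key (hz : ZT_Stmt) (hp : PRS_Stmt) (n h : ℕ) [NeZero n] (hnh : n = 2 * h) (ι : ℤ)
    (hι : IsCoprime ι (2 * n : ℤ)) (l V : ℤ × ℤ) (Φ ψ : Fn n) (hΦ : Stab n ι (-l.1, l.2) Φ)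
    (hψ : Stab n ι V ψ) (δ : ℤ) (hδ : (δ * det2 l V : ZMod n) = 1) (h0 : pr n Φ ψ = 0) (b : ℤ) :
    Φ 0 * ψ (2 * (b : ZMod (2 * n))) +
      Φ ((n : ℕ) : ZMod (2 * n)) * ψ (((n : ℕ) : ZMod (2 * n)) + 2 * (b : ZMod (2 * n))) = 0 := by
  obtain ⟨-, z2, -, -, z5, -, -, -⟩ := hz n ι hι
  have hn0 : n ≠ 0 := NeZero.ne n
  have e1 : ∀ a : ℤ, pr n Φ (Tt n ι a b ψ) = 0 := by
    intro a
    have h1 := (hp n ι hι).2 l V Φ ψ hΦ hψ δ hδ (a, b)
    rw [h0, zero_mul] at h1
    exact h1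
  have e2 : ∀ k : ZMod (2 * n), ∑ w ∈ Finset.range n,
      Φ (2 * (w : ZMod (2 * n))) * ψ (2 * (w : ZMod (2 * n)) + 2 * (b : ZMod (2 * n))) *
        zt n ι (k * (4 * (w : ZMod (2 * n)))) = 0 := by
    intro k
    have h1 := e1 (k.val : ℤ)
    have hk : (((k.val : ℕ) : ℤ) : ZMod (2 * n)) = k := by
      rw [Int.cast_natCast, ZMod.natCast_zmod_val]
    have h2 : ∀ w : ℕ, Φ (2 * (w : ZMod (2 * n))) *
        ψ (2 * (w : ZMod (2 * n)) + 2 * (b : ZMod (2 * n))) *
        zt n ι (k * (4 * (w : ZMod (2 * n)))) =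
        zt n ι (-(2 * k * (b : ZMod (2 * n)))) * (Φ (2 * (w : ZMod (2 * n))) *
          (Tt n ι (k.val : ℤ) b ψ) (2 * (w : ZMod (2 * n)))) := by
      intro w
      have h3 : (Tt n ι (k.val : ℤ) b ψ) (2 * (w : ZMod (2 * n))) =
          zt n ι (2 * k * (b : ZMod (2 * n)) + 2 * k * (2 * (w : ZMod (2 * n)))) *
            ψ (2 * (w : ZMod (2 * n)) + 2 * (b : ZMod (2 * n))) := by
        change zt n ι (2 * (((k.val : ℕ) : ℤ) : ZMod (2 * n)) * (b : ZMod (2 * n)) +
          2 * (((k.val : ℕ) : ℤ) : ZMod (2 * n)) * (2 * (w : ZMod (2 * n)))) *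
            ψ (2 * (w : ZMod (2 * n)) + 2 * (b : ZMod (2 * n))) = _
        rw [hk]
      have h4 : zt n ι (k * (4 * (w : ZMod (2 * n)))) =
          zt n ι (-(2 * k * (b : ZMod (2 * n)))) *
          zt n ι (2 * k * (b : ZMod (2 * n)) + 2 * k * (2 * (w : ZMod (2 * n)))) := by
        rw [← z2]
        congr 1
        ring
      rw [h3, h4]
      ring
    rw [Finset.sum_congr rfl fun w _ => h2 w, ← Finset.mul_sum]
    unfold pr at h1
    rw [h1, mul_zero]
  have e3 : ∑ w ∈ Finset.range n,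
      Φ (2 * (w : ZMod (2 * n))) * ψ (2 * (w : ZMod (2 * n)) + 2 * (b : ZMod (2 * n))) *
        (if (4 * (w : ZMod (2 * n))) = 0 then (2 * n : ℂ) else 0) = 0 := by
    have h1 : ∑ k : ZMod (2 * n), ∑ w ∈ Finset.range n,
      Φ (2 * (w : ZMod (2 * n))) * ψ (2 * (w : ZMod (2 * n)) + 2 * (b : ZMod (2 * n))) *
        zt n ι (k * (4 * (w : ZMod (2 * n)))) = 0 :=
      Finset.sum_eq_zero fun k _ => e2 k
    rw [Finset.sum_comm] at h1
    refine Eq.trans ?_ h1
    refine Finset.sum_congr rfl fun w _ => ?_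
    rw [← z5, Finset.mul_sum]
  have hh0 : h ≠ 0 := by
    rintro rfl
    exact hn0 hnh
  have hiff : ∀ w : ℕ, (4 * (w : ZMod (2 * n))) = 0 ↔ h ∣ w := by
    intro w
    have h1 : (4 * (w : ZMod (2 * n))) = ((4 * w : ℕ) : ZMod (2 * n)) := by push_cast; ring
    rw [h1, ZMod.natCast_eq_zero_iff, hnh, show 2 * (2 * h) = 4 * h by ring]
    exact Nat.mul_dvd_mul_iff_left (by norm_num)
  have e4 : ∑ w ∈ Finset.range n,
      Φ (2 * (w : ZMod (2 * n))) * ψ (2 * (w : ZMod (2 * n)) + 2 * (b : ZMod (2 * n))) *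
        (if (4 * (w : ZMod (2 * n))) = 0 then (2 * n : ℂ) else 0) =
      ∑ w ∈ ({0, h} : Finset ℕ),
      Φ (2 * (w : ZMod (2 * n))) * ψ (2 * (w : ZMod (2 * n)) + 2 * (b : ZMod (2 * n))) *
        (if (4 * (w : ZMod (2 * n))) = 0 then (2 * n : ℂ) else 0) := by
    symm
    apply Finset.sum_subset
    · intro w hw
      simp only [Finset.mem_insert, Finset.mem_singleton] at hw
      rw [Finset.mem_range]
      omega
    · intro w hw hw'
      rw [Finset.mem_range] at hw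
      simp only [Finset.mem_insert, Finset.mem_singleton, not_or] at hw'
      rw [if_neg, mul_zero]
      rw [hiff]
      rintro ⟨k, rfl⟩
      rcases k with _ | _ | k
      · exact hw'.1 (by ring)
      · exact hw'.2 (by ring)
      · have : 2 * h ≤ h * (k + 1 + 1) := by nlinarith
        omega
  rw [e4, Finset.sum_pair (Ne.symm hh0), if_pos ((hiff 0).2 (dvd_zero _)),
    if_pos ((hiff h).2 dvd_rfl)] at e3
  have h5 : (2 * (h : ZMod (2 * n))) = ((n : ℕ) : ZMod (2 * n)) := by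
    have h6 : (2 * (h : ZMod (2 * n))) = ((2 * h : ℕ) : ZMod (2 * n)) := by push_cast; ring
    rw [h6, ← hnh]
  rw [h5, Nat.cast_zero, mul_zero, zero_add, ← add_mul] at e3
  have h6 : (2 * n : ℂ) ≠ 0 := by
    have : (n : ℂ) ≠ 0 := by exact_mod_cast hn0
    simpa using this
  exact (mul_eq_zero.1 e3).resolve_right h6

/-- the word of chirps as an operator -/
noncomputable def Wl (n : ℕ) [NeZero n] (ι : ℤ) : Bool → List ℤ → Module.End ℂ (Fn n)
  | _, [] => 1
  | false, a :: l => Dc n ι a * Wl n ι true l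
  | true, a :: l => Cc n ι a * Wl n ι false l

lemma vecg_fst (n : ℕ) [NeZero n] (ι : ℤ) (B : Fn n × Fn n) :
    ∀ (l : List ℤ) (b : Bool), (vecg n ι B b l).1 = Wl n ι b l B.1
  | [], b => by cases b <;> rfl
  | a :: l, false => by
      have h := vecg_fst n ι B l true
      change Dc n ι a (vecg n ι B true l).1 = Dc n ι a (Wl n ι true l B.1)
      rw [h]
  | a :: l, true => by
      have h := vecg_fst n ι B l false
      change Cc n ι a (vecg n ι B false l).1 = Cc n ι a (Wl n ι false l B.1)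
      rw [h]

lemma Wl_inj (he : EGO_Stmt) (n : ℕ) [NeZero n] (ι : ℤ) (hι : IsCoprime ι (2 * n : ℤ)) :
    ∀ (l : List ℤ) (b : Bool), Function.Injective (Wl n ι b l)
  | [], b => by
      cases b
      · exact fun x y h => h
      · exact fun x y h => h
  | a :: l, false => by
      have h := Wl_inj he n ι hι l true
      intro x y hxy
      apply h
      have h1 := ((he n ι hι).2.2.2.1 (-a)).2
      rw [neg_neg] at h1
      have h2 : ∀ f : Fn n, Dc n ι (-a) (Dc n ι a f) = f := fun f => by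
        have := congrArg (fun T : Module.End ℂ (Fn n) => T f) h1
        exact this
      rw [← h2 (Wl n ι true l x), ← h2 (Wl n ι true l y)]
      exact congrArg (Dc n ι (-a)) hxy
  | a :: l, true => by
      have h := Wl_inj he n ι hι l false
      intro x y hxy
      apply h
      have h1 := ((he n ι hι).2.2.2.1 (-a)).1
      rw [neg_neg] at h1
      have h2 : ∀ f : Fn n, Cc n ι (-a) (Cc n ι a f) = f := fun f => by
        have := congrArg (fun T : Module.End ℂ (Fn n) => T f) h1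
        exact this
      rw [← h2 (Wl n ι false l x), ← h2 (Wl n ι false l y)]
      exact congrArg (Cc n ι (-a)) hxy

/-- translation by `n` -/
def sh (n : ℕ) (f : Fn n) : Fn n := fun u => f (u + (n : ℕ))

lemma Cc_sh (n h : ℕ) [NeZero n] (hnh : n = 2 * h) (ι a : ℤ) (f : Fn n) :
    Cc n ι a (sh n f) = sh n (Cc n ι a f) := by
  funext u
  change zt n ι (a * u ^ 2) * f (u + (n : ℕ)) = zt n ι (a * (u + (n : ℕ)) ^ 2) * f (u + (n : ℕ))
  have h1 : ((2 * n : ℕ) : ZMod (2 * n)) = 0 := ZMod.natCast_self _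
  have h2 : (2 : ZMod (2 * n)) * (n : ZMod (2 * n)) = 0 := by
    rw [← h1]; push_cast; ring
  have h3 : (n : ZMod (2 * n)) * (n : ZMod (2 * n)) = 0 := by
    have h4 : (n : ZMod (2 * n)) = 2 * (h : ZMod (2 * n)) := by
      have h5 : (n : ZMod (2 * n)) = ((2 * h : ℕ) : ZMod (2 * n)) := by rw [← hnh]
      rw [h5]; push_cast; ring
    have h6 : (n : ZMod (2 * n)) * (n : ZMod (2 * n)) =
        (h : ZMod (2 * n)) * (2 * (n : ZMod (2 * n))) := by
      calc (n : ZMod (2 * n)) * (n : ZMod (2 * n)) =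
          (2 * (h : ZMod (2 * n))) * (n : ZMod (2 * n)) := by rw [← h4]
        _ = _ := by ring
    rw [h6, h2, mul_zero]
  have h7 : (a : ZMod (2 * n)) * (u + (n : ℕ)) ^ 2 = a * u ^ 2 := by
    linear_combination (a * u : ZMod (2 * n)) * h2 + (a : ZMod (2 * n)) * h3
  rw [h7]

lemma Dc_sh (n : ℕ) [NeZero n] (ι a : ℤ) (f : Fn n) :
    Dc n ι a (sh n f) = sh n (Dc n ι a f) := by
  funext u
  change (1 / (2 * n : ℂ)) * ∑ k, ∑ v, zt n ι (a * k ^ 2) * zt n ι (k * (u - v)) *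
      f (v + (n : ℕ)) =
    (1 / (2 * n : ℂ)) * ∑ k, ∑ v, zt n ι (a * k ^ 2) * zt n ι (k * (u + (n : ℕ) - v)) * f v
  congr 1
  refine Finset.sum_congr rfl fun k _ => ?_
  refine Fintype.sum_equiv (Equiv.addRight ((n : ℕ) : ZMod (2 * n))) _ _ fun v => ?_
  simp only [Equiv.coe_addRight]
  congr 3
  ring

lemma Wl_sh (n h : ℕ) [NeZero n] (hnh : n = 2 * h) (ι : ℤ) (f : Fn n) :
    ∀ (l : List ℤ) (b : Bool), Wl n ι b l (sh n f) = sh n (Wl n ι b l f)
  | [], b => by cases b <;> rfl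
  | a :: l, false => by
      have h1 := Wl_sh n h hnh ι f l true
      change Dc n ι a (Wl n ι true l (sh n f)) = sh n (Dc n ι a (Wl n ι true l f))
      rw [h1, Dc_sh]
  | a :: l, true => by
      have h1 := Wl_sh n h hnh ι f l false
      change Cc n ι a (Wl n ι false l (sh n f)) = sh n (Cc n ι a (Wl n ι false l f))
      rw [h1, Cc_sh n h hnh]

/-- the recursion with the base of the flag `false` is `vec` -/
lemma vecg_vec (n : ℕ) [NeZero n] (ι : ℤ) :
    ∀ (l : List ℤ) (b : Bool), vecg n ι (bs n ι false) b l = vec n ι b l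
  | [], b => by cases b <;> rfl
  | a :: l, false => by
      have h := vecg_vec n ι l true
      simp only [vecg, vec, h]
  | a :: l, true => by
      have h := vecg_vec n ι l false
      simp only [vecg, vec, h]

lemma coprime_two_pow (a : ℤ) (ha : Odd a) (k : ℕ) : IsCoprime a ((2 : ℤ) ^ k) := by
  apply IsCoprime.pow_right
  obtain ⟨m, hm⟩ := ha
  exact ⟨1, -m, by rw [hm]; ring⟩

lemma fe_zero (hz : ZT_Stmt) (n : ℕ) [NeZero n] (ι : ℤ) (hι : IsCoprime ι (2 * n : ℤ)) (e : ℤ) :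
    fe n ι e 0 = 1 := by
  unfold fe
  rw [ZMod.val_zero, if_pos (by exact ⟨0, rfl⟩)]
  have h1 : ((2 * e * ((0 / 2 : ℕ) : ℤ) ^ 2 : ℤ) : ZMod (2 * n)) = 0 := by simp
  rw [h1]
  exact (hz n ι hι).1

lemma fe_n (hz : ZT_Stmt) (n k : ℕ) [NeZero n] (hn : n = 4 * k) (ι : ℤ)
    (hι : IsCoprime ι (2 * n : ℤ)) (e : ℤ) : fe n ι e ((n : ℕ) : ZMod (2 * n)) = 1 := by
  have hn0 : 0 < n := Nat.pos_of_ne_zero (NeZero.ne n)
  have hv : ((n : ℕ) : ZMod (2 * n)).val = n := by
    rw [ZMod.val_natCast]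
    exact Nat.mod_eq_of_lt (by omega)
  unfold fe
  rw [hv, if_pos ⟨2 * k, by omega⟩]
  have h0 : n / 2 = 2 * k := by omega
  have h1 : ((2 * e * ((n / 2 : ℕ) : ℤ) ^ 2 : ℤ) : ZMod (2 * n)) = 0 := by
    rw [ZMod.intCast_zmod_eq_zero_iff_dvd, h0]
    refine ⟨e * k, ?_⟩
    rw [hn]
    push_cast
    ring
  rw [h1]
  exact (hz n ι hι).1

/-- the value of `Pp` at `0` -/
lemma Pp_zero (hz : ZT_Stmt) (hj : JNZ_Stmt) (hc : CHN_Stmt) (s : ℕ) (ι : ℤ)
    (hs : 1 ≤ s) (hι : IsCoprime ι (2 * (2 ^ s : ℕ) : ℤ)) (e : ℤ) (ts : List (Bool × List ℤ))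
    (h : ∀ t ∈ ts, t.1 = false ∧ Even t.2.length) : Pp (2 ^ s) ι e ts 0 ≠ 0 := by
  unfold Pp
  rw [fe_zero hz (2 ^ s) ι hι, one_mul]
  apply List.prod_ne_zero
  intro h0
  rw [List.mem_map] at h0
  obtain ⟨t, ht, h0⟩ := h0
  obtain ⟨hf, hev⟩ := h t ht
  have h1 : (vt (2 ^ s) ι t) = vec (2 ^ s) ι false t.2.reverse := by
    unfold vt
    rw [hf, vecg_vec]
  have hev' : Even t.2.reverse.length := by rw [List.length_reverse]; exact hev
  have hodd : Odd (lastv t.2.reverse).2 := ((hc t.2.reverse).2.2.1 _ hev'.add_one).2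
  have hcop : IsCoprime (lastv t.2.reverse).2 ((2 ^ s : ℕ) : ℤ) := by
    have := coprime_two_pow _ hodd s
    rwa [show (((2 ^ s : ℕ) : ℤ)) = (2 : ℤ) ^ s by push_cast; rfl]
  have heven : Even (2 ^ s : ℕ) := by
    rw [Nat.even_pow]
    exact ⟨even_two, by omega⟩
  have h2 := (hj (2 ^ s) ι hι heven t.2.reverse hev').1 hcop
  rw [← h1, h0] at h2
  simp at h2

end MNZ

open MNZ in
theorem mnz (hz : ZT_Stmt) (he : EGO_Stmt) (hj : JNZ_Stmt) (hc : CHN_Stmt) (had : ADV_Stmt)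
    (hn : NFE_Stmt) (hm : MTD_Stmt) (hs : STB_Stmt) (hp : PRS_Stmt) (ht : TMS_Stmt) :
    MNZ_Stmt := by
  intro ts e hN s hs2 ι hι h0
  obtain ⟨hNF, hflag, herase, -⟩ := hn ts e hN
  obtain ⟨⟨hPF, -, hPF3⟩, -⟩ := hN
  have hι' : IsCoprime ι (2 * (2 ^ s : ℕ) : ℤ) := by
    have h1 := coprime_two_pow ι hι (s + 1)
    rwa [show (2 * (2 ^ s : ℕ) : ℤ) = (2 : ℤ) ^ (s + 1) by push_cast; ring]
  obtain ⟨k, hk⟩ : ∃ k, (2 ^ s : ℕ) = 4 * k := ⟨2 ^ (s - 2), by
    rw [show (4 : ℕ) = 2 ^ 2 by norm_num, ← pow_add]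
    congr 1
    omega⟩
  have heven : Even (2 ^ s : ℕ) := ⟨2 * k, by omega⟩
  have hnh : (2 ^ s : ℕ) = 2 * (2 * k) := by omega
  rw [(hm (2 ^ s) ι ts e).1] at h0
  obtain ⟨-, -, -, -, hA5⟩ := had
  obtain ⟨hDodd, -, hdet⟩ := hA5 e (wrds ts) hNF
  have hmod : ∀ D : ℤ, Odd D → ∃ δ : ℤ, ((δ : ZMod (2 ^ s)) * (D : ZMod (2 ^ s))) = 1 := by
    intro D hD
    obtain ⟨u, v, huv⟩ := coprime_two_pow D hD s
    refine ⟨u, ?_⟩
    have h1 := congrArg (fun z : ℤ => (z : ZMod (2 ^ s))) huv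
    simp only [Int.cast_add, Int.cast_mul, Int.cast_one] at h1
    have h2 : (((2 : ℤ) ^ s : ℤ) : ZMod (2 ^ s)) = 0 := by
      have h3 : (((2 ^ s : ℕ) : ℕ) : ZMod (2 ^ s)) = 0 := ZMod.natCast_self _
      have h4 : (((2 : ℤ) ^ s : ℤ) : ZMod (2 ^ s)) = (((2 ^ s : ℕ) : ℕ) : ZMod (2 ^ s)) := by
        push_cast
        rfl
      rw [h4, h3]
    rw [h2, mul_zero, add_zero] at h1
    exact h1
  -- the tangles with the flag `false`
  have hPhi : ∀ rest : List (Bool × List ℤ), (∀ t ∈ rest, t.1 = false ∧ Even t.2.length) →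
      Pp (2 ^ s) ι e rest ((2 ^ s : ℕ) : ZMod (2 * 2 ^ s)) = Pp (2 ^ s) ι e rest 0 := by
    intro rest hrest
    unfold Pp
    rw [fe_zero hz (2 ^ s) ι hι', fe_n hz (2 ^ s) k hk ι hι', one_mul, one_mul]
    congr 1
    refine List.map_congr_left fun t htr => ?_
    have hf := (hrest t htr).1
    obtain ⟨b, x⟩ := t
    simp only at hf
    subst hf
    have h1 := (ht (2 ^ s) ι heven hι').2.1 x 0
    have h2 := congrArg TrivSqZeroExt.fst h1
    simp only [du, TrivSqZeroExt.fst_add, TrivSqZeroExt.fst_inl, TrivSqZeroExt.fst_inr,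
      add_zero, zero_add] at h2
    exact h2
  have hparity : ∀ t ∈ ts, t.1 = false → Even t.2.length := hPF
  rcases hPF3 with ⟨hntr, -⟩ | ⟨hntr, -⟩
  · -- no word of odd length
    have hall : ∀ t ∈ ts, t.1 = false ∧ Even t.2.length := by
      intro t htt
      have h1 : t.1 = false := by
        unfold ntr at hntr
        rw [List.countP_eq_zero] at hntr
        simpa using hntr t htt
      exact ⟨h1, hparity t htt h1⟩
    have hst : Stab (2 ^ s) ι (-(lv e (wrds ts)).1, (lv e (wrds ts)).2) (Pp (2 ^ s) ι e ts) := by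
      have h1 := (hs (2 ^ s) ι hι').2.2.2 e ts hflag
      have h2 : (-(lv e (wrds ts)).1, (lv e (wrds ts)).2) = totv e (wrds ts) := by
        simp [lv]
      rw [h2]
      exact h1
    have hst1 : Stab (2 ^ s) ι (0, 1) (1 : Fn (2 ^ s)) := by
      intro b
      have h1 := (he (2 ^ s) ι hι').2.2.2.2.2.2 b
      rw [show b * ((0 : ℤ), (1 : ℤ)).1 = 0 by simp, show b * ((0 : ℤ), (1 : ℤ)).2 = b by simp]
      exact h1
    obtain ⟨δ, hδ⟩ := hmod (DD e (wrds ts)) hDodd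
    have hdet0 : det2 (lv e (wrds ts)) (0, 1) = DD e (wrds ts) := by
      simp [det2, lv, DD]
    have h1 := key hz hp (2 ^ s) (2 * k) hnh ι hι' (lv e (wrds ts)) (0, 1) _ 1 hst hst1 δ
      (by rw [hdet0]; exact hδ) h0 0
    rw [hPhi ts hall] at h1
    have h2 := Pp_zero hz hj hc s ι (by omega) hι' e ts hall
    simp only [Pi.one_apply, mul_one] at h1
    apply h2
    have h3 : (2 : ℂ) * Pp (2 ^ s) ι e ts 0 = 0 := by rw [two_mul]; exact h1
    exact (mul_eq_zero.1 h3).resolve_left (by norm_num)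
  · -- one word of odd length
    obtain ⟨t, htt, hft⟩ : ∃ t ∈ ts, t.1 = true := by
      by_contra hcon
      push Not at hcon
      have h1 : ntr ts = 0 := by
        unfold ntr
        rw [List.countP_eq_zero]
        intro t ht'
        exact hcon t ht'
      omega
    obtain ⟨her, hperm⟩ := herase t htt
    have hrest : ∀ t' ∈ ts.erase t, t'.1 = false ∧ Even t'.2.length := by
      have h1 : ntr (ts.erase t) = 0 := by
        have h2 := hperm.countP_eq (fun t => t.1)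
        rw [List.countP_cons_of_pos (by exact hft)] at h2
        unfold ntr at hntr ⊢
        omega
      intro t' ht'
      unfold ntr at h1
      rw [List.countP_eq_zero] at h1
      have h3 : t'.1 = false := by simpa using h1 t' ht'
      exact ⟨h3, hparity t' (List.mem_of_mem_erase ht') h3⟩
    have hstr : Stab (2 ^ s) ι (-(lv e (wrds (ts.erase t))).1, (lv e (wrds (ts.erase t))).2)
        (Pp (2 ^ s) ι e (ts.erase t)) := by
      have h1 := (hs (2 ^ s) ι hι').2.2.2 e (ts.erase t)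
        (fun t' ht' => hflag t' (List.mem_of_mem_erase ht'))
      have h2 : (-(lv e (wrds (ts.erase t))).1, (lv e (wrds (ts.erase t))).2) =
          totv e (wrds (ts.erase t)) := by
        simp [lv]
      rw [h2]
      exact h1
    have hstt := (hs (2 ^ s) ι hι').2.2.1 t (hflag t htt)
    have hmem : t.2.reverse ∈ wrds ts := List.mem_map.2 ⟨t, htt, rfl⟩
    have hdett : det2 (lv e (wrds (ts.erase t))) (lastv t.2.reverse) = DD e (wrds ts) := by
      rw [her]
      exact (hdet _ hmem).2.1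
    obtain ⟨δ, hδ⟩ := hmod (DD e (wrds ts)) hDodd
    have h0' : pr (2 ^ s) (Pp (2 ^ s) ι e (ts.erase t)) (vt (2 ^ s) ι t).1 = 0 := by
      rw [← h0]
      unfold pr
      refine Finset.sum_congr rfl fun w _ => ?_
      unfold Pp
      rw [(hperm.map fun t => (vt (2 ^ s) ι t).1 (2 * (w : ZMod (2 * 2 ^ s)))).prod_eq,
        List.map_cons, List.prod_cons, Pi.one_apply]
      ring
    have hkey := key hz hp (2 ^ s) (2 * k) hnh ι hι' _ _ _ _ hstr hstt δ
      (by rw [hdett]; exact hδ) h0'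
    have h2 := Pp_zero hz hj hc s ι (by omega) hι' e (ts.erase t) hrest
    set ψ := (vt (2 ^ s) ι t).1 with hψ
    -- even positions
    have hev : ∀ b : ℤ, ψ (2 * (b : ZMod (2 * 2 ^ s))) +
        ψ (((2 ^ s : ℕ) : ZMod (2 * 2 ^ s)) + 2 * (b : ZMod (2 * 2 ^ s))) = 0 := by
      intro b
      have h1 := hkey b
      rw [hPhi _ hrest, ← mul_add] at h1
      exact (mul_eq_zero.1 h1).resolve_left h2
    -- odd positions
    have hodd : ∀ w : ℕ, ψ ((2 * w + 1 : ℕ) : ZMod (2 * 2 ^ s)) = 0 := by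
      intro w
      have h1 := (ht (2 ^ s) ι heven hι').2.2 t.2 w
      have h3 : (true, t.2) = t := by rw [← hft]
      rw [h3] at h1
      have h4 := congrArg TrivSqZeroExt.fst h1
      simp only [du, TrivSqZeroExt.fst_add, TrivSqZeroExt.fst_inl, TrivSqZeroExt.fst_inr,
        add_zero, TrivSqZeroExt.fst_zero] at h4
      exact h4
    have hsum : ∀ u : ZMod (2 * 2 ^ s), ψ u + ψ (u + ((2 ^ s : ℕ) : ZMod (2 * 2 ^ s))) = 0 := by
      intro u
      obtain ⟨v, rfl⟩ : ∃ v : ℕ, ((v : ℕ) : ZMod (2 * 2 ^ s)) = u :=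
        ⟨u.val, ZMod.natCast_zmod_val u⟩
      rcases Nat.even_or_odd' v with ⟨w, rfl | rfl⟩
      · have h1 := hev (w : ℤ)
        have h3 : ((2 * w : ℕ) : ZMod (2 * 2 ^ s)) = 2 * (((w : ℕ) : ℤ) : ZMod (2 * 2 ^ s)) := by
          push_cast
          rfl
        rw [h3, add_comm (2 * (((w : ℕ) : ℤ) : ZMod (2 * 2 ^ s))) _]
        exact h1
      · have h1 := hodd w
        have h3 := hodd (w + 2 * k)
        have h4 : ((2 * w + 1 : ℕ) : ZMod (2 * 2 ^ s)) + ((2 ^ s : ℕ) : ZMod (2 * 2 ^ s)) =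
            ((2 * (w + 2 * k) + 1 : ℕ) : ZMod (2 * 2 ^ s)) := by
          rw [← Nat.cast_add]
          congr 1
          omega
        rw [h4, h1, h3, add_zero]
    -- the word of chirps
    have hW : ψ = Wl (2 ^ s) ι false t.2.reverse (bs (2 ^ s) ι true).1 := by
      rw [hψ]
      unfold vt
      rw [hft]
      exact vecg_fst (2 ^ s) ι _ _ _
    have hz0 : Wl (2 ^ s) ι false t.2.reverse
        ((bs (2 ^ s) ι true).1 + sh (2 ^ s) (bs (2 ^ s) ι true).1) = 0 := by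
      rw [map_add, Wl_sh (2 ^ s) (2 * k) hnh, ← hW]
      funext u
      exact hsum u
    have hz1 : (bs (2 ^ s) ι true).1 + sh (2 ^ s) (bs (2 ^ s) ι true).1 = 0 := by
      apply Wl_inj he (2 ^ s) ι hι' t.2.reverse false
      rw [hz0, map_zero]
    have hz2 := congrFun hz1 0
    have hn0 : ((2 ^ s : ℕ) : ZMod (2 * 2 ^ s)) ≠ 0 := by
      rw [Ne, ZMod.natCast_eq_zero_iff]
      intro hdvd
      have h3 : 0 < 2 ^ s := by positivity
      have h4 := Nat.le_of_dvd h3 hdvd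
      omega
    have hz3 : (bs (2 ^ s) ι true).1 0 = 1 := if_pos rfl
    have hz4 : sh (2 ^ s) (bs (2 ^ s) ι true).1 0 = 0 := by
      change (if (0 + ((2 ^ s : ℕ) : ZMod (2 * 2 ^ s))) = 0 then (1 : ℂ) else 0) = 0
      rw [zero_add, if_neg hn0]
    rw [Pi.add_apply, hz3, hz4, Pi.zero_apply] at hz2
    norm_num at hz2

end Pool.Agent.MTA
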