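import Pool.Agent.MTA.Stmts

/-!
MTD: the two components of the value in the model.
-/

open scoped BigOperators Real

namespace Pool.Agent.MTA

open Pool.Agent.TB Pool.Agent.MTR Pool.Agent.MT

namespace MTD

theorem prod_erase (f : Bool × List ℤ → ℂ) {l : List (Bool × List ℤ)} {t : Bool × List ℤ}
    (h : t ∈ l) : (l.map f).prod = f t * ((l.erase t).map f).prod := by
  have h1 := ((List.perm_cons_erase h).map f).prod_eq
  rw [h1, List.map_cons, List.prod_cons]

/-- the Leibniz rule -/
theorem leibniz (f g : Bool × List ℤ → ℂ) : ∀ l : List (Bool × List ℤ),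
    (((l.map fun t => (TrivSqZeroExt.inl (f t) + TrivSqZeroExt.inr (g t) : DualNumber ℂ)).prod).fst =
      (l.map f).prod) ∧
    (((l.map fun t => (TrivSqZeroExt.inl (f t) + TrivSqZeroExt.inr (g t) : DualNumber ℂ)).prod).snd =
      (l.map fun t => ((l.erase t).map f).prod * g t).sum) := by
  intro l
  induction l with
  | nil => simp
  | cons t l ih =>
    obtain ⟨h1, h2⟩ := ih
    constructor
    · rw [List.map_cons, List.prod_cons, TrivSqZeroExt.fst_mul, h1]
      simp
    · rw [List.map_cons, List.prod_cons, TrivSqZeroExt.snd_mul, h1, h2]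
      simp only [TrivSqZeroExt.fst_add, TrivSqZeroExt.fst_inl, TrivSqZeroExt.fst_inr, add_zero,
        TrivSqZeroExt.snd_add, TrivSqZeroExt.snd_inl, TrivSqZeroExt.snd_inr, zero_add,
        smul_eq_mul, MulOpposite.smul_eq_mul_unop, MulOpposite.unop_op]
      rw [List.map_cons, List.sum_cons, List.erase_cons_head, add_comm]
      congr 1
      · ring
      · rw [← List.sum_map_mul_left]
        congr 1
        refine List.map_congr_left fun t' ht' => ?_
        by_cases h : t' = t
        · subst h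
          rw [List.erase_cons_head, prod_erase f ht']
          ring
        · rw [List.erase_cons_tail (by simpa using fun h' => h h'.symm), List.map_cons,
            List.prod_cons]
          ring

theorem val_two {n : ℕ} [NeZero n] {w : ℕ} (hw : w < n) :
    ((2 * w : ℕ) : ZMod (2 * n)).val = 2 * w := by
  rw [ZMod.val_natCast]
  exact Nat.mod_eq_of_lt (by omega)

theorem fe_two {n : ℕ} [NeZero n] (ι e : ℤ) {w : ℕ} (hw : w < n) :
    fe n ι e ((2 * w : ℕ) : ZMod (2 * n)) = zt n ι ((2 * e * (w : ℤ) ^ 2 : ℤ) : ZMod (2 * n)) := by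
  unfold fe
  rw [val_two hw, if_pos (even_two_mul w), Nat.mul_div_cancel_left w (by norm_num)]

end MTD

open MTD in
theorem mtd : MTD_Stmt := by
  intro n _ ι ts e
  have hc : ∀ w : ℕ, (2 * (w : ZMod (2 * n))) = ((2 * w : ℕ) : ZMod (2 * n)) := by
    intro w
    push_cast
    ring
  have key : ∀ w ∈ Finset.range n,
      (TrivSqZeroExt.inl (zt n ι ((2 * e * (w : ℤ) ^ 2 : ℤ) : ZMod (2 * n))) *
        (1 + TrivSqZeroExt.inr ((e : ℂ) / 2 * bq n ((2 * w : ℕ) : ZMod (2 * n)))) *
        (1 + TrivSqZeroExt.inr (((ts.length : ℂ) - 2) * Th n ι 1 ((2 * w : ℕ) : ZMod (2 * n)))) *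
        (ts.map fun t => du n (vt n ι t) ((2 * w : ℕ) : ZMod (2 * n))).prod : DualNumber ℂ).fst =
      Pp n ι e ts (2 * w) ∧
      (TrivSqZeroExt.inl (zt n ι ((2 * e * (w : ℤ) ^ 2 : ℤ) : ZMod (2 * n))) *
        (1 + TrivSqZeroExt.inr ((e : ℂ) / 2 * bq n ((2 * w : ℕ) : ZMod (2 * n)))) *
        (1 + TrivSqZeroExt.inr (((ts.length : ℂ) - 2) * Th n ι 1 ((2 * w : ℕ) : ZMod (2 * n)))) *
        (ts.map fun t => du n (vt n ι t) ((2 * w : ℕ) : ZMod (2 * n))).prod : DualNumber ℂ).snd =
      ((e : ℂ) / 2) * (Pp n ι e ts (2 * w) * bq n (2 * w)) +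
        ((ts.length : ℂ) - 2) * (Pp n ι e ts (2 * w) * Th n ι 1 (2 * w)) +
        (ts.map fun t => Pp n ι e (ts.erase t) (2 * w) * (vt n ι t).2 (2 * w)).sum := by
    intro w hw
    rw [Finset.mem_range] at hw
    rw [hc w]
    set u : ZMod (2 * n) := ((2 * w : ℕ) : ZMod (2 * n)) with hu
    obtain ⟨h1, h2⟩ := leibniz (fun t => (vt n ι t).1 u) (fun t => (vt n ι t).2 u) ts
    have h3 : (ts.map fun t => du n (vt n ι t) u) = ts.map fun t =>
        (TrivSqZeroExt.inl ((vt n ι t).1 u) + TrivSqZeroExt.inr ((vt n ι t).2 u) :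
          DualNumber ℂ) := rfl
    rw [h3]
    have hP : ∀ l : List (Bool × List ℤ), Pp n ι e l u =
        zt n ι ((2 * e * (w : ℤ) ^ 2 : ℤ) : ZMod (2 * n)) *
          (l.map fun t => (vt n ι t).1 u).prod := by
      intro l
      unfold Pp
      rw [hu, fe_two ι e hw]
    constructor
    · rw [TrivSqZeroExt.fst_mul, TrivSqZeroExt.fst_mul, TrivSqZeroExt.fst_mul, h1, hP]
      simp
    · rw [TrivSqZeroExt.snd_mul, TrivSqZeroExt.snd_mul, TrivSqZeroExt.snd_mul,
        TrivSqZeroExt.fst_mul, TrivSqZeroExt.fst_mul, h1, h2, hP]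
      simp only [hP, TrivSqZeroExt.fst_add, TrivSqZeroExt.fst_inl, TrivSqZeroExt.fst_inr,
        TrivSqZeroExt.fst_one, add_zero, TrivSqZeroExt.snd_add, TrivSqZeroExt.snd_inl,
        TrivSqZeroExt.snd_inr, TrivSqZeroExt.snd_one, zero_add, smul_eq_mul,
        MulOpposite.smul_eq_mul_unop, MulOpposite.unop_op, mul_one, mul_zero]
      have h4 : (ts.map fun t => zt n ι ((2 * e * (w : ℤ) ^ 2 : ℤ) : ZMod (2 * n)) *
          ((ts.erase t).map fun t => (vt n ι t).1 u).prod * (vt n ι t).2 u).sum =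
          zt n ι ((2 * e * (w : ℤ) ^ 2 : ℤ) : ZMod (2 * n)) *
          (ts.map fun t => ((ts.erase t).map fun t => (vt n ι t).1 u).prod * (vt n ι t).2 u).sum := by
        rw [← List.sum_map_mul_left]
        congr 1
        refine List.map_congr_left fun t _ => ?_
        ring
      rw [h4]
      ring
  have hsum : ∀ (l : List (Bool × List ℤ)) (F : ℕ → Bool × List ℤ → ℂ),
      ∑ w ∈ Finset.range n, (l.map fun t => F w t).sum =
        (l.map fun t => ∑ w ∈ Finset.range n, F w t).sum := by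
    intro l F
    induction l with
    | nil => simp
    | cons t l ih => simp only [List.map_cons, List.sum_cons, Finset.sum_add_distrib, ih]
  constructor
  · unfold Mt pr
    rw [TrivSqZeroExt.fst_sum]
    refine Finset.sum_congr rfl fun w hw => ?_
    rw [(key w hw).1, Pi.one_apply, mul_one]
  · unfold Mt pr
    rw [TrivSqZeroExt.snd_sum, Finset.sum_congr rfl fun w hw => (key w hw).2]
    rw [Finset.sum_add_distrib, Finset.sum_add_distrib, ← Finset.mul_sum, ← Finset.mul_sum, hsum]

end Pool.Agent.MTA
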