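import Pool.Agent.MTA.Stmts

/-!
NFE: normal forms (module MTA_NFE).
-/

open scoped BigOperators

namespace Pool.Agent.MTA

open Pool.Agent.TB Pool.Agent.MTR Pool.Agent.MT

namespace NFE

theorem erase_map {α β : Type} [BEq α] [LawfulBEq α] [BEq β] [LawfulBEq β] (f : α → β) :
    ∀ (l : List α) (a : α), a ∈ l → (∀ b ∈ l, f b = f a → b = a) →
      (l.erase a).map f = (l.map f).erase (f a) := by
  intro l
  induction l with
  | nil =>
    intro a ha
    exact absurd ha (by simp)
  | cons b l ih =>
    intro a ha h
    by_cases hb : b = a
    · subst hb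
      simp [List.erase_cons_head]
    · have h1 : f b ≠ f a := fun h2 => hb (h b (by simp) h2)
      have h2 : a ∈ l := by
        rcases List.mem_cons.1 ha with h3 | h3
        · exact absurd h3.symm hb
        · exact h3
      rw [List.map_cons, List.erase_cons_tail (by simpa using hb),
        List.erase_cons_tail (by simpa using h1), List.map_cons,
        ih a h2 fun c hc => h c (by simp [hc])]

/-- The flag is determined by the word. -/
theorem flag {ts : List (Bool × List ℤ)} {e : ℤ} (h : PF ts e) :
    ∀ t ∈ ts, (t.1 = true ↔ Odd t.2.length) := by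
  intro t ht
  constructor
  · exact h.2.1 t ht
  · intro ho
    by_contra hf
    have h1 := h.1 t ht (by simpa using hf)
    exact (Nat.not_even_iff_odd.2 ho) h1

/-- The tangle of a word. -/
def back (x : List ℤ) : Bool × List ℤ := (decide (x.length % 2 = 1), x.reverse)

theorem back_eq {t : Bool × List ℤ} (h : t.1 = true ↔ Odd t.2.length) :
    back t.2.reverse = t := by
  unfold back
  rw [List.reverse_reverse, List.length_reverse]
  have h1 : decide (t.2.length % 2 = 1) = t.1 := by
    rw [Nat.odd_iff] at h
    cases h2 : t.1 with
    | true =>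
      rw [decide_eq_true_iff]
      exact h.1 h2
    | false =>
      rw [decide_eq_false_iff_not]
      intro h3
      have h4 := h.2 h3
      rw [h2] at h4
      exact absurd h4 (by simp)
  rw [h1]

theorem map_back {ts : List (Bool × List ℤ)} {e : ℤ} (h : PF ts e) :
    (wrds ts).map back = ts := by
  unfold wrds
  rw [List.map_map]
  conv_rhs => rw [← List.map_id ts]
  apply List.map_congr_left
  intro t ht
  exact back_eq (flag h t ht)

end NFE

open NFE in
/-- NFE: normal forms. -/
theorem nfe : NFE_Stmt := by
  intro ts e h
  obtain ⟨hp, hn⟩ := h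
  have hfl := flag hp
  refine ⟨⟨?_, ?_⟩, hfl, ?_, ?_⟩
  · intro x hx
    unfold wrds at hx
    obtain ⟨t, ht, rfl⟩ := List.mem_map.1 hx
    obtain ⟨h1, h2⟩ := hn t ht
    refine ⟨by simpa using h1, ?_⟩
    intro a ha
    exact h2 a (List.mem_reverse.1 ha)
  · rcases hp.2.2 with ⟨h1, h2⟩ | ⟨h1, h2⟩
    · left
      refine ⟨h2, ?_⟩
      intro x hx
      unfold wrds at hx
      obtain ⟨t, ht, rfl⟩ := List.mem_map.1 hx
      rw [List.length_reverse]
      apply hp.1 t ht
      unfold ntr at h1
      have h3 := List.countP_eq_zero.1 h1 t ht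
      simpa using h3
    · right
      refine ⟨h2, ?_⟩
      unfold wrds
      rw [List.countP_map]
      refine Eq.trans ?_ h1
      unfold ntr
      apply List.countP_congr
      intro t ht
      have h3 := hfl t ht
      rw [Nat.odd_iff] at h3
      simp only [Function.comp_apply, List.length_reverse, decide_eq_true_eq]
      exact h3.symm
  · intro t ht
    refine ⟨?_, List.perm_cons_erase ht⟩
    unfold wrds
    apply erase_map (fun t : Bool × List ℤ => t.2.reverse) ts t ht
    intro b hb hbt
    have h1 := back_eq (hfl b hb)
    have h2 := back_eq (hfl t ht)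
    have h3 : b.2.reverse = t.2.reverse := hbt
    rw [← h1, ← h2, h3]
  · intro ts' e' h' hper
    have h1 := hper.map back
    rw [map_back hp, map_back h'.1] at h1
    exact h1

end Pool.Agent.MTA
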