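import Pool.Agent.MTA.Stmts
import Pool.Agent.MTR.Stmts

/-!
Montesinos knots, analysis part: PHI, from the model at the roots of unity to the identity of the
limit functions.
-/

open Filter Topology
open scoped BigOperators Real

namespace Pool.Agent.MTA

open Pool.Agent.LibH11.Sliced Pool.Agent.TB Pool.Agent.MTR Pool.Agent.MT

namespace PHI

/-- An odd integer is a unit modulo a power of two. -/
theorem isUnit_odd (s : ℕ) {D : ℤ} (h : Odd D) : IsUnit (D : ZMod (2 ^ s)) := by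
  have h1 : IsCoprime D ((2 ^ s : ℕ) : ℤ) := by
    push_cast
    exact (Int.isCoprime_iff_gcd_eq_one.mpr (by
      rw [Int.gcd_comm]
      exact Int.isCoprime_iff_gcd_eq_one.mp (Int.isCoprime_two_left.mpr h))).pow_right
  obtain ⟨a, b, hab⟩ := h1
  refine IsUnit.of_mul_eq_one (a : ZMod (2 ^ s)) ?_
  have h2 := congrArg (fun z : ℤ => (z : ZMod (2 ^ s))) hab
  simp only [Int.cast_add, Int.cast_mul, Int.cast_natCast, ZMod.natCast_self, mul_zero,
    add_zero, Int.cast_one] at h2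
  rw [mul_comm]
  exact h2

/-- A unit modulo a power of two has an odd integral inverse. -/
theorem exists_inv (s : ℕ) (hs : 1 ≤ s) {y : ZMod (2 ^ s)} (hy : IsUnit y) :
    ∃ ι : ℤ, Odd ι ∧ (ι : ZMod (2 ^ s)) * y = 1 := by
  obtain ⟨z, hz⟩ := hy.exists_left_inv
  obtain ⟨ι, hι⟩ := ZMod.intCast_surjective z
  refine ⟨ι, ?_, by rw [hι, hz]⟩
  rw [← Int.not_even_iff_odd]
  intro hev
  have h1 : ((2 : ℕ) : ZMod 2) = 0 := ZMod.natCast_self 2
  have hd : 2 ∣ 2 ^ s := dvd_pow_self 2 (by omega)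
  have h2 := congrArg (ZMod.castHom hd (ZMod 2)) hz
  rw [map_mul, map_one, ← hι, map_intCast] at h2
  obtain ⟨k, hk⟩ := hev
  rw [hk] at h2
  have h3 : ((k + k : ℤ) : ZMod 2) = 0 := by
    rw [← two_mul]
    push_cast
    have : (2 : ZMod 2) = 0 := by exact_mod_cast h1
    rw [this, zero_mul]
  rw [h3, zero_mul] at h2
  exact zero_ne_one h2

end PHI

open PHI in
/-- PHI: equality of all finite type invariants gives the identity of the limit functions. -/
theorem phi (had : ADV_Stmt) (hn : NFE_Stmt) (hint : INT_Stmt) (hl : LAMM_Stmt) (hm : MNZ_Stmt)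
    (hf : FTO_Stmt) : PHI_Stmt := by
  intro ts ts' e e' h h' hts hts' hv
  have hNF := (hn ts e hts).1
  have hNF' := (hn ts' e' hts').1
  have hD : Odd (DD e (wrds ts)) := (had.2.2.2.2 e (wrds ts) hNF).1
  refine hf e (wrds ts) e' (wrds ts') hNF hNF' ⟨2, ?_⟩
  intro s hs
  obtain ⟨K, hK⟩ := hint ts ts' e e' h h' hts.1 hts'.1 hv s hs
  refine ⟨K, ?_⟩
  intro κ κ' hκ hκκ'
  have hy : IsUnit (κ * (DD e (wrds ts) : ZMod (2 ^ s))) := hκ.mul (isUnit_odd s hD)
  obtain ⟨ι, hι, hιy⟩ := exists_inv s (by omega) hy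
  have hcop : IsCoprime ι (2 * ((2 ^ s : ℕ) : ℤ)) := by
    have h1 : (2 * ((2 ^ s : ℕ) : ℤ)) = 2 ^ (s + 1) := by
      push_cast
      ring
    rw [h1]
    exact IsCoprime.pow_right (Int.isCoprime_two_right.mpr hι)
  have hn1 : 1 < 2 ^ s := Nat.one_lt_two_pow (by omega)
  have e1 : κ * (ι : ZMod (2 ^ s)) * (DD e (wrds ts) : ZMod (2 ^ s)) = 1 := by
    rw [← hιy]
    ring
  have e2 : κ' * (ι : ZMod (2 ^ s)) * (DD e' (wrds ts') : ZMod (2 ^ s)) = 1 := by
    rw [← hιy, hκκ']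
    ring
  have l1 := hl (2 ^ s) ι hn1 hcop ts e hts κ e1
  have l2 := hl (2 ^ s) ι hn1 hcop ts' e' hts' κ' e2
  have m1 := hm ts e hts s hs ι hι
  have m2 := hm ts' e' hts' s hs ι hι
  have k1 := hK ι hι
  rw [l1, l2] at k1
  have k2 : (Mt (2 ^ s) ι ts e).fst * (Mt (2 ^ s) ι ts' e').fst *
      (LG (2 ^ s) e (wrds ts) κ - LG (2 ^ s) e' (wrds ts') κ') =
      (Mt (2 ^ s) ι ts e).fst * (Mt (2 ^ s) ι ts' e').fst * K := by
    linear_combination k1
  exact mul_left_cancel₀ (mul_ne_zero m1 m2) k2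

end Pool.Agent.MTA
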