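import Pool.Agent.MTA.Stmts

/-!
Montesinos knots, analysis part: module PRS (the pairing and the Weyl operators).
See PAPER.md in this folder, section 2.
-/

open scoped BigOperators Real

namespace Pool.Agent.MTA

open Pool.Agent.LibH11.Sliced Pool.Agent.TB Pool.Agent.MTR Pool.Agent.MT

namespace PRS

section

variable (n : ℕ) [NeZero n] (ι : ℤ)

theorem two_val_add (v : ZMod n) (b : ℤ) :
    (2 * (((v + (b : ZMod n)).val : ℕ) : ZMod (2 * n)) : ZMod (2 * n)) =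
      2 * ((v.val : ℕ) : ZMod (2 * n)) + 2 * (b : ZMod (2 * n)) := by
  have h1 : (((v + (b : ZMod n)).val : ℤ) : ZMod n) = (((v.val : ℤ) + b : ℤ) : ZMod n) := by
    push_cast
    rw [ZMod.natCast_zmod_val, ZMod.natCast_zmod_val]
  have h2 : (n : ℤ) ∣ ((v.val : ℤ) + b) - ((v + (b : ZMod n)).val : ℤ) :=
    (ZMod.intCast_eq_intCast_iff_dvd_sub _ _ _).1 h1
  have h3 : ((2 * n : ℕ) : ℤ) ∣ (2 * ((v.val : ℤ) + b)) - (2 * ((v + (b : ZMod n)).val : ℤ)) := by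
    obtain ⟨k, hk⟩ := h2
    refine ⟨k, ?_⟩
    push_cast
    linear_combination 2 * hk
  have h4 := (ZMod.intCast_eq_intCast_iff_dvd_sub _ _ _).2 h3
  push_cast at h4
  rw [h4]
  ring

theorem sum_shift (F : ZMod (2 * n) → ℂ) (b : ℤ) :
    ∑ w ∈ Finset.range n, F (2 * (w : ZMod (2 * n)) + 2 * (b : ZMod (2 * n))) =
      ∑ w ∈ Finset.range n, F (2 * (w : ZMod (2 * n))) := by
  have h0 : ∀ G : ℕ → ℂ, ∑ w ∈ Finset.range n, G w = ∑ v : ZMod n, G v.val := by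
    intro G
    refine Finset.sum_bij' (fun a _ => (a : ZMod n)) (fun a _ => a.val) ?_ ?_ ?_ ?_ ?_
    · intro a _; exact Finset.mem_univ _
    · intro a _; exact Finset.mem_range.2 (ZMod.val_lt a)
    · intro a ha; exact ZMod.val_cast_of_lt (Finset.mem_range.1 ha)
    · intro a _; exact ZMod.natCast_zmod_val a
    · intro a ha
      rw [ZMod.val_cast_of_lt (Finset.mem_range.1 ha)]
  rw [h0 (fun w => F (2 * (w : ZMod (2 * n)) + 2 * (b : ZMod (2 * n)))),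
    h0 (fun w => F (2 * (w : ZMod (2 * n))))]
  rw [← Equiv.sum_comp (Equiv.addRight (b : ZMod n)) (fun v : ZMod n => F (2 * (v.val : ZMod (2 * n))))]
  refine Finset.sum_congr rfl fun v _ => ?_
  rw [Equiv.coe_addRight, two_val_add]

theorem pair (hz : ZT_Stmt) (hι : IsCoprime ι (2 * n : ℤ)) (a b : ℤ) (f g : Fn n) :
    pr n f (Tt n ι a b g) = pr n (Tt n ι a (-b) f) g := by
  have h1 := sum_shift n (fun u => Tt n ι a (-b) f u * g u) b
  rw [pr, pr, ← h1]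
  refine Finset.sum_congr rfl fun w _ => ?_
  show f (2 * w) * (zt n ι (2 * a * b + 2 * a * (2 * w)) * g (2 * w + 2 * b)) =
    zt n ι (2 * a * ((-b : ℤ) : ZMod (2 * n)) + 2 * a * (2 * w + 2 * b)) *
      f (2 * w + 2 * b + 2 * ((-b : ℤ) : ZMod (2 * n))) * g (2 * w + 2 * b)
  have e1 : (2 * w + 2 * b + 2 * ((-b : ℤ) : ZMod (2 * n)) : ZMod (2 * n)) = 2 * w := by
    push_cast; ring
  have e2 : (2 * a * ((-b : ℤ) : ZMod (2 * n)) + 2 * a * (2 * w + 2 * b) : ZMod (2 * n)) =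
      2 * a * b + 2 * a * (2 * w) := by
    push_cast; ring
  rw [e1, e2]
  ring

theorem pr_smul (c : ℂ) (f g : Fn n) : pr n f (c • g) = c * pr n f g := by
  rw [pr, pr, Finset.mul_sum]
  refine Finset.sum_congr rfl fun w _ => ?_
  rw [Pi.smul_apply, smul_eq_mul]
  ring

end

end PRS

/-- PRS: the pairing and the Weyl operators. -/
theorem prs (hz : ZT_Stmt) (he : EGO_Stmt) : PRS_Stmt := by
  intro n _ ι hι
  refine ⟨fun a b f g => PRS.pair n ι hz hι a b f g, ?_⟩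
  intro l V Φ ψ hΦ hψ δ hδ R
  obtain ⟨hmul, -, -, -, hmod, -, -⟩ := he n ι hι
  obtain ⟨z0, zadd, -, -, -, -, -, -⟩ := hz n ι hι
  set α : ℤ := δ * det2 R V with hα
  set β : ℤ := δ * det2 l R with hβ
  have e1 : ((α * l.1 + β * V.1 : ℤ) : ZMod n) = (R.1 : ZMod n) := by
    have : (α * l.1 + β * V.1 : ℤ) = δ * det2 l V * R.1 := by
      rw [hα, hβ]; simp only [det2]; ring
    rw [this]; push_cast
    rw [hδ, one_mul]
  have e2 : ((α * l.2 + β * V.2 : ℤ) : ZMod n) = (R.2 : ZMod n) := by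
    have : (α * l.2 + β * V.2 : ℤ) = δ * det2 l V * R.2 := by
      rw [hα, hβ]; simp only [det2]; ring
    rw [this]; push_cast
    rw [hδ, one_mul]
  have e3 := hmod _ _ _ _ e1 e2
  have e4 := congrArg (fun T : Module.End ℂ (Fn n) => T ψ)
    (hmul (α * l.1) (α * l.2) (β * V.1) (β * V.2))
  simp only [Module.End.mul_apply, LinearMap.smul_apply] at e4
  rw [hψ β, e3] at e4
  -- e4 : T_(α l) ψ = ζ^(-2 α β D) T_R ψ
  have e5 : pr n Φ (Tt n ι (α * l.1) (α * l.2) ψ) = pr n Φ ψ := by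
    rw [PRS.pair n ι hz hι]
    have h1 := hΦ (-α)
    have h2 : -α * (-l.1, l.2).1 = α * l.1 := by simp
    have h3 : -α * (-l.1, l.2).2 = -(α * l.2) := by simp
    rw [h2, h3] at h1
    rw [h1]
  rw [e4, PRS.pr_smul] at e5
  have hk : ∃ k : ℤ, δ * det2 l V - 1 = n * k := by
    have : ((δ * det2 l V - 1 : ℤ) : ZMod n) = 0 := by
      push_cast; rw [hδ, sub_self]
    exact (ZMod.intCast_zmod_eq_zero_iff_dvd _ _).mp this
  obtain ⟨k, hk⟩ := hk
  have e6 : ((2 * δ * Nl l V R : ℤ) : ZMod (2 * n)) +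
      ((-2 * (α * l.1 * (β * V.2) - α * l.2 * (β * V.1)) : ℤ) : ZMod (2 * n)) = 0 := by
    rw [← Int.cast_add, ZMod.intCast_zmod_eq_zero_iff_dvd]
    refine ⟨-(δ * Nl l V R * k), ?_⟩
    rw [hα, hβ]
    simp only [Nl, det2] at hk ⊢
    push_cast
    linear_combination (-2 * δ * (l.1 * R.2 - l.2 * R.1) * (R.1 * V.2 - R.2 * V.1)) * hk
  have e7 := zadd ((2 * δ * Nl l V R : ℤ) : ZMod (2 * n))
    ((-2 * (α * l.1 * (β * V.2) - α * l.2 * (β * V.1)) : ℤ) : ZMod (2 * n))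
  rw [e6, z0] at e7
  rw [← e5]
  calc pr n Φ (Tt n ι R.1 R.2 ψ) = 1 * pr n Φ (Tt n ι R.1 R.2 ψ) := (one_mul _).symm
    _ = _ := by rw [e7]; ring

end Pool.Agent.MTA
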