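import Pool.Agent.MTA.Stmts

/-!
Montesinos knots, analysis part: stabilisers (module STB). See PAPER.md, section 2.
-/

open scoped BigOperators Real

namespace Pool.Agent.MTA

open Pool.Agent.TB Pool.Agent.MTR Pool.Agent.MT

namespace STB

section

variable (n : ℕ) [NeZero n] (ι : ℤ)

theorem stab_iff (v : ℤ × ℤ) (f : Fn n) : Stab n ι v f ↔ ∀ (b : ℤ) (u : ZMod (2 * n)),
    zt n ι (2 * (b * v.1) * (b * v.2) + 2 * (b * v.1) * u) * f (u + 2 * (b * v.2)) = f u := by
  constructor
  · intro h b u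
    have h1 := congrFun (h b) u
    change zt n ι (2 * ((b * v.1 : ℤ) : ZMod (2 * n)) * ((b * v.2 : ℤ) : ZMod (2 * n)) +
      2 * ((b * v.1 : ℤ) : ZMod (2 * n)) * u) * f (u + 2 * ((b * v.2 : ℤ) : ZMod (2 * n))) =
      f u at h1
    push_cast at h1
    exact h1
  · intro h b
    funext u
    change zt n ι (2 * ((b * v.1 : ℤ) : ZMod (2 * n)) * ((b * v.2 : ℤ) : ZMod (2 * n)) +
      2 * ((b * v.1 : ℤ) : ZMod (2 * n)) * u) * f (u + 2 * ((b * v.2 : ℤ) : ZMod (2 * n))) = f u
    push_cast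
    exact h b u

/-- products -/
theorem stab_mul (hadd : ∀ a b, zt n ι (a + b) = zt n ι a * zt n ι b) (v v' : ℤ × ℤ)
    (f f' : Fn n) (h : Stab n ι v f) (h' : Stab n ι v' f') :
    Stab n ι (addv v v') (f * f') := by
  rw [stab_iff] at h h' ⊢
  intro b u
  have h1 := h (b * v'.2) u
  have h2 := h' (b * v.2) u
  push_cast at h1 h2
  have e1 : u + 2 * (b * v'.2 * v.2) = u + 2 * ((b : ZMod (2 * n)) * ((addv v v').2 : ℤ)) := by
    unfold addv
    push_cast
    ring
  have e2 : u + 2 * (b * v.2 * v'.2) = u + 2 * ((b : ZMod (2 * n)) * ((addv v v').2 : ℤ)) := by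
    unfold addv
    push_cast
    ring
  rw [e1] at h1
  rw [e2] at h2
  have e3 : 2 * (b * ((addv v v').1 : ℤ)) * (b * ((addv v v').2 : ℤ)) +
      2 * (b * ((addv v v').1 : ℤ)) * u =
      (2 * (b * v'.2 * v.1) * (b * v'.2 * v.2) + 2 * (b * v'.2 * v.1) * u) +
      (2 * (b * v.2 * v'.1) * (b * v.2 * v'.2) + 2 * ((b : ZMod (2 * n)) * v.2 * v'.1) * u) := by
    unfold addv
    push_cast
    ring
  rw [e3, hadd]
  change _ * (f (u + 2 * ((b : ZMod (2 * n)) * ((addv v v').2 : ℤ))) *
    f' (u + 2 * ((b : ZMod (2 * n)) * ((addv v v').2 : ℤ)))) = f u * f' u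
  rw [← h1, ← h2]
  ring

/-- the values of the half twists at the even elements -/
theorem fe_even (e w : ℤ) :
    fe n ι e ((2 * w : ℤ) : ZMod (2 * n)) = zt n ι ((2 * e * w ^ 2 : ℤ) : ZMod (2 * n)) := by
  have hn : (0 : ℤ) < n := by exact_mod_cast Nat.pos_of_ne_zero (NeZero.ne n)
  have hval : ((((2 * w : ℤ) : ZMod (2 * n)).val : ℕ) : ℤ) = 2 * (w % n) := by
    rw [ZMod.val_intCast]
    push_cast
    rw [Int.mul_emod_mul_of_pos _ _ two_pos]
  obtain ⟨r, hr⟩ : ∃ r : ℕ, (r : ℤ) = w % n := ⟨(w % n).toNat, Int.toNat_of_nonneg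
    (Int.emod_nonneg _ hn.ne')⟩
  have hval' : ((2 * w : ℤ) : ZMod (2 * n)).val = 2 * r := by
    rw [← hr] at hval
    exact_mod_cast hval
  unfold fe
  rw [if_pos (by rw [hval']; exact even_two_mul r), hval', Nat.mul_div_cancel_left r two_pos]
  congr 1
  rw [ZMod.intCast_eq_intCast_iff_dvd_sub]
  obtain ⟨k, hk⟩ : ∃ k : ℤ, w = r + n * k := ⟨w / n, by
    have := Int.emod_add_mul_ediv w n
    rw [← hr] at this
    linarith⟩
  refine ⟨e * (2 * r * k + n * k ^ 2), ?_⟩
  rw [hk]
  push_cast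
  ring

/-- evenness of the representative -/
theorem even_val_iff (u : ZMod (2 * n)) : Even u.val ↔ ∃ w : ℤ, u = ((2 * w : ℤ) : ZMod (2 * n)) := by
  constructor
  · rintro ⟨r, hr⟩
    refine ⟨r, ?_⟩
    rw [← ZMod.natCast_zmod_val u, hr]
    push_cast
    ring
  · rintro ⟨w, rfl⟩
    have h1 : ((((2 * w : ℤ) : ZMod (2 * n)).val : ℕ) : ℤ) = 2 * (w % n) := by
      rw [ZMod.val_intCast]
      push_cast
      rw [Int.mul_emod_mul_of_pos _ _ two_pos]
    have h2 : Even ((((2 * w : ℤ) : ZMod (2 * n)).val : ℕ) : ℤ) := by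
      rw [h1]
      exact even_two_mul _
    exact_mod_cast h2

theorem fe_stab (hadd : ∀ a b, zt n ι (a + b) = zt n ι a * zt n ι b) (e : ℤ) :
    Stab n ι (-e, 1) (fe n ι e) := by
  rw [stab_iff]
  intro b u
  by_cases hu : ∃ w : ℤ, u = ((2 * w : ℤ) : ZMod (2 * n))
  · obtain ⟨w, rfl⟩ := hu
    have e1 : ((2 * w : ℤ) : ZMod (2 * n)) + 2 * (b * ((1 : ℤ) : ZMod (2 * n))) =
        ((2 * (w + b) : ℤ) : ZMod (2 * n)) := by
      push_cast
      ring
    change zt n ι (2 * (b * ((-e : ℤ) : ZMod (2 * n))) * (b * ((1 : ℤ) : ZMod (2 * n))) +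
      2 * (b * ((-e : ℤ) : ZMod (2 * n))) * ((2 * w : ℤ) : ZMod (2 * n))) *
      fe n ι e (((2 * w : ℤ) : ZMod (2 * n)) + 2 * (b * ((1 : ℤ) : ZMod (2 * n)))) = _
    rw [e1, fe_even, fe_even, ← hadd]
    congr 1
    push_cast
    ring
  · have h1 : ¬ Even u.val := fun h => hu ((even_val_iff n u).1 h)
    have h2 : ¬ Even (u + 2 * (b * ((1 : ℤ) : ZMod (2 * n)))).val := by
      intro h
      obtain ⟨w, hw⟩ := (even_val_iff n _).1 h
      apply hu
      refine ⟨w - b, ?_⟩
      have : u = ((2 * w : ℤ) : ZMod (2 * n)) - 2 * (b * ((1 : ℤ) : ZMod (2 * n))) := by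
        rw [← hw]
        ring
      rw [this]
      push_cast
      ring
    change _ * fe n ι e (u + 2 * (b * ((1 : ℤ) : ZMod (2 * n)))) = fe n ι e u
    have h3 : fe n ι e (u + 2 * (b * ((1 : ℤ) : ZMod (2 * n)))) = 0 := if_neg h2
    have h4 : fe n ι e u = 0 := if_neg h1
    rw [h3, h4, mul_zero]

/-- the value does not depend on the second component of the base -/
theorem vecg_fst (B B' : Fn n × Fn n) (h : B.1 = B'.1) : ∀ (l : List ℤ) (b : Bool),
    (vecg n ι B b l).1 = (vecg n ι B' b l).1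
  | [], false => h
  | [], true => h
  | a :: l, false => by
      change Dc n ι a (vecg n ι B true l).1 = Dc n ι a (vecg n ι B' true l).1
      rw [vecg_fst B B' h l true]
  | a :: l, true => by
      change Cc n ι a (vecg n ι B false l).1 = Cc n ι a (vecg n ι B' false l).1
      rw [vecg_fst B B' h l false]

/-- insertion at the last position of an operator that fixes the base -/
theorem insg_end (f : Fn n) (O : Module.End ℂ (Fn n)) (hO : O f = f) : ∀ (l : List ℤ) (b : Bool),
    insg n ι f O b l l.length = (vecg n ι (f, 0) b l).1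
  | [], false => hO
  | [], true => hO
  | a :: l, false => by
      change Dc n ι a (insg n ι f O true l l.length) = Dc n ι a (vecg n ι (f, 0) true l).1
      rw [insg_end f O hO l true]
  | a :: l, true => by
      change Cc n ι a (insg n ι f O false l l.length) = Cc n ι a (vecg n ι (f, 0) false l).1
      rw [insg_end f O hO l false]

theorem vt_stab (hι : IsCoprime ι (2 * n : ℤ)) (hz : ZT_Stmt) (he : EGO_Stmt) (hi : INSG_Stmt)
    (t : Bool × List ℤ) (ht : t.1 = true ↔ Odd t.2.length) :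
    Stab n ι (lastv t.2.reverse) (vt n ι t).1 := by
  obtain ⟨hz0, -⟩ := hz n ι hι
  obtain ⟨-, -, -, -, -, -, h01⟩ := he n ι hι
  intro b
  have hlen : t.2.reverse.length = t.2.length := List.length_reverse
  cases hb : t.1 with
  | false =>
      have hev : Even t.2.reverse.length := by
        rw [hlen, ← Nat.not_odd_iff_even, ← ht, hb]
        simp
      have h1 := hi n ι hι 1 t.2.reverse _ le_rfl 0 b
      rw [insg_end n ι 1 _ (h01 b), if_pos hev] at h1
      have h2 : (vt n ι t).1 = (vecg n ι ((1 : Fn n), 0) false t.2.reverse).1 := by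
        unfold vt
        rw [hb]
        exact vecg_fst n ι (bs n ι false) ((1 : Fn n), 0) rfl _ _
      rw [h2]
      simp only [zero_smul, zero_add, Prod.smul_fst, Prod.smul_snd, smul_eq_mul] at h1
      exact h1.symm
  | true =>
      have hodd : Odd t.2.reverse.length := by
        rw [hlen]
        exact ht.1 hb
      have hne : ¬ Even t.2.reverse.length := Nat.not_even_iff_odd.2 hodd
      have hf : Tt n ι b 0 (bs n ι true).1 = (bs n ι true).1 := by
        funext u
        change zt n ι (2 * (b : ZMod (2 * n)) * ((0 : ℤ) : ZMod (2 * n)) +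
          2 * (b : ZMod (2 * n)) * u) *
          (if u + 2 * ((0 : ℤ) : ZMod (2 * n)) = 0 then (1 : ℂ) else 0) =
          if u = 0 then (1 : ℂ) else 0
        rw [Int.cast_zero, mul_zero, mul_zero, add_zero, zero_add]
        by_cases hu : u = 0
        · rw [hu, mul_zero, hz0, if_pos rfl, one_mul]
        · rw [if_neg hu, mul_zero]
      have h1 := hi n ι hι (bs n ι true).1 t.2.reverse _ le_rfl b 0
      rw [insg_end n ι _ _ hf, if_neg hne] at h1
      have h2 : (vt n ι t).1 = (vecg n ι ((bs n ι true).1, 0) false t.2.reverse).1 := by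
        unfold vt
        rw [hb]
        exact vecg_fst n ι (bs n ι true) ((bs n ι true).1, 0) rfl _ _
      rw [h2]
      simp only [zero_smul, add_zero, Prod.smul_fst, Prod.smul_snd, smul_eq_mul] at h1
      exact h1.symm

theorem Pp_cons (e : ℤ) (t : Bool × List ℤ) (ts : List (Bool × List ℤ)) :
    Pp n ι e (t :: ts) = (vt n ι t).1 * Pp n ι e ts := by
  funext u
  change fe n ι e u * ((t :: ts).map fun t => (vt n ι t).1 u).prod =
    (vt n ι t).1 u * (fe n ι e u * (ts.map fun t => (vt n ι t).1 u).prod)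
  rw [List.map_cons, List.prod_cons]
  ring

theorem Pp_nil (e : ℤ) : Pp n ι e [] = fe n ι e := by
  funext u
  change fe n ι e u * (([] : List (Bool × List ℤ)).map fun t => (vt n ι t).1 u).prod = fe n ι e u
  simp

end

end STB

open STB in
theorem stb (hz : ZT_Stmt) (he : EGO_Stmt) (hi : INSG_Stmt) : STB_Stmt := by
  intro n _ ι hι
  obtain ⟨-, hadd, -⟩ := hz n ι hι
  refine ⟨stab_mul n ι hadd, fe_stab n ι hadd, vt_stab n ι hι hz he hi, ?_⟩
  intro e ts
  induction ts with
  | nil =>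
      intro _
      rw [Pp_nil]
      exact fe_stab n ι hadd e
  | cons t ts ih =>
      intro h
      rw [Pp_cons]
      exact stab_mul n ι hadd _ _ _ _ (vt_stab n ι hι hz he hi t (h t List.mem_cons_self))
        (ih fun t' ht' => h t' (List.mem_cons_of_mem _ ht'))

end Pool.Agent.MTA
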