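import Pool.Agent.MTA.Stmts0

/-!
TAIL: the solutions of a binary quadratic congruence modulo `2^s` with a large coordinate.
-/

open Filter Topology
open scoped BigOperators Real

namespace Pool.Agent.MTA

open Pool.Agent.TB Pool.Agent.MTR

namespace TAIL

/-- splitting a power of two -/
theorem split_pow : ∀ (i j : ℕ) (x y : ℤ), (2 : ℤ) ^ (i + j + 1) ∣ x * y →
    (2 : ℤ) ^ (i + 1) ∣ x ∨ (2 : ℤ) ^ (j + 1) ∣ y
  | 0, j, x, y, h => by
    by_cases hx : (2 : ℤ) ∣ x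
    · left; simpa using hx
    · right
      have hc : IsCoprime ((2 : ℤ) ^ (0 + j + 1)) x :=
        (Int.prime_two.coprime_iff_not_dvd.2 hx).pow_left
      have := hc.dvd_of_dvd_mul_left h
      rwa [zero_add] at this
  | i + 1, j, x, y, h => by
    by_cases hx : (2 : ℤ) ∣ x
    · obtain ⟨x', rfl⟩ := hx
      have h2 : (2 : ℤ) ^ (i + j + 1) ∣ x' * y := by
        have e : (2 : ℤ) ^ (i + 1 + j + 1) = 2 * 2 ^ (i + j + 1) := by ring
        rw [e, mul_assoc] at h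
        exact Int.dvd_of_mul_dvd_mul_left (by norm_num) h
      rcases split_pow i j x' y h2 with h3 | h3
      · left
        rw [pow_succ' (2 : ℤ) (i + 1)]
        exact mul_dvd_mul_left 2 h3
      · right; exact h3
    · right
      have hc : IsCoprime ((2 : ℤ) ^ (i + 1 + j + 1)) x :=
        (Int.prime_two.coprime_iff_not_dvd.2 hx).pow_left
      have := hc.dvd_of_dvd_mul_left h
      exact (pow_dvd_pow 2 (by omega)).trans this

theorem coprime_odd (s : ℕ) {x : ℤ} (hx : Odd x) : IsCoprime ((2 : ℤ) ^ s) x := by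
  refine IsCoprime.pow_left (Int.prime_two.coprime_iff_not_dvd.2 ?_)
  rw [← even_iff_two_dvd, Int.not_even_iff_odd]
  exact hx

variable {A B C m : ℤ} {s : ℕ}

/-- the congruence for integers -/
def Sol (A B C m : ℤ) (s : ℕ) (a b : ℤ) : Prop :=
  (2 : ℤ) ^ s ∣ A * a ^ 2 + B * a * b + C * b ^ 2 - m

theorem Sol.odd (hA : Even A) (hm : Odd m) (hs : 1 ≤ s) {a b : ℤ}
    (h : Sol A B C m s a b) : Odd b := by
  have h2 : (2 : ℤ) ∣ A * a ^ 2 + B * a * b + C * b ^ 2 - m :=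
    (dvd_pow_self 2 (by omega)).trans h
  by_contra hb
  rw [Int.not_odd_iff_even] at hb
  obtain ⟨u, rfl⟩ := hA
  obtain ⟨v, rfl⟩ := hb
  obtain ⟨w, rfl⟩ := hm
  obtain ⟨z, hz⟩ := h2
  have : (1 : ℤ) = 2 * ((u * a ^ 2 + B * a * v + 2 * C * v ^ 2) - w - z) := by
    linear_combination -hz
  omega

theorem Sol.uniq (hA : Even A) (hB : Odd B) (hm : Odd m) (hs : 1 ≤ s) {a a' b : ℤ}
    (h : Sol A B C m s a b) (h' : Sol A B C m s a' b) : (2 : ℤ) ^ s ∣ a - a' := by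
  have hb := h.odd hA hm hs
  have hd : (2 : ℤ) ^ s ∣ (a - a') * (A * (a + a') + B * b) := by
    have := dvd_sub h h'
    rwa [show A * a ^ 2 + B * a * b + C * b ^ 2 - m - (A * a' ^ 2 + B * a' * b + C * b ^ 2 - m) =
      (a - a') * (A * (a + a') + B * b) by ring] at this
  exact (coprime_odd s ((hA.mul_right _).add_odd (hB.mul hb))).dvd_of_dvd_mul_right hd

theorem Sol.two (hA : Even A) (hB : Odd B) (hm : Odd m) (hs : 1 ≤ s) {a b b' : ℤ}
    (h : Sol A B C m s a b) (h' : Sol A B C m s a b') :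
    (2 : ℤ) ^ ((s + 1) / 2) ∣ b' - b ∨
      (Odd C ∧ (2 : ℤ) ^ ((s + 1) / 2) ∣ C * (b' + b) + B * a) := by
  have hb := h.odd hA hm hs
  have hd : (2 : ℤ) ^ s ∣ (b' - b) * (C * (b' + b) + B * a) := by
    have := dvd_sub h' h
    rwa [show A * a ^ 2 + B * a * b' + C * b' ^ 2 - m - (A * a ^ 2 + B * a * b + C * b ^ 2 - m) =
      (b' - b) * (C * (b' + b) + B * a) by ring] at this
  rcases Int.even_or_odd C with hC | hC
  · left
    have ha : Odd a := by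
      by_contra ha
      rw [Int.not_odd_iff_even] at ha
      have h2 : (2 : ℤ) ∣ A * a ^ 2 + B * a * b + C * b ^ 2 - m :=
        (dvd_pow_self 2 (by omega)).trans h
      obtain ⟨u, rfl⟩ := hA
      obtain ⟨v, rfl⟩ := ha
      obtain ⟨w, rfl⟩ := hm
      obtain ⟨c, rfl⟩ := hC
      obtain ⟨z, hz⟩ := h2
      have : (1 : ℤ) = 2 * ((u * (v + v) ^ 2 + B * v * b + c * b ^ 2) - w - z) := by
        linear_combination -hz
      omega
    have := (coprime_odd s ((hC.mul_right (b' + b)).add_odd (hB.mul ha))).dvd_of_dvd_mul_right hd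
    exact (pow_dvd_pow 2 (by omega)).trans this
  · have hs2 : (2 : ℤ) ^ (((s + 1) / 2 - 1) + ((s + 1) / 2 - 1) + 1) ∣
        (b' - b) * (C * (b' + b) + B * a) := (pow_dvd_pow 2 (by omega)).trans hd
    rcases split_pow _ _ _ _ hs2 with h3 | h3
    · left
      rwa [show (s + 1) / 2 - 1 + 1 = (s + 1) / 2 by omega] at h3
    · right
      rw [show (s + 1) / 2 - 1 + 1 = (s + 1) / 2 by omega] at h3
      exact ⟨hC, h3⟩

/-- reciprocals of the absolute values of the representatives -/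
noncomputable def Rv {n : ℕ} (x : ZMod n) : ℝ := 1 / |(x.valMinAbs : ℝ)|

theorem Rv_nonneg {n : ℕ} (x : ZMod n) : 0 ≤ Rv x := by
  unfold Rv; positivity

theorem bound_rep {n : ℕ} [NeZero n] (x : ZMod n) : 2 * |x.valMinAbs| ≤ n := by
  have h := ZMod.valMinAbs_mem_Ioc x
  rw [Set.mem_Ioc] at h
  have := abs_le.2 ⟨by linarith [h.1], h.2⟩
  rw [abs_mul] at this
  norm_num at this
  linarith

/-- CLS for a subset of `ℤ/n` -/
theorem cls_zmod (hc : CLS_Stmt) {n : ℕ} [NeZero n] (H : ℕ) (r : ℤ) (L : ℝ) (hH : 0 < H)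
    (hL : 0 < L) (G : Finset (ZMod n))
    (h : ∀ x ∈ G, (H : ℤ) ∣ x.valMinAbs - r ∧ L < |(x.valMinAbs : ℝ)|) :
    ∑ x ∈ G, Rv x ≤ 2 / L + 2 / H * (1 + Real.log n) := by
  have h1 := hc n H r L hH (Nat.one_le_iff_ne_zero.2 (NeZero.ne n)) hL
    (G.image ZMod.valMinAbs) (fun b hb => by
      obtain ⟨x, hx, rfl⟩ := Finset.mem_image.1 hb
      exact ⟨(h x hx).1, (h x hx).2, bound_rep x⟩)
  rw [Finset.sum_image (fun x _ y _ hxy => ZMod.injective_valMinAbs hxy)] at h1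
  exact h1

theorem sum_Rv (hc : CLS_Stmt) {n : ℕ} [NeZero n] :
    ∑ x : ZMod n, Rv x ≤ 6 + 2 * Real.log n := by
  have h1 := cls_zmod hc (n := n) 1 0 (1 / 2) one_pos (by norm_num)
    (Finset.univ.filter fun x => x ≠ 0) (fun x hx => by
      rw [Finset.mem_filter] at hx
      refine ⟨by simp, ?_⟩
      have h2 : x.valMinAbs ≠ 0 := fun h => hx.2 ((ZMod.valMinAbs_eq_zero x).1 h)
      have h3 : (1 : ℝ) ≤ |(x.valMinAbs : ℝ)| := by
        rw [← Int.cast_abs]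
        exact_mod_cast Int.one_le_abs h2
      linarith)
  have h2 : ∑ x : ZMod n, Rv x = ∑ x ∈ Finset.univ.filter (fun x : ZMod n => x ≠ 0), Rv x := by
    rw [Finset.sum_filter]
    refine Finset.sum_congr rfl fun x _ => ?_
    split_ifs with h
    · rfl
    · rw [not_not] at h
      subst h
      simp [Rv]
  rw [h2]
  refine h1.trans (le_of_eq ?_)
  norm_num
  ring

/-- the solutions `b` for a fixed `a` -/
theorem fixed_a (hc : CLS_Stmt) (hA : Even A) (hB : Odd B) (hm : Odd m) (hs : 1 ≤ s) (L : ℝ)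
    (hL : 0 < L) (a : ℤ) (G : Finset (ZMod (2 ^ s)))
    (hG : ∀ x ∈ G, Sol A B C m s a x.valMinAbs ∧ L < |(x.valMinAbs : ℝ)|) :
    ∑ x ∈ G, Rv x ≤ 2 * (2 / L + 2 / (2 : ℝ) ^ ((s + 1) / 2) *
      (1 + Real.log ((2 : ℝ) ^ s))) := by
  have hlog : 0 ≤ Real.log ((2 : ℝ) ^ s) := Real.log_nonneg (one_le_pow₀ (by norm_num))
  have hK : 0 ≤ 2 / L + 2 / (2 : ℝ) ^ ((s + 1) / 2) * (1 + Real.log ((2 : ℝ) ^ s)) := by
    positivity
  have key : ∀ G' : Finset (ZMod (2 ^ s)), (∀ x ∈ G', L < |(x.valMinAbs : ℝ)|) →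
      (∀ x ∈ G', ∀ y ∈ G', (2 : ℤ) ^ ((s + 1) / 2) ∣ x.valMinAbs - y.valMinAbs) →
      ∑ x ∈ G', Rv x ≤ 2 / L + 2 / (2 : ℝ) ^ ((s + 1) / 2) * (1 + Real.log ((2 : ℝ) ^ s)) := by
    intro G' h1 h2
    rcases G'.eq_empty_or_nonempty with h | ⟨y, hy⟩
    · rw [h, Finset.sum_empty]; exact hK
    · have := cls_zmod hc (2 ^ ((s + 1) / 2)) y.valMinAbs L (by positivity) hL G'
        (fun x hx => ⟨by exact_mod_cast h2 x hx y hy, h1 x hx⟩)
      push_cast at this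
      exact this
  rcases G.eq_empty_or_nonempty with h | ⟨y, hy⟩
  · rw [h, Finset.sum_empty]; linarith
  · rw [← Finset.sum_filter_add_sum_filter_not G
      (fun x => (2 : ℤ) ^ ((s + 1) / 2) ∣ x.valMinAbs - y.valMinAbs), two_mul]
    refine add_le_add (key _ ?_ ?_) (key _ ?_ ?_)
    · intro x hx
      exact (hG x (Finset.mem_filter.1 hx).1).2
    · intro x hx z hz
      have := dvd_sub (Finset.mem_filter.1 hx).2 (Finset.mem_filter.1 hz).2
      rwa [show x.valMinAbs - y.valMinAbs - (z.valMinAbs - y.valMinAbs) =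
        x.valMinAbs - z.valMinAbs by ring] at this
    · intro x hx
      exact (hG x (Finset.mem_filter.1 hx).1).2
    · have hq : ∀ x ∈ G.filter (fun x => ¬ (2 : ℤ) ^ ((s + 1) / 2) ∣ x.valMinAbs - y.valMinAbs),
          Odd C ∧ (2 : ℤ) ^ ((s + 1) / 2) ∣ C * (x.valMinAbs + y.valMinAbs) + B * a := by
        intro x hx
        rw [Finset.mem_filter] at hx
        exact ((hG y hy).1.two hA hB hm hs (hG x hx.1).1).resolve_left hx.2
      intro x hx z hz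
      have h1 := dvd_sub (hq x hx).2 (hq z hz).2
      rw [show C * (x.valMinAbs + y.valMinAbs) + B * a - (C * (z.valMinAbs + y.valMinAbs) + B * a) =
        C * (x.valMinAbs - z.valMinAbs) by ring] at h1
      exact (coprime_odd _ (hq x hx).1).dvd_of_dvd_mul_left h1

theorem sol_iff (a b : ZMod (2 ^ s)) : (A : ZMod (2 ^ s)) * a ^ 2 + B * a * b + C * b ^ 2 =
    (m : ZMod (2 ^ s)) ↔ Sol A B C m s a.valMinAbs b.valMinAbs := by
  unfold Sol
  have h := ZMod.intCast_zmod_eq_zero_iff_dvd (A * a.valMinAbs ^ 2 + B * a.valMinAbs * b.valMinAbs +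
    C * b.valMinAbs ^ 2 - m) (2 ^ s)
  push_cast at h
  rw [← h, sub_eq_zero]

/-- the bound -/
noncomputable def eps (θ : ℝ) (s : ℕ) : ℝ :=
  6 * (5 / θ + 4) * ((s : ℝ) ^ 0 / √2 ^ s) +
    Real.log 2 * (2 * (5 / θ + 4) + 24) * ((s : ℝ) ^ 1 / √2 ^ s) +
    8 * Real.log 2 ^ 2 * ((s : ℝ) ^ 2 / √2 ^ s)

theorem one_lt_sqrt2 : 1 < √(2 : ℝ) := by
  rw [Real.lt_sqrt (by norm_num)]; norm_num

theorem eps_tendsto (θ : ℝ) : Tendsto (eps θ) atTop (𝓝 0) := by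
  have h : ∀ (c : ℝ) (k : ℕ), Tendsto (fun s : ℕ => c * ((s : ℝ) ^ k / √2 ^ s)) atTop (𝓝 0) := by
    intro c k
    have := (tendsto_pow_const_div_const_pow_of_one_lt k one_lt_sqrt2).const_mul c
    rwa [mul_zero] at this
  have h3 := ((h (6 * (5 / θ + 4)) 0).add (h (Real.log 2 * (2 * (5 / θ + 4) + 24)) 1)).add
    (h (8 * Real.log 2 ^ 2) 2)
  rw [add_zero, add_zero] at h3
  exact h3

theorem eps_eq {θ : ℝ} (hθ : 0 < θ) (s : ℕ) : eps θ s =
    (6 + 2 * Real.log ((2 : ℝ) ^ s)) * (1 / (θ * √(2 ^ s)) +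
      2 * (2 / (θ * √(2 ^ s)) + 2 / √(2 ^ s) * (1 + Real.log ((2 : ℝ) ^ s)))) := by
  have h1 : √((2 : ℝ) ^ s) = √2 ^ s := by
    rw [Real.sqrt_eq_iff_mul_self_eq (by positivity) (by positivity), ← mul_pow,
      Real.mul_self_sqrt (by norm_num)]
  have h2 : (√2 : ℝ) ^ s ≠ 0 := by positivity
  rw [h1, Real.log_pow, eps]
  field_simp
  ring

theorem eps_nonneg {θ : ℝ} (hθ : 0 < θ) (s : ℕ) : 0 ≤ eps θ s := by
  have hlog : 0 ≤ Real.log ((2 : ℝ) ^ s) := Real.log_nonneg (one_le_pow₀ (by norm_num))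
  rw [eps_eq hθ]
  positivity

theorem main (hc : CLS_Stmt) (hA : Even A) (hB : Odd B) {θ : ℝ} (hθ : 0 < θ) (hm : Odd m)
    (hs : 1 ≤ s) :
    ∑ p : ZMod (2 ^ s) × ZMod (2 ^ s),
        (if (A : ZMod (2 ^ s)) * p.1 ^ 2 + B * p.1 * p.2 + C * p.2 ^ 2 = (m : ZMod (2 ^ s)) ∧
            (θ * √(2 ^ s) < |(p.1.valMinAbs : ℝ)| ∨ θ * √(2 ^ s) < |(p.2.valMinAbs : ℝ)|) ∧
            p.1 ≠ 0 ∧ p.2 ≠ 0 then
          1 / (|(p.1.valMinAbs : ℝ)| * |(p.2.valMinAbs : ℝ)|) else 0) ≤ eps θ s := by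
  classical
  have hn : 0 < θ * √(2 ^ s) := by positivity
  have hlog : 0 ≤ Real.log ((2 : ℝ) ^ s) := Real.log_nonneg (one_le_pow₀ (by norm_num))
  have hsum : ∑ x : ZMod (2 ^ s), Rv x ≤ 6 + 2 * Real.log ((2 : ℝ) ^ s) := by
    have := sum_Rv hc (n := 2 ^ s)
    push_cast at this
    exact this
  set K : ℝ := 2 * (2 / (θ * √(2 ^ s)) + 2 / √(2 ^ s) * (1 + Real.log ((2 : ℝ) ^ s))) with hK
  have hK0 : 0 ≤ K := by positivity
  -- the two parts
  have h1 : ∀ b : ZMod (2 ^ s), ∑ a : ZMod (2 ^ s),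
      (if Sol A B C m s a.valMinAbs b.valMinAbs ∧ θ * √(2 ^ s) < |(a.valMinAbs : ℝ)| then
        Rv a * Rv b else 0) ≤ 1 / (θ * √(2 ^ s)) * Rv b := by
    intro b
    rw [← Finset.sum_filter]
    have hcard : (Finset.univ.filter fun a : ZMod (2 ^ s) =>
        Sol A B C m s a.valMinAbs b.valMinAbs ∧ θ * √(2 ^ s) < |(a.valMinAbs : ℝ)|).card ≤ 1 := by
      rw [Finset.card_le_one]
      intro a ha a' ha'
      rw [Finset.mem_filter] at ha ha'
      have h2 := ha.2.1.uniq hA hB hm hs ha'.2.1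
      have h3 := (ZMod.intCast_zmod_eq_zero_iff_dvd (a.valMinAbs - a'.valMinAbs) (2 ^ s)).2
        (by exact_mod_cast h2)
      rw [Int.cast_sub, ZMod.coe_valMinAbs, ZMod.coe_valMinAbs, sub_eq_zero] at h3
      exact h3
    have hle : ∀ a ∈ (Finset.univ.filter fun a : ZMod (2 ^ s) =>
        Sol A B C m s a.valMinAbs b.valMinAbs ∧ θ * √(2 ^ s) < |(a.valMinAbs : ℝ)|),
        Rv a * Rv b ≤ 1 / (θ * √(2 ^ s)) * Rv b := by
      intro a ha
      rw [Finset.mem_filter] at ha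
      refine mul_le_mul_of_nonneg_right ?_ (Rv_nonneg b)
      exact one_div_le_one_div_of_le hn ha.2.2.le
    refine (Finset.sum_le_card_nsmul _ _ _ hle).trans ?_
    rw [nsmul_eq_mul]
    have h0 : 0 ≤ 1 / (θ * √(2 ^ s)) * Rv b := mul_nonneg (by positivity) (Rv_nonneg b)
    have hcr : (((Finset.univ.filter fun a : ZMod (2 ^ s) =>
        Sol A B C m s a.valMinAbs b.valMinAbs ∧ θ * √(2 ^ s) < |(a.valMinAbs : ℝ)|).card : ℕ) : ℝ)
        ≤ 1 := by exact_mod_cast hcard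
    nlinarith
  have h2 : ∀ a : ZMod (2 ^ s), ∑ b : ZMod (2 ^ s),
      (if Sol A B C m s a.valMinAbs b.valMinAbs ∧ θ * √(2 ^ s) < |(b.valMinAbs : ℝ)| then
        Rv a * Rv b else 0) ≤ K * Rv a := by
    intro a
    rw [← Finset.sum_filter, ← Finset.mul_sum, mul_comm K]
    refine mul_le_mul_of_nonneg_left ?_ (Rv_nonneg a)
    refine (fixed_a hc hA hB hm hs (θ * √(2 ^ s)) hn a.valMinAbs _
      (fun x hx => (Finset.mem_filter.1 hx).2)).trans ?_
    rw [hK]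
    have hH : √((2 : ℝ) ^ s) ≤ (2 : ℝ) ^ ((s + 1) / 2) := by
      rw [Real.sqrt_le_left (by positivity), ← pow_mul]
      exact pow_le_pow_right₀ (by norm_num) (by omega)
    have : 2 / (2 : ℝ) ^ ((s + 1) / 2) ≤ 2 / √((2 : ℝ) ^ s) :=
      div_le_div_of_nonneg_left (by norm_num) (by positivity) hH
    have h3 := mul_le_mul_of_nonneg_right this (by linarith : 0 ≤ 1 + Real.log ((2 : ℝ) ^ s))
    linarith
  have h3 : ∀ p : ZMod (2 ^ s) × ZMod (2 ^ s),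
      (if (A : ZMod (2 ^ s)) * p.1 ^ 2 + B * p.1 * p.2 + C * p.2 ^ 2 = (m : ZMod (2 ^ s)) ∧
            (θ * √(2 ^ s) < |(p.1.valMinAbs : ℝ)| ∨ θ * √(2 ^ s) < |(p.2.valMinAbs : ℝ)|) ∧
            p.1 ≠ 0 ∧ p.2 ≠ 0 then
          1 / (|(p.1.valMinAbs : ℝ)| * |(p.2.valMinAbs : ℝ)|) else 0) ≤
      (if Sol A B C m s p.1.valMinAbs p.2.valMinAbs ∧ θ * √(2 ^ s) < |(p.1.valMinAbs : ℝ)| then
        Rv p.1 * Rv p.2 else 0) +
      (if Sol A B C m s p.1.valMinAbs p.2.valMinAbs ∧ θ * √(2 ^ s) < |(p.2.valMinAbs : ℝ)| then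
        Rv p.1 * Rv p.2 else 0) := by
    intro p
    have hR : 0 ≤ Rv p.1 * Rv p.2 := mul_nonneg (Rv_nonneg _) (Rv_nonneg _)
    have hp1 : (0 : ℝ) ≤ (if Sol A B C m s p.1.valMinAbs p.2.valMinAbs ∧
        θ * √(2 ^ s) < |(p.1.valMinAbs : ℝ)| then Rv p.1 * Rv p.2 else 0) := by
      split_ifs
      · exact hR
      · exact le_rfl
    have hp2 : (0 : ℝ) ≤ (if Sol A B C m s p.1.valMinAbs p.2.valMinAbs ∧
        θ * √(2 ^ s) < |(p.2.valMinAbs : ℝ)| then Rv p.1 * Rv p.2 else 0) := by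
      split_ifs
      · exact hR
      · exact le_rfl
    by_cases hh : (A : ZMod (2 ^ s)) * p.1 ^ 2 + B * p.1 * p.2 + C * p.2 ^ 2 =
        (m : ZMod (2 ^ s)) ∧
            (θ * √(2 ^ s) < |(p.1.valMinAbs : ℝ)| ∨ θ * √(2 ^ s) < |(p.2.valMinAbs : ℝ)|) ∧
            p.1 ≠ 0 ∧ p.2 ≠ 0
    · rw [if_pos hh]
      have hsol := (sol_iff p.1 p.2).1 hh.1
      have he : 1 / (|(p.1.valMinAbs : ℝ)| * |(p.2.valMinAbs : ℝ)|) = Rv p.1 * Rv p.2 := by
        unfold Rv; ring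
      rw [he]
      rcases hh.2.1 with h4 | h4
      · rw [if_pos (⟨hsol, h4⟩ : _ ∧ _)]
        linarith
      · rw [if_pos (c := Sol A B C m s p.1.valMinAbs p.2.valMinAbs ∧
          θ * √(2 ^ s) < |(p.2.valMinAbs : ℝ)|) ⟨hsol, h4⟩]
        linarith
    · rw [if_neg hh]
      linarith
  calc _ ≤ ∑ p : ZMod (2 ^ s) × ZMod (2 ^ s), (
      (if Sol A B C m s p.1.valMinAbs p.2.valMinAbs ∧ θ * √(2 ^ s) < |(p.1.valMinAbs : ℝ)| then
        Rv p.1 * Rv p.2 else 0) +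
      (if Sol A B C m s p.1.valMinAbs p.2.valMinAbs ∧ θ * √(2 ^ s) < |(p.2.valMinAbs : ℝ)| then
        Rv p.1 * Rv p.2 else 0)) := Finset.sum_le_sum fun p _ => h3 p
    _ = ∑ b : ZMod (2 ^ s), ∑ a : ZMod (2 ^ s),
      (if Sol A B C m s a.valMinAbs b.valMinAbs ∧ θ * √(2 ^ s) < |(a.valMinAbs : ℝ)| then
        Rv a * Rv b else 0) + ∑ a : ZMod (2 ^ s), ∑ b : ZMod (2 ^ s),
      (if Sol A B C m s a.valMinAbs b.valMinAbs ∧ θ * √(2 ^ s) < |(b.valMinAbs : ℝ)| then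
        Rv a * Rv b else 0) := by
        rw [Finset.sum_add_distrib, Fintype.sum_prod_type, Fintype.sum_prod_type,
          Finset.sum_comm]
    _ ≤ ∑ b : ZMod (2 ^ s), 1 / (θ * √(2 ^ s)) * Rv b + ∑ a : ZMod (2 ^ s), K * Rv a :=
        add_le_add (Finset.sum_le_sum fun b _ => h1 b) (Finset.sum_le_sum fun a _ => h2 a)
    _ = (∑ x : ZMod (2 ^ s), Rv x) * (1 / (θ * √(2 ^ s)) + K) := by
        rw [← Finset.mul_sum, ← Finset.mul_sum]; ring
    _ ≤ (6 + 2 * Real.log ((2 : ℝ) ^ s)) * (1 / (θ * √(2 ^ s)) + K) :=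
        mul_le_mul_of_nonneg_right hsum (by positivity)
    _ = eps θ s := (eps_eq hθ s).symm

end TAIL

theorem tail (hc : CLS_Stmt) : TAIL_Stmt := by
  intro A B C hA hB θ hθ
  refine ⟨TAIL.eps θ, TAIL.eps_tendsto θ, fun s m hm => ?_⟩
  rcases Nat.eq_zero_or_pos s with rfl | hs
  · refine le_trans (le_of_eq (Finset.sum_eq_zero fun p _ => ?_)) (TAIL.eps_nonneg hθ 0)
    rw [if_neg]
    rintro ⟨-, -, h, -⟩
    exact h (Subsingleton.elim (α := ZMod 1) _ _)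
  · exact TAIL.main hc hA hB hθ hm hs

end Pool.Agent.MTA
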