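import Pool.Agent.MTR.Final
import Pool.Agent.MTR.SiteB
import Pool.Agent.MTA.Tail
import Pool.Agent.MTA.Lamg
import Pool.Agent.MTA.Limq
import Pool.Agent.MTA.Mnz
import Pool.Agent.MTA.Lims
import Pool.Agent.MTA.Cscl
import Pool.Agent.MTA.Limt
import Pool.Agent.MTA.Fto
import Pool.Agent.MTA.Lamm
import Pool.Agent.MTA.Stb
import Pool.Agent.MTA.Phi
import Pool.Agent.MTA.Prs
import Pool.Agent.MTA.Mtd
import Pool.Agent.MTA.Nfe
import Pool.Agent.MTA.Lamb
import Pool.Agent.MTA.Cls
import Pool.Agent.MTA.Derg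
import Pool.Agent.MTA.Insg
import Pool.Agent.MTA.Fout
import Pool.Agent.MT.Tms
import Pool.Agent.TB.Zt
import Pool.Agent.TB.Ego
import Pool.Agent.TB.Fou
import Pool.Agent.TB.Chn
import Pool.Agent.TB.Jnz

/-!
Montesinos knots: assembly of the analysis part and of the recovery part.
-/

namespace Pool.Agent.MTA

open Pool.Agent.LibH11.Sliced Pool.Agent.TB Pool.Agent.MTR Pool.Agent.MT

/-- FINM from PHI and RECM. -/
theorem finm_of (hphi : PHI_Stmt) (hrec : RECM_Stmt) (hn : NFE_Stmt) : FINM_Stmt := by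
  intro ts ts' e e' h h' hT hT' h3 hND hor hv
  obtain ⟨n1, -, -, n4⟩ := hn ts e hT
  obtain ⟨n1', -, -, -⟩ := hn ts' e' hT'
  have hlen : (wrds ts).length = ts.length := by simp [wrds]
  have hlen' : (wrds ts').length = ts'.length := by simp [wrds]
  obtain ⟨c1, c2⟩ := hrec e (wrds ts) e' (wrds ts') n1 n1' (by rw [hlen]; exact h3) hND
    (by rw [hlen, hlen']; exact hor) (hphi ts ts' e e' h h' hT hT' hv)
  exact ⟨c1, n4 ts' e' hT' c2⟩

/-- Finite type invariants determine nondegenerate Montesinos knots in normal form. -/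
theorem finm (hint : INT_Stmt) : FINM_Stmt := by
  have hzt := zt_basic
  have hego := ego hzt
  have hjnz := jnz hzt chn
  have had := adv chno
  have hins := insg_thm hego
  have hstb := stb hzt hego hins
  have hprs := prs hzt hego
  have hcscl := cscl
  have hlims := lims chn (limq (tail cls)) hcscl
  have hlamg := lamg hzt fou hego hstb hprs derg hins
  have hlamm := lamm had nfe mtd hstb hlamg (lamb hzt fou hego hprs)
  have hmnz := mnz hzt hego hjnz chn had nfe mtd hstb hprs (tms hzt)
  exact finm_of (phi had nfe hint hlamm hmnz (fto had fout (limt had hlims hcscl)))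
    (recm siteB) nfe

end Pool.Agent.MTA
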