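import Pool.Agent.MTA.Defs

/-!
Montesinos knots, analysis part: statements which do not use the torus model.
See PAPER.md in this folder.
-/

open Filter Topology
open scoped BigOperators Real

namespace Pool.Agent.MTA

open Pool.Agent.TB Pool.Agent.MTR

/-- FOUT: the sum of the characters over the odd residues modulo `2^s`. -/
def FOUT_Stmt : Prop :=
  ∀ s : ℕ, 2 ≤ s → ∀ M : ℤ, Odd M →
    (∀ v : ZMod (2 ^ s), ∑ τ ∈ Finset.univ.filter (fun τ : ZMod (2 ^ s) => IsUnit τ),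
      (ZMod.stdAddChar (τ * (v - (M : ZMod (2 ^ s)))) : ℂ) = (2 ^ s / 2 : ℂ) * chi s M v) ∧
    ∑ τ ∈ Finset.univ.filter (fun τ : ZMod (2 ^ s) => IsUnit τ),
      (ZMod.stdAddChar (-(τ * (M : ZMod (2 ^ s)))) : ℂ) = 0

/-- CLS: reciprocals of the integers of a residue class. -/
def CLS_Stmt : Prop :=
  ∀ (n H : ℕ) (r : ℤ) (L : ℝ), 0 < H → 1 ≤ n → 0 < L → ∀ F : Finset ℤ,
    (∀ b ∈ F, (H : ℤ) ∣ b - r ∧ L < |(b : ℝ)| ∧ 2 * |b| ≤ n) →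
    ∑ b ∈ F, 1 / |(b : ℝ)| ≤ 2 / L + 2 / H * (1 + Real.log n)

/-- TAIL: the solutions of a binary quadratic congruence modulo `2^s` with at least one
coordinate larger than `θ 2^(s/2)` give a sum which tends to zero. -/
def TAIL_Stmt : Prop :=
  ∀ A B C : ℤ, Even A → Odd B → ∀ θ : ℝ, 0 < θ →
    ∃ ε : ℕ → ℝ, Tendsto ε atTop (𝓝 0) ∧ ∀ (s : ℕ) (m : ℤ), Odd m →
      ∑ p : ZMod (2 ^ s) × ZMod (2 ^ s),
        (if (A : ZMod (2 ^ s)) * p.1 ^ 2 + B * p.1 * p.2 + C * p.2 ^ 2 = (m : ZMod (2 ^ s)) ∧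
            (θ * √(2 ^ s) < |(p.1.valMinAbs : ℝ)| ∨ θ * √(2 ^ s) < |(p.2.valMinAbs : ℝ)|) ∧
            p.1 ≠ 0 ∧ p.2 ≠ 0 then
          1 / (|(p.1.valMinAbs : ℝ)| * |(p.2.valMinAbs : ℝ)|) else 0) ≤ ε s

/-- LIMQ: the limit of the `cot cot` sums of a binary quadratic form. -/
def LIMQ_Stmt : Prop :=
  ∀ A B C c M : ℤ, Odd c → Odd M → Odd B → Even (A * C) →
    ∀ Z : Finset (ℤ × ℤ),
      (∀ p : ℤ × ℤ, p ∈ Z ↔ c * (A * p.1 ^ 2 + B * p.1 * p.2 + C * p.2 ^ 2) = M) →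
    Tendsto (fun s : ℕ => ((π : ℂ) / 2 ^ s) ^ 2 * ∑ a : ZMod (2 ^ s), ∑ b : ZMod (2 ^ s),
        ct (2 ^ s) a * ct (2 ^ s) b *
          chi s M (c * ((A : ZMod (2 ^ s)) * a ^ 2 + B * a * b + C * b ^ 2))) atTop
      (𝓝 (∑ p ∈ Z, 1 / ((p.1 : ℂ) * p.2)))

/-- CSCL: the limit of the `csc²` sums. -/
def CSCL_Stmt : Prop :=
  ∀ N c M : ℤ, Odd c → Odd M → (∀ ρ : ℤ, c * (ρ ^ 2 * N) ≠ M) →
    Tendsto (fun s : ℕ => ((π : ℂ) / 2 ^ s) ^ 2 * CS (2 ^ s) N (fun v => chi s M (c * v))) atTop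
      (𝓝 0)

/-- LIMS: the limit of the sums of a site. -/
def LIMS_Stmt : Prop :=
  ∀ (l : ℤ × ℤ) (x : List ℤ) (c M : ℤ), Odd (det2 l (lastv x)) → Odd c → Odd M →
    (∀ j ≤ x.length + 1, ∀ ρ : ℤ, c * (ρ ^ 2 * Nl l (lastv x) (chain x j)) ≠ M) →
    Tendsto (fun s : ℕ => 4 * ((π : ℂ) / 2 ^ s) ^ 2 * SG (2 ^ s) l x (fun v => chi s M (c * v)))
      atTop (𝓝 ((zsum c l (lastv x) M : ℚ) : ℂ))

/-- LIMT: the limit of the sums of a Montesinos knot. -/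
def LIMT_Stmt : Prop :=
  ∀ (e : ℤ) (ws : List (List ℤ)), NF e ws → ∀ c : ℤ, Odd c → ∃ L : ℕ, ∀ M : ℤ, Odd M →
    (∃ q : ℕ, q.Prime ∧ L < q ∧ (q : ℤ) ∣ M ∧ ¬ (q : ℤ) ^ 2 ∣ M) →
    Tendsto (fun s : ℕ => 4 * ((π : ℂ) / 2 ^ s) ^ 2 * TG (2 ^ s) e ws (fun v => chi s M (c * v)))
      atTop (𝓝 ((Phi e ws c M : ℚ) : ℂ))

/-- FTO: from the logarithmic derivatives to the limit functions. -/
def FTO_Stmt : Prop :=
  ∀ (e : ℤ) (ws : List (List ℤ)) (e' : ℤ) (ws' : List (List ℤ)), NF e ws → NF e' ws' →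
    (∃ s0 : ℕ, ∀ s : ℕ, s0 ≤ s → ∃ C : ℂ, ∀ κ κ' : ZMod (2 ^ s), IsUnit κ →
      κ * DD e ws = κ' * DD e' ws' → LG (2 ^ s) e ws κ - LG (2 ^ s) e' ws' κ' = C) →
    PhiEq e ws e' ws'

end Pool.Agent.MTA
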