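import Pool.Agent.MTA.Defs2
import Pool.Agent.MTA.Stmts0
import Pool.Agent.MT.Stmts

/-!
Montesinos knots, analysis part: statements of the modules which use the model at a root of unity,
and the final algebraic theorem. See PAPER.md in this folder.
-/

open Filter Topology
open scoped BigOperators Real

namespace Pool.Agent.MTA

open Pool.Agent.LibH11.Sliced Pool.Agent.TB Pool.Agent.MTR Pool.Agent.MT

/-- NFE: normal forms. -/
def NFE_Stmt : Prop :=
  ∀ (ts : List (Bool × List ℤ)) (e : ℤ), NFT ts e → NF e (wrds ts) ∧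
    (∀ t ∈ ts, (t.1 = true ↔ Odd t.2.length)) ∧
    (∀ t ∈ ts, wrds (ts.erase t) = (wrds ts).erase t.2.reverse ∧ ts.Perm (t :: ts.erase t)) ∧
    ∀ (ts' : List (Bool × List ℤ)) (e' : ℤ), NFT ts' e' → (wrds ts).Perm (wrds ts') → ts.Perm ts'

/-- MTD: the two components of the value in the model. -/
def MTD_Stmt : Prop :=
  ∀ (n : ℕ) [NeZero n] (ι : ℤ) (ts : List (Bool × List ℤ)) (e : ℤ),
    (Mt n ι ts e).fst = pr n (Pp n ι e ts) 1 ∧
    (Mt n ι ts e).snd = ((e : ℂ) / 2) * pr n (Pp n ι e ts) (bq n) +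
      ((ts.length : ℂ) - 2) * pr n (Pp n ι e ts) (Th n ι 1) +
      (ts.map fun t => pr n (Pp n ι e (ts.erase t)) (vt n ι t).2).sum

/-- STB: stabilisers. -/
def STB_Stmt : Prop :=
  ∀ (n : ℕ) [NeZero n] (ι : ℤ), IsCoprime ι (2 * n : ℤ) →
    (∀ v v' f f', Stab n ι v f → Stab n ι v' f' → Stab n ι (addv v v') (f * f')) ∧
    (∀ e : ℤ, Stab n ι (-e, 1) (fe n ι e)) ∧
    (∀ t : Bool × List ℤ, (t.1 = true ↔ Odd t.2.length) →
      Stab n ι (lastv t.2.reverse) (vt n ι t).1) ∧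
    (∀ (e : ℤ) (ts : List (Bool × List ℤ)), (∀ t ∈ ts, (t.1 = true ↔ Odd t.2.length)) →
      Stab n ι (totv e (wrds ts)) (Pp n ι e ts))

/-- PRS: the pairing and the Weyl operators. -/
def PRS_Stmt : Prop :=
  ∀ (n : ℕ) [NeZero n] (ι : ℤ), IsCoprime ι (2 * n : ℤ) →
    (∀ (a b : ℤ) (f g : Fn n), pr n f (Tt n ι a b g) = pr n (Tt n ι a (-b) f) g) ∧
    ∀ (l V : ℤ × ℤ) (Φ ψ : Fn n), Stab n ι (-l.1, l.2) Φ → Stab n ι V ψ →
      ∀ δ : ℤ, (δ * det2 l V : ZMod n) = 1 → ∀ R : ℤ × ℤ,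
        pr n Φ (Tt n ι R.1 R.2 ψ) = pr n Φ ψ * zt n ι (2 * δ * Nl l V R : ℤ)

/-- DERG: the derivative as a sum of insertions. -/
def DERG_Stmt : Prop :=
  ∀ (n : ℕ) [NeZero n] (ι : ℤ) (t : Bool × List ℤ), (t.1 = true ↔ Odd t.2.length) →
    (vt n ι t).2 =
      -(∑ j ∈ Finset.range (t.2.length + 1),
          (-1 : ℂ) ^ j • insg n ι (bs n ι t.1).1 (Th n ι) false t.2.reverse j) +
        ∑ i ∈ Finset.range t.2.length, ((t.2.reverse.getD i 0 : ℤ) : ℂ) •
          insg n ι (bs n ι t.1).1 (if Even i then cono n ι (bq n) else mulo n (bq n)) false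
            t.2.reverse i

/-- INSG: Weyl operators move to the left. -/
def INSG_Stmt : Prop :=
  ∀ (n : ℕ) [NeZero n] (ι : ℤ), IsCoprime ι (2 * n : ℤ) →
    ∀ (f : Fn n) (x : List ℤ), ∀ j ≤ x.length, ∀ a b : ℤ,
      insg n ι f (Tt n ι a b) false x j =
        Tt n ι (if Even j then a • chain x j + b • chain x (j + 1)
            else a • chain x (j + 1) + b • chain x j).1
          (if Even j then a • chain x j + b • chain x (j + 1)
            else a • chain x (j + 1) + b • chain x j).2 (vecg n ι (f, 0) false x).1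

/-- LAMG: the logarithmic derivative of one tangle. -/
def LAMG_Stmt : Prop :=
  ∀ (n : ℕ) [NeZero n] (ι : ℤ), 1 < n → IsCoprime ι (2 * n : ℤ) →
    ∀ (l : ℤ × ℤ) (Φ : Fn n), Stab n ι (-l.1, l.2) Φ →
    ∀ (t : Bool × List ℤ), (t.1 = true ↔ Odd t.2.length) →
    ∀ κ : ZMod n, κ * ι * det2 l (lastv t.2.reverse) = 1 →
      pr n Φ (vt n ι t).2 = pr n Φ (vt n ι t).1 *
        (-((n : ℂ) ^ 2 - 1) / 6 * ((t.2.reverse.sum : ℤ) : ℂ) +
          SG n l t.2.reverse (fun v => ZMod.stdAddChar (κ * v)))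

/-- LAMB: the logarithmic derivative of the half twists. -/
def LAMB_Stmt : Prop :=
  ∀ (n : ℕ) [NeZero n] (ι : ℤ), 1 < n → IsCoprime ι (2 * n : ℤ) →
    ∀ (l : ℤ × ℤ) (Φ : Fn n), Stab n ι (-l.1, l.2) Φ →
    ∀ κ : ZMod n, κ * ι * l.1 = 1 →
      pr n Φ (bq n) = pr n Φ 1 *
        (-((n : ℂ) ^ 2 - 1) / 6 + (1 / 2) * CS n (-l.2) (fun v => ZMod.stdAddChar (κ * v)))

/-- LAMM: the logarithmic derivative of the Montesinos knot. -/
def LAMM_Stmt : Prop :=
  ∀ (n : ℕ) [NeZero n] (ι : ℤ), 1 < n → IsCoprime ι (2 * n : ℤ) →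
    ∀ (ts : List (Bool × List ℤ)) (e : ℤ), NFT ts e →
    ∀ κ : ZMod n, κ * ι * DD e (wrds ts) = 1 →
      (Mt n ι ts e).snd = (Mt n ι ts e).fst * LG n e (wrds ts) κ

/-- MNZ: the value does not vanish. -/
def MNZ_Stmt : Prop :=
  ∀ (ts : List (Bool × List ℤ)) (e : ℤ), NFT ts e → ∀ s : ℕ, 2 ≤ s → ∀ ι : ℤ, Odd ι →
    (Mt (2 ^ s) ι ts e).fst ≠ 0

/-- PHI: equality of all finite type invariants gives the identity of the limit functions. -/
def PHI_Stmt : Prop :=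
  ∀ (ts ts' : List (Bool × List ℤ)) (e e' : ℤ) (h : IsLongKnot (mdiag ts e))
    (h' : IsLongKnot (mdiag ts' e')), NFT ts e → NFT ts' e' →
    (∀ v : Knot → ℂ, IsFiniteType v →
      v (ofDiag (mdiag ts e) h) = v (ofDiag (mdiag ts' e') h')) →
    PhiEq e (wrds ts) e' (wrds ts')

/-- FINM: finite type invariants determine nondegenerate Montesinos knots in normal form up to the
order of the tangles. -/
def FINM_Stmt : Prop :=
  ∀ (ts ts' : List (Bool × List ℤ)) (e e' : ℤ) (h : IsLongKnot (mdiag ts e))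
    (h' : IsLongKnot (mdiag ts' e')), NFT ts e → NFT ts' e' → 3 ≤ ts.length → ND e (wrds ts) →
    (ts'.length ≤ ts.length ∨ ND e' (wrds ts')) →
    (∀ v : Knot → ℂ, IsFiniteType v →
      v (ofDiag (mdiag ts e) h) = v (ofDiag (mdiag ts' e') h')) →
    e = e' ∧ ts.Perm ts'

end Pool.Agent.MTA
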